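import Pool.Agent.Lib.MP_50bb2e_nt.PP.Iface

/-!
Board PP, row LMAIN: continuation of the twisted series and the effect of removing Euler factors.
-/

open IsDedekindDomain NumberField Filter Topology

namespace Pool.Agent.Lib.MP_50bb2e_nt.PP

noncomputable section

namespace Lmain

variable {F : Type} [Field F] [NumberField F]

/-! ### Nonarchimedean absolute values -/

theorem w_add_eq {w : AbsoluteValue ℂ ℝ} (na : ∀ x y : ℂ, w (x + y) ≤ max (w x) (w y)) {x y : ℂ}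
    (h : w x < w y) : w (x + y) = w y := by
  apply le_antisymm
  · exact (na x y).trans (max_le h.le le_rfl)
  · by_contra h2
    push Not at h2
    have h3 := na (x + y) (-x)
    rw [add_neg_cancel_comm, map_neg_eq_map] at h3
    exact absurd h3 (not_le.2 (max_lt h2 h))

theorem w_nat_le {w : AbsoluteValue ℂ ℝ} (na : ∀ x y : ℂ, w (x + y) ≤ max (w x) (w y)) (n : ℕ) :
    w (n : ℂ) ≤ 1 := by
  induction n with
  | zero => simp
  | succ n ih =>
    rw [Nat.cast_succ]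
    exact (na _ _).trans (max_le ih (by simp))

theorem w_int_le {w : AbsoluteValue ℂ ℝ} (na : ∀ x y : ℂ, w (x + y) ≤ max (w x) (w y)) (n : ℤ) :
    w (n : ℂ) ≤ 1 := by
  obtain ⟨m, rfl | rfl⟩ := n.eq_nat_or_neg
  · exact_mod_cast w_nat_le na m
  · push_cast
    rw [map_neg_eq_map]
    exact w_nat_le na m

theorem w_even_lt {w : AbsoluteValue ℂ ℝ} (na : ∀ x y : ℂ, w (x + y) ≤ max (w x) (w y))
    (two : w 2 < 1) {n : ℤ} (h : Even n) : w (n : ℂ) < 1 := by
  obtain ⟨m, rfl⟩ := h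
  have h1 : ((m + m : ℤ) : ℂ) = 2 * (m : ℂ) := by push_cast; ring
  rw [h1, map_mul]
  calc w 2 * w (m : ℂ) ≤ w 2 * 1 := mul_le_mul_of_nonneg_left (w_int_le na m) (w.nonneg _)
    _ = w 2 := mul_one _
    _ < 1 := two

theorem w_odd_eq {w : AbsoluteValue ℂ ℝ} (na : ∀ x y : ℂ, w (x + y) ≤ max (w x) (w y))
    (two : w 2 < 1) {n : ℤ} (h : Odd n) : w (n : ℂ) = 1 := by
  obtain ⟨m, rfl⟩ := h
  have h1 : ((2 * m + 1 : ℤ) : ℂ) = ((m + m : ℤ) : ℂ) + 1 := by push_cast; ring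
  have h2 := w_even_lt na two (n := m + m) ⟨m, rfl⟩
  rw [h1, w_add_eq na (by rw [map_one]; exact h2), map_one]

/-- the Euler factor at the centre has absolute value one -/
theorem w_factor {w : AbsoluteValue ℂ ℝ} (na : ∀ x y : ℂ, w (x + y) ≤ max (w x) (w y))
    (two : w 2 < 1) {N : ℕ} (hN : Odd N) {η : ℂ} {k : ℂ} (hk : w k ≤ 1)
    (hη : w (1 - k + η) = 1) {e : ℤ} (he : e = 1 ∨ e = -1) :
    w (1 - k * (e : ℂ) * (N : ℂ) ^ (-(1 : ℂ)) + η * (N : ℂ) * ((N : ℂ) ^ (-(1 : ℂ))) ^ 2) = 1 := by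
  have hN0 : (N : ℂ) ≠ 0 := by
    intro h
    rw [Nat.cast_eq_zero] at h
    subst h
    exact absurd hN (by decide)
  have h1 : (1 - k * (e : ℂ) * (N : ℂ) ^ (-(1 : ℂ)) +
      η * (N : ℂ) * ((N : ℂ) ^ (-(1 : ℂ))) ^ 2) * N =
      ((((N : ℤ) - 1 : ℤ) : ℂ) + k * (((1 - e : ℤ)) : ℂ)) + (1 - k + η) := by
    rw [Complex.cpow_neg, Complex.cpow_one]
    push_cast
    field_simp
    ring
  have h2 : w ((((N : ℤ) - 1 : ℤ) : ℂ)) < 1 := by
    apply w_even_lt na two
    obtain ⟨m, hm⟩ := hN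
    subst hm
    exact ⟨m, by push_cast; ring⟩
  have h2' : w (k * (((1 - e : ℤ)) : ℂ)) < 1 := by
    rw [map_mul]
    have h : w (((1 - e : ℤ)) : ℂ) < 1 := by
      apply w_even_lt na two
      rcases he with h | h
      · subst h; exact ⟨0, by norm_num⟩
      · subst h; exact ⟨1, by norm_num⟩
    calc w k * w (((1 - e : ℤ)) : ℂ) ≤ 1 * w (((1 - e : ℤ)) : ℂ) :=
          mul_le_mul_of_nonneg_right hk (w.nonneg _)
      _ < 1 := by rw [one_mul]; exact h
  have h3 : w (N : ℂ) = 1 := by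
    have := w_odd_eq na two (n := (N : ℤ)) (by exact_mod_cast hN)
    exact_mod_cast this
  have h4 := congrArg w h1
  rw [map_mul, h3, mul_one, w_add_eq na (x := (((N : ℤ) - 1 : ℤ) : ℂ) + k * (((1 - e : ℤ)) : ℂ))
    (by rw [hη]; exact (na _ _).trans_lt (max_lt h2 h2')), hη] at h4
  exact h4

/-! ### Ideals coprime to a finite set of primes -/

theorem cop_mul {T : Finset (Pr F)} {a b : Ideal (𝓞 F)} : Cop T (a * b) ↔ Cop T a ∧ Cop T b := by
  unfold Cop
  constructor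
  · intro h
    exact ⟨fun v hv h1 => h v hv ((Ideal.mul_le_left).trans h1),
      fun v hv h1 => h v hv ((Ideal.mul_le_right).trans h1)⟩
  · rintro ⟨h1, h2⟩ v hv h3
    rcases (v.isPrime.mul_le).1 h3 with h4 | h4
    · exact h1 v hv h4
    · exact h2 v hv h4

theorem cop_prime {T : Finset (Pr F)} {v : Pr F} (hv : v ∉ T) : Cop T v.asIdeal := by
  intro u hu h
  apply hv
  have h1 : v.asIdeal = u.asIdeal := (v.isMaximal).eq_of_le u.isPrime.ne_top h
  have h2 : v = u := HeightOneSpectrum.ext h1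
  rwa [h2]

theorem cop_span {T : Finset (Pr F)} {α : 𝓞 F} (h : ∀ v ∈ T, α ∉ v.asIdeal) :
    Cop T (Ideal.span {α}) := by
  intro v hv h1
  exact h v hv ((Ideal.span_singleton_le_iff_mem _).1 h1)

open Classical in
theorem cop_insert {T : Finset (Pr F)} {v : Pr F} {a : Ideal (𝓞 F)} :
    Cop (insert v T) a ↔ ¬ a ≤ v.asIdeal ∧ Cop T a := by
  unfold Cop
  rw [Finset.forall_mem_insert]

/-! ### Terms of the series -/

theorem norm_term (x : ℂ) {s : ℂ} (hs : 3 / 2 < s.re) (n : ℕ) :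
    ‖x * (n : ℂ) ^ (-s)‖ = ‖x‖ * (n : ℝ) ^ (-s.re) := by
  have h1 : (-s).re ≠ 0 := by
    rw [Complex.neg_re]
    intro h
    linarith
  rw [norm_mul, Complex.norm_natCast_cpow_of_re_ne_zero _ h1, Complex.neg_re]

theorem summable_le {c e : Ideal (𝓞 F) → ℂ} (h : ∀ a, ‖e a‖ ≤ ‖c a‖) {s : ℂ}
    (hc : Summable (fun a : Ideal (𝓞 F) => ‖c a‖ * (Ideal.absNorm a : ℝ) ^ (-s.re))) :
    Summable (fun a : Ideal (𝓞 F) => ‖e a‖ * (Ideal.absNorm a : ℝ) ^ (-s.re)) := by
  refine Summable.of_nonneg_of_le (fun a => by positivity) (fun a => ?_) hc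
  exact mul_le_mul_of_nonneg_right (h a) (by positivity)

theorem summable_le' {c e : Ideal (𝓞 F) → ℂ} (h : ∀ a, ‖e a‖ ≤ ‖c a‖) {s : ℂ} (hs : 3 / 2 < s.re)
    (hc : Summable (fun a : Ideal (𝓞 F) => ‖c a‖ * (Ideal.absNorm a : ℝ) ^ (-s.re))) :
    Summable (fun a : Ideal (𝓞 F) => e a * (Ideal.absNorm a : ℂ) ^ (-s)) := by
  refine Summable.of_norm ?_
  simp_rw [norm_term _ hs]
  exact summable_le h hc

/-! ### Values of characters -/

theorem chi_abs_le (χ : QChar F) (a : Ideal (𝓞 F)) : ‖(χ.chi a : ℂ)‖ ≤ 1 := by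
  by_cases h0 : a = ⊥
  · rw [h0, χ.bot]; simp
  · by_cases h1 : Cop χ.T a
    · rcases χ.val a h0 h1 with h | h <;> rw [h] <;> simp
    · rw [χ.zero a h1]; simp

theorem chi_ne_zero (χ : QChar F) {a : Ideal (𝓞 F)} (h0 : a ≠ ⊥) (h1 : Cop χ.T a) :
    χ.chi a ≠ 0 := by
  rcases χ.val a h0 h1 with h | h <;> rw [h] <;> norm_num

theorem rayUnion (h3 : RayStatement) (χ : QChar F) {t : ℤ} (ht : t ≠ 0) :
    IsRayUnion χ.T {a | a ≠ ⊥ ∧ χ.chi a = t} := by
  constructor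
  · rintro a ⟨h1, h2⟩
    refine ⟨h1, ?_⟩
    by_contra h
    rw [χ.zero a h] at h2
    exact ht h2.symm
  · rintro a ⟨ha0, hat⟩ b α β hα hβ hT hab
    have e1 : χ.chi (Ideal.span {α}) = χ.chi (Ideal.span {β}) := h3 F χ α β hα hβ hT
    have e2 : χ.chi (Ideal.span {α}) ≠ 0 := by
      apply chi_ne_zero
      · rwa [Ne, Ideal.span_singleton_eq_bot]
      · exact cop_span fun v hv => (hT v hv).1
    have e3 := congrArg χ.chi hab
    rw [χ.mul, χ.mul, ← e1] at e3
    refine ⟨?_, ?_⟩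
    · rintro rfl
      rw [Ideal.mul_bot] at hab
      rcases Ideal.mul_eq_bot.1 hab with h | h
      · exact hα (Ideal.span_singleton_eq_bot.1 h)
      · exact ha0 h
    · rw [← mul_left_cancel₀ e2 e3]
      exact hat

open Classical in
/-- the twisted series has an entire continuation -/
theorem exists_cont (h3 : RayStatement) {c : Ideal (𝓞 F) → ℂ} {w : AbsoluteValue ℂ ℝ} {B : ℝ}
    {P : Set (Pr F)} {η : Pr F → ℂ} (hS : Setting c w B P η) (χ : QChar F)
    (hχ : (χ.T : Set (Pr F)) ⊆ P) :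
    ∃ Z : ℂ → ℂ, Cont (fun a => c a * (χ.chi a : ℂ)) Z := by
  obtain ⟨Z₁, ⟨d1, s1⟩, -⟩ := hS.int χ.T hχ _ (rayUnion h3 χ (t := 1) (by norm_num))
  obtain ⟨Z₂, ⟨d2, s2⟩, -⟩ := hS.int χ.T hχ _ (rayUnion h3 χ (t := -1) (by norm_num))
  refine ⟨fun s => Z₁ s - Z₂ s, d1.sub d2, fun s hs => ?_⟩
  have hc := hS.conv s.re hs
  show Z₁ s - Z₂ s = _
  rw [s1 s hs, s2 s hs, ← Summable.tsum_sub]
  · refine tsum_congr fun a => ?_
    rw [← sub_mul]
    congr 1
    by_cases h0 : a = ⊥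
    · subst h0
      simp [χ.bot]
    · by_cases h1 : Cop χ.T a
      · rcases χ.val a h0 h1 with h | h
        · simp [h0, h]
        · simp [h0, h]
      · simp [χ.zero a h1]
  · exact summable_le' (c := c) (fun a => by split_ifs <;> simp) hs hc
  · exact summable_le' (c := c) (fun a => by split_ifs <;> simp) hs hc

open Classical in
/-- the coefficients of the series without the Euler factors at `T` -/
def coef (c : Ideal (𝓞 F) → ℂ) (χ : QChar F) (T : Finset (Pr F)) (a : Ideal (𝓞 F)) : ℂ :=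
  if Cop T a then c a * (χ.chi a : ℂ) else 0

theorem coef_le (c : Ideal (𝓞 F) → ℂ) (χ : QChar F) (T : Finset (Pr F)) (a : Ideal (𝓞 F)) :
    ‖coef c χ T a‖ ≤ ‖c a‖ := by
  unfold coef
  split_ifs
  · rw [norm_mul]
    exact mul_le_of_le_one_right (norm_nonneg _) (chi_abs_le χ a)
  · simp

/-- the Euler factor -/
def fac (c : Ideal (𝓞 F) → ℂ) (χ : QChar F) (η : Pr F → ℂ) (v : Pr F) (s : ℂ) : ℂ :=
  1 - c v.asIdeal * (χ.chi v.asIdeal : ℂ) * (nm v : ℂ) ^ (-s) +
    η v * (nm v : ℂ) * ((nm v : ℂ) ^ (-s)) ^ 2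

theorem fac_diff (c : Ideal (𝓞 F) → ℂ) (χ : QChar F) (η : Pr F → ℂ) (v : Pr F)
    (hv : Odd (nm v)) : Differentiable ℂ (fac c χ η v) := by
  have hN0 : (nm v : ℂ) ≠ 0 := by
    intro h
    rw [Nat.cast_eq_zero] at h
    rw [h] at hv
    exact absurd hv (by decide)
  have h1 : Differentiable ℂ (fun s : ℂ => (nm v : ℂ) ^ (-s)) := by
    intro s
    exact (differentiableAt_id.neg).const_cpow (Or.inl hN0)
  unfold fac
  exact ((differentiable_const _).sub (h1.const_mul _)).add ((h1.pow 2).const_mul _)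

open Classical in
theorem step (h1 : LserStatement) {c : Ideal (𝓞 F) → ℂ} {w : AbsoluteValue ℂ ℝ} {B : ℝ}
    {P : Set (Pr F)} {η : Pr F → ℂ} (hS : Setting c w B P η) (χ : QChar F)
    (T : Finset (Pr F)) (hT : χ.T ⊆ T) (v : Pr F) (hv : v ∈ P) (hvT : v ∉ T)
    {Y : ℂ → ℂ} (hY : Cont (coef c χ T) Y) :
    Cont (coef c χ (insert v T)) (fun s => fac c χ η v s * Y s) := by
  refine ⟨(fac_diff c χ η v (hS.odd v hv)).mul hY.1, fun s hs => ?_⟩
  have hvχ : v ∉ χ.T := fun h => hvT (hT h)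
  have hchi : (χ.chi v.asIdeal : ℂ) ^ 2 = 1 := by
    rcases χ.val v.asIdeal v.ne_bot (cop_prime hvχ) with h | h <;> rw [h] <;> norm_num
  have hcv : Cop T v.asIdeal := cop_prime hvT
  have e0 : coef c χ T v.asIdeal = c v.asIdeal * (χ.chi v.asIdeal : ℂ) := by
    unfold coef
    rw [if_pos hcv]
  have key := h1 F (coef c χ T) v (η v) s hs
    (summable_le (coef_le c χ T) (hS.conv s.re hs))
    (by
      intro a ha
      by_cases h : Cop T a
      · rw [e0]
        unfold coef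
        rw [if_pos (cop_mul.2 ⟨hcv, h⟩), if_pos h, hS.hecke v hv a ha, χ.mul]
        push_cast
        ring
      · unfold coef
        rw [if_neg (fun h2 => h (cop_mul.1 h2).2), if_neg h, mul_zero])
    (by
      intro a
      by_cases h : Cop T a
      · rw [e0]
        unfold coef
        rw [if_pos (cop_mul.2 ⟨hcv, cop_mul.2 ⟨hcv, h⟩⟩), if_pos (cop_mul.2 ⟨hcv, h⟩), if_pos h,
          hS.hecke' v hv a, χ.mul, χ.mul]
        push_cast
        linear_combination (-(η v) * (nm v : ℂ) * c a * (χ.chi a : ℂ)) * hchi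
      · unfold coef
        rw [if_neg (fun h2 => h (cop_mul.1 (cop_mul.1 h2).2).2),
          if_neg (fun h2 => h (cop_mul.1 h2).2), if_neg h, mul_zero, mul_zero, sub_zero])
  show fac c χ η v s * Y s = _
  rw [hY.2 s hs]
  have e1 : fac c χ η v s = 1 - coef c χ T v.asIdeal * (nm v : ℂ) ^ (-s) +
      η v * (nm v : ℂ) * ((nm v : ℂ) ^ (-s)) ^ 2 := by
    rw [e0]
    rfl
  rw [e1, ← key]
  refine tsum_congr fun a => ?_
  congr 1
  unfold coef
  by_cases h : a ≤ v.asIdeal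
  · rw [if_pos h, if_neg]
    exact fun h2 => (cop_insert.1 h2).1 h
  · rw [if_neg h]
    by_cases h2 : Cop T a
    · rw [if_pos h2, if_pos (cop_insert.2 ⟨h, h2⟩)]
    · rw [if_neg h2, if_neg (fun h3 => h2 (cop_insert.1 h3).2)]

open Classical in
theorem exists_removed (h1 : LserStatement) {c : Ideal (𝓞 F) → ℂ} {w : AbsoluteValue ℂ ℝ} {B : ℝ}
    {P : Set (Pr F)} {η : Pr F → ℂ} (hS : Setting c w B P η) (χ : QChar F)
    {Z : ℂ → ℂ} (hZ : Cont (fun a => c a * (χ.chi a : ℂ)) Z) (U : Finset (Pr F))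
    (hU : (U : Set (Pr F)) ⊆ P) :
    ∃ Y : ℂ → ℂ, Cont (coef c χ (χ.T ∪ U)) Y ∧ w (Y 1) = w (Z 1) := by
  induction U using Finset.induction_on with
  | empty =>
    refine ⟨Z, ⟨hZ.1, fun s hs => ?_⟩, rfl⟩
    rw [hZ.2 s hs]
    refine tsum_congr fun a => ?_
    congr 1
    unfold coef
    rw [Finset.union_empty]
    split_ifs with h
    · rfl
    · show c a * (χ.chi a : ℂ) = 0
      rw [χ.zero a h]
      simp
  | insert v U hv ih =>
    obtain ⟨Y, hY, hw⟩ := ih (fun x hx => hU (by simp only [Finset.coe_insert]; exact Or.inr hx))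
    have hvP : v ∈ P := hU (by simp)
    by_cases hvT : v ∈ χ.T ∪ U
    · have e : χ.T ∪ insert v U = χ.T ∪ U := by
        rw [Finset.union_insert, Finset.insert_eq_of_mem hvT]
      rw [e]
      exact ⟨Y, hY, hw⟩
    · refine ⟨fun s => fac c χ η v s * Y s, ?_, ?_⟩
      · rw [Finset.union_insert]
        exact step h1 hS χ _ Finset.subset_union_left v hvP hvT hY
      · have hvχ : v ∉ χ.T := fun h => hvT (Finset.mem_union_left _ h)
        show w (fac c χ η v 1 * Y 1) = w (Z 1)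
        rw [map_mul, hw]
        have := w_factor hS.na hS.two (hS.odd v hvP) (hS.unit v hvP) (hS.good v hvP)
          (χ.val v.asIdeal v.ne_bot (cop_prime hvχ))
        unfold fac
        rw [this, one_mul]

end Lmain

open Lmain in
theorem lmain (h1 : LserStatement) (h2 : UniqStatement) (h3 : RayStatement) : LmainStatement := by
  classical
  intro F _ _ c w B P η hS χ hχ T hT hTP
  obtain ⟨Z, hZ⟩ := exists_cont h3 hS χ hχ
  refine ⟨Z, hZ, fun D hD => ?_⟩
  obtain ⟨Y, hY, hw⟩ := exists_removed h1 hS χ hZ T hTP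
  have e : χ.T ∪ T = T := Finset.union_eq_right.2 hT
  rw [e] at hY
  have h4 : D = Y := by
    refine h2 D Y hD.1 hY.1 fun s hs => ?_
    rw [hD.2 s hs, hY.2 s hs]
    refine tsum_congr fun a => ?_
    congr 1
  rw [h4, hw]

end

end Pool.Agent.Lib.MP_50bb2e_nt.PP
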