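import Pool.Agent.Lib.MP_50bb2e_nt.PP.Defs

/-!
MP_50bb2e_nt, board PP: statements of the modules and the main statement.
-/

open IsDedekindDomain NumberField Filter Topology

namespace Pool.Agent.Lib.MP_50bb2e_nt.PP

open Classical in
/-- THE MAIN THEOREM (simultaneous non-vanishing for the forms `c i`, `i : ι`). -/
def MainStatement : Prop :=
  ∀ (F : Type) [Field F] [NumberField F] (ι : Type) [Fintype ι] [Nonempty ι]
    (c : ι → Ideal (𝓞 F) → ℂ) (w : AbsoluteValue ℂ ℝ) (B : ι → ℝ)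
    (P : Set (Pr F)) (η : ι → Pr F → ℂ) (j : ℕ) (L : ι → ℂ → ℂ),
    (∀ i, Setting (c i) w (B i) P (η i)) → (∀ i, Cont (c i) (L i)) →
    (w 2) ^ (j + 1) * ∏ i, B i < ∏ i, w (L i 1) →
    -- finite groups of characters
    (∀ V : Finset (QChar F), V.Nonempty → (∀ χ ∈ V, (χ.T : Set (Pr F)) ⊆ P) →
      Closed (V : Set (QChar F)) →
      V.card ≤ 2 ^ j * (V.filter (fun χ => ∀ i, NonVan (c i) χ)).card) ∧
    -- Dirichlet density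
    (∀ S : Set (Pr F), ∀ σ : ℝ, 0 ≤ σ →
      ∑' χ : Fam P S, ENNReal.ofReal ((χ.1.cond : ℝ) ^ (-σ)) ≤
        2 ^ j * ∑' χ : {χ : QChar F // χ ∈ Fam P S ∧ ∀ i, NonVan (c i) χ},
          ENNReal.ofReal ((χ.1.cond : ℝ) ^ (-σ))) ∧
    -- natural upper density
    (∀ S : Set (Pr F), S.Finite →
      ∑' v : P, ENNReal.ofReal ((nm v.1 : ℝ) ^ (-1 : ℝ)) = ⊤ →
      ∑' χ : {χ : QChar F // χ ∈ Fam P S ∧ ∀ i, NonVan (c i) χ},
          ENNReal.ofReal ((χ.1.cond : ℝ) ^ (-1 : ℝ)) = ⊤ ∧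
      (∀ X : ℕ, {χ : QChar F | χ ∈ Fam P S ∧ χ.cond ≤ X}.Finite) ∧
      ∀ t : ℝ, t < 1 / 2 ^ j → ∃ᶠ X : ℕ in atTop,
        t * Set.ncard {χ : QChar F | χ ∈ Fam P S ∧ χ.cond ≤ X} <
          Set.ncard {χ : QChar F | χ ∈ Fam P S ∧ (∀ i, NonVan (c i) χ) ∧ χ.cond ≤ X}) ∧
    -- lower bound for every `Z` (characters of prime conductor)
    (∀ S : Set (Pr F), ∀ Z : ℕ,
      (Set.ncard {v : Pr F | nm v ≤ Z ∧ ∃ χ ∈ Fam P S, χ.T = {v}} / 2 ^ (j + 1)) ^ (2 ^ j) ≤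
        2 ^ (j + 1) * Set.ncard {χ : QChar F | χ ∈ Fam P S ∧ (∀ i, NonVan (c i) χ) ∧
          χ.cond ≤ Z ^ (2 ^ j)})

/-! ### Modules -/

open Classical in
/-- row RM (Reed-Muller over the powers of two) -/
def RMStatement : Prop :=
  ∀ (G : Type) [Fintype G] (w : AbsoluteValue ℂ ℝ), (∀ x y : ℂ, w (x + y) ≤ max (w x) (w y)) →
    w 2 < 1 → ∀ (B : ℝ) (j : ℕ) (θ : G → ℂ), (∀ g, w (θ g) ≤ B) → ∀ V : Finset (G → ℤ),
    (∀ x ∈ V, ∀ g, x g = 1 ∨ x g = -1) → (∀ x ∈ V, ∀ y ∈ V, x * y ∈ V) →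
    (∃ x ∈ V, (w 2) ^ (j + 1) * B < w (∑ g, θ g * (x g : ℂ))) →
    V.card ≤ 2 ^ j * (V.filter (fun x => (w 2) ^ (j + 1) * B < w (∑ g, θ g * (x g : ℂ)))).card

/-- row CRT -/
def CrtStatement : Prop :=
  ∀ (F : Type) [Field F] [NumberField F] (T : Finset (Pr F)) (x : Pr F → 𝓞 F),
    ∃ β : 𝓞 F, β ≠ 0 ∧ ∀ v ∈ T, β - x v ∈ v.asIdeal

/-- row APPR: an ideal coprime to `T` divides a principal ideal `(γ)`, `γ ≡ 1` mod `T`, with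
complement coprime to `T'`. (CRT modulo prime powers; `T'` may overlap `T`.) -/
def ApprStatement : Prop :=
  ∀ (F : Type) [Field F] [NumberField F] (a : Ideal (𝓞 F)) (T T' : Finset (Pr F)), a ≠ ⊥ →
    Cop T a → ∃ (γ : 𝓞 F) (b : Ideal (𝓞 F)), γ ≠ 0 ∧ Ideal.span {γ} = a * b ∧
      (∀ v ∈ T, γ - 1 ∈ v.asIdeal) ∧ Cop T' b

/-- row RAY -/
def RayStatement : Prop :=
  ∀ (F : Type) [Field F] [NumberField F] (χ : QChar F) (α β : 𝓞 F), α ≠ 0 → β ≠ 0 →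
    (∀ v ∈ χ.T, α ∉ v.asIdeal ∧ α - β ∈ v.asIdeal) →
    χ.chi (Ideal.span {α}) = χ.chi (Ideal.span {β})

/-- row INJ: a primitive character is determined by its values on the ideals coprime to `T` -/
def InjStatement : Prop :=
  ∀ (F : Type) [Field F] [NumberField F] (χ ψ : QChar F) (T : Finset (Pr F)),
    (∀ a : Ideal (𝓞 F), a ≠ ⊥ → Cop T a → χ.chi a ≠ 0 → ψ.chi a ≠ 0 → χ.chi a = ψ.chi a) →
    χ = ψ

/-- row PRIM: the product of two characters is induced by a primitive character -/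
def PrimStatement : Prop :=
  ∀ (F : Type) [Field F] [NumberField F] (χ ψ : QChar F), ∃ ρ : QChar F,
    (∀ v ∈ ρ.T, v ∈ χ.T ∨ v ∈ ψ.T) ∧
    ∀ a, χ.chi a ≠ 0 → ψ.chi a ≠ 0 → ρ.chi a = χ.chi a * ψ.chi a

/-- row LOC: the local component at a ramified prime is the quadratic residue symbol -/
def LocStatement : Prop :=
  ∀ (F : Type) [Field F] [NumberField F] (χ : QChar F) (v : Pr F) (α : 𝓞 F), v ∈ χ.T →
    α ∉ v.asIdeal → (∀ u ∈ χ.T, u ≠ v → α - 1 ∈ u.asIdeal) →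
    (χ.chi (Ideal.span {α}) = 1 ↔ ∃ β : 𝓞 F, α - β ^ 2 ∈ v.asIdeal)

/-- row FIN: bounded number of characters with given conductor -/
def FinStatement : Prop :=
  ∀ (F : Type) [Field F] [NumberField F], ∃ C : ℕ, ∀ T : Finset (Pr F),
    {χ : QChar F | χ.T = T}.Finite ∧ {χ : QChar F | χ.T = T}.ncard ≤ C

/-- row SUMM -/
def SummStatement : Prop :=
  ∀ (F : Type) [Field F] [NumberField F],
    (∀ X : ℕ, {χ : QChar F | χ.cond ≤ X}.Finite) ∧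
    ∀ σ : ℝ, 1 < σ → ∑' χ : QChar F, ENNReal.ofReal ((χ.cond : ℝ) ^ (-σ)) ≠ ⊤

open Classical in
/-- row LSER: removing one Euler factor -/
def LserStatement : Prop :=
  ∀ (F : Type) [Field F] [NumberField F] (e : Ideal (𝓞 F) → ℂ) (v : Pr F) (η : ℂ) (s : ℂ),
    3 / 2 < s.re →
    Summable (fun a : Ideal (𝓞 F) => ‖e a‖ * (Ideal.absNorm a : ℝ) ^ (-s.re)) →
    (∀ a : Ideal (𝓞 F), ¬ a ≤ v.asIdeal → e (v.asIdeal * a) = e v.asIdeal * e a) →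
    (∀ a : Ideal (𝓞 F), e (v.asIdeal * (v.asIdeal * a)) =
      e v.asIdeal * e (v.asIdeal * a) - η * (nm v : ℂ) * e a) →
    ∑' a : Ideal (𝓞 F), (if a ≤ v.asIdeal then 0 else e a) * (Ideal.absNorm a : ℂ) ^ (-s) =
      (1 - e v.asIdeal * (nm v : ℂ) ^ (-s) + η * (nm v : ℂ) * ((nm v : ℂ) ^ (-s)) ^ 2) *
        ∑' a : Ideal (𝓞 F), e a * (Ideal.absNorm a : ℂ) ^ (-s)

/-- row UNIQ: the entire continuation is unique (identity theorem) -/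
def UniqStatement : Prop :=
  ∀ (Z Z' : ℂ → ℂ), Differentiable ℂ Z → Differentiable ℂ Z' →
    (∀ s : ℂ, 3 / 2 < s.re → Z s = Z' s) → Z = Z'

open Classical in
/-- row LMAIN -/
def LmainStatement : Prop :=
  ∀ (F : Type) [Field F] [NumberField F] (c : Ideal (𝓞 F) → ℂ) (w : AbsoluteValue ℂ ℝ) (B : ℝ)
    (P : Set (Pr F)) (η : Pr F → ℂ), Setting c w B P η → ∀ χ : QChar F,
    (χ.T : Set (Pr F)) ⊆ P → ∀ T : Finset (Pr F), χ.T ⊆ T → (T : Set (Pr F)) ⊆ P →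
    ∃ Z : ℂ → ℂ, Cont (fun a => c a * (χ.chi a : ℂ)) Z ∧
      ∀ D : ℂ → ℂ, Cont (fun a => if Cop T a then c a * (χ.chi a : ℂ) else 0) D →
        w (D 1) = w (Z 1)

open Classical in
/-- row MAINA: part one of the main statement -/
def MainAStatement : Prop :=
  ∀ (F : Type) [Field F] [NumberField F] (ι : Type) [Fintype ι] [Nonempty ι]
    (c : ι → Ideal (𝓞 F) → ℂ) (w : AbsoluteValue ℂ ℝ) (B : ι → ℝ)
    (P : Set (Pr F)) (η : ι → Pr F → ℂ) (j : ℕ) (L : ι → ℂ → ℂ),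
    (∀ i, Setting (c i) w (B i) P (η i)) → (∀ i, Cont (c i) (L i)) →
    (w 2) ^ (j + 1) * ∏ i, B i < ∏ i, w (L i 1) →
    ∀ V : Finset (QChar F), V.Nonempty → (∀ χ ∈ V, (χ.T : Set (Pr F)) ⊆ P) →
      Closed (V : Set (QChar F)) →
      V.card ≤ 2 ^ j * (V.filter (fun χ => ∀ i, NonVan (c i) χ)).card

open Classical in
/-- row MIX: from subsets to weights in `[0, 1]` (mixture of indicator functions) -/
def MixStatement : Prop :=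
  ∀ (κ ι : Type) (Y : Finset κ) (T : κ → Finset ι) (Q : κ → Prop) (C : ℕ) (A : Finset ι)
    (x : ι → ℝ), (∀ i ∈ A, 0 ≤ x i ∧ x i ≤ 1) →
    (∀ R ⊆ A, (Y.filter (fun y => T y ⊆ R)).card ≤
      C * (Y.filter (fun y => T y ⊆ R ∧ Q y)).card) →
    ∑ y ∈ Y.filter (fun y => T y ⊆ A), ∏ i ∈ T y, x i ≤
      C * ∑ y ∈ Y.filter (fun y => T y ⊆ A ∧ Q y), ∏ i ∈ T y, x i

/-- row ABEL: from Dirichlet density to natural upper density -/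
def AbelStatement : Prop :=
  ∀ (κ : Type) (N : κ → ℕ) (Q : κ → Prop) (C : ℝ), 0 < C → (∀ k, 1 ≤ N k) →
    (∀ X : ℕ, {k | N k ≤ X}.Finite) →
    (∀ σ : ℝ, 1 < σ → ∑' k, ENNReal.ofReal ((N k : ℝ) ^ (-σ)) ≠ ⊤) →
    (∀ σ : ℝ, 1 < σ → ∑' k, ENNReal.ofReal ((N k : ℝ) ^ (-σ)) ≤
      ENNReal.ofReal C * ∑' k : {k // Q k}, ENNReal.ofReal ((N k.1 : ℝ) ^ (-σ))) →
    ∑' k, ENNReal.ofReal ((N k : ℝ) ^ (-1 : ℝ)) = ⊤ →
    ∀ t : ℝ, t < 1 / C → ∃ᶠ X : ℕ in atTop,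
      t * Set.ncard {k | N k ≤ X} < Set.ncard {k | N k ≤ X ∧ Q k}

/-- row SEL: the `S`-Selmer group is finite -/
def SelStatement : Prop :=
  ∀ (F : Type) [Field F] [NumberField F] (S : Finset (Pr F)), ∃ A : Finset (𝓞 F),
    (∀ α ∈ A, α ≠ 0) ∧ ∀ (α : 𝓞 F) (b : Ideal (𝓞 F)) (E : Finset (Pr F)), α ≠ 0 → E ⊆ S →
      Ideal.span {α} = b ^ 2 * ∏ v ∈ E, v.asIdeal →
      ∃ α' ∈ A, ∃ β γ : 𝓞 F, β ≠ 0 ∧ γ ≠ 0 ∧ α * β ^ 2 = α' * γ ^ 2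

open Classical in
/-- quadratic residue symbol (for `α` prime to `v`) -/
noncomputable def qs {F : Type} [Field F] [NumberField F] (v : Pr F) (α : 𝓞 F) : ℤ :=
  if ∃ β : 𝓞 F, α - β ^ 2 ∈ v.asIdeal then 1 else -1

/-- row QS -/
def QsStatement : Prop :=
  ∀ (F : Type) [Field F] [NumberField F] (v : Pr F),
    (∀ α β : 𝓞 F, α ∉ v.asIdeal → β ∉ v.asIdeal → qs v (α * β) = qs v α * qs v β) ∧
    (∀ α β : 𝓞 F, α - β ∈ v.asIdeal → qs v α = qs v β) ∧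
    (Odd (nm v) → ∃ α : 𝓞 F, α ∉ v.asIdeal ∧ qs v α = -1) ∧
    (∀ α α' β γ : 𝓞 F, α ∉ v.asIdeal → α' ∉ v.asIdeal → β ≠ 0 → γ ≠ 0 →
      α * β ^ 2 = α' * γ ^ 2 → qs v α = qs v α')

/-- row EXT: existence of characters with given conductor (linear algebra over `F_2`) -/
def ExtStatement : Prop :=
  ∀ (F : Type) [Field F] [NumberField F] (S T : Finset (Pr F)), Disjoint S T →
    (∀ v ∈ T, Odd (nm v)) →
    (∀ (α : 𝓞 F) (b : Ideal (𝓞 F)) (E : Finset (Pr F)), α ≠ 0 → E ⊆ S →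
      Ideal.span {α} = b ^ 2 * ∏ v ∈ E, v.asIdeal → Cop T (Ideal.span {α}) →
      ∏ v ∈ T, qs v α = 1) →
    ∃ χ : QChar F, χ.T = T ∧ ∀ s ∈ S, χ.chi s.asIdeal = 1

/-- row DIV -/
def DivStatement : Prop :=
  ∀ (F : Type) [Field F] [NumberField F] (P : Set (Pr F)) (S : Finset (Pr F)),
    (∀ v ∈ P, Odd (nm v)) →
    ∑' v : P, ENNReal.ofReal ((nm v.1 : ℝ) ^ (-1 : ℝ)) = ⊤ →
    ∑' χ : Fam P (S : Set (Pr F)), ENNReal.ofReal ((χ.1.cond : ℝ) ^ (-1 : ℝ)) = ⊤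

end Pool.Agent.Lib.MP_50bb2e_nt.PP
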