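import Pool.Agent.Lib.MP_50bb2e_nt.PP.Iface

/-!
MP_50bb2e_nt, board PP, row CRT: Chinese remainder theorem with a non-zero solution.
-/

open IsDedekindDomain NumberField

namespace Pool.Agent.Lib.MP_50bb2e_nt.PP

theorem crt : CrtStatement := by
  intro F _ _ T x
  classical
  obtain ⟨y, hy⟩ := IsDedekindDomain.exists_forall_sub_mem_ideal (s := T)
    (fun v : Pr F => v.asIdeal) (fun _ => 1) (fun v _ => v.prime)
    (fun v _ u _ h e => h (HeightOneSpectrum.ext e)) (fun v => x v.1)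
  have hy' : ∀ v ∈ T, y - x v ∈ v.asIdeal := by
    intro v hv
    have h := hy v hv
    rwa [pow_one] at h
  by_cases h0 : y = 0
  · have hne : (∏ v ∈ T, v.asIdeal) ≠ ⊥ := by
      intro h
      have h' : (∏ v ∈ T, v.asIdeal) = 0 := h
      obtain ⟨v, _, hv⟩ := Finset.prod_eq_zero_iff.mp h'
      exact v.ne_bot hv
    obtain ⟨z, hz, hz0⟩ := Submodule.exists_mem_ne_zero_of_ne_bot hne
    refine ⟨z, hz0, fun v hv => ?_⟩
    have h1 : z ∈ v.asIdeal := by
      have hd : v.asIdeal ∣ ∏ v ∈ T, v.asIdeal := Finset.dvd_prod_of_mem _ hv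
      exact Ideal.le_of_dvd hd hz
    have h2 : y - x v ∈ v.asIdeal := hy' v hv
    rw [h0] at h2
    have h3 := Ideal.add_mem _ h1 h2
    have e : z + (0 - x v) = z - x v := by ring
    rwa [e] at h3
  · exact ⟨y, h0, hy'⟩

end Pool.Agent.Lib.MP_50bb2e_nt.PP
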