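import Pool.Agent.Lib.MP_50bb2e_nt.PP.Iface

/-!
MP_50bb2e_nt, board PP, row LSER: removing one Euler factor.
-/

open IsDedekindDomain NumberField Filter Topology

namespace Pool.Agent.Lib.MP_50bb2e_nt.PP

namespace Lser

variable {F : Type} [Field F] [NumberField F]

theorem mul_inj (v : Pr F) : Function.Injective (fun b : Ideal (𝓞 F) => v.asIdeal * b) := by
  intro a b h
  exact mul_left_cancel₀ v.ne_bot h

theorem le_iff (v : Pr F) (a : Ideal (𝓞 F)) : a ≤ v.asIdeal ↔ ∃ b, v.asIdeal * b = a := by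
  rw [← Ideal.dvd_iff_le]
  constructor
  · rintro ⟨b, hb⟩
    exact ⟨b, hb.symm⟩
  · rintro ⟨b, hb⟩
    exact ⟨b, hb.symm⟩

theorem norm_term (e : Ideal (𝓞 F) → ℂ) (s : ℂ) (hs : 3 / 2 < s.re) (a : Ideal (𝓞 F)) :
    ‖e a * (Ideal.absNorm a : ℂ) ^ (-s)‖ = ‖e a‖ * (Ideal.absNorm a : ℝ) ^ (-s.re) := by
  rw [norm_mul]
  congr 1
  rcases Nat.eq_zero_or_pos (Ideal.absNorm a) with h | h
  · rw [h]
    have h1 : (-s) ≠ 0 := by
      intro h2
      have h3 : (-s).re = 0 := by rw [h2]; simp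
      rw [Complex.neg_re] at h3
      linarith
    have h4 : -s.re ≠ 0 := by
      intro h2
      linarith
    simp [Complex.zero_cpow h1, Real.zero_rpow h4]
  · rw [Complex.norm_natCast_cpow_of_pos h, Complex.neg_re]

open Classical in
/-- Splitting off the multiples of `v`. -/
theorem split (v : Pr F) (G : Ideal (𝓞 F) → ℂ) (hG : Summable G) :
    ∑' a, G a = ∑' b, G (v.asIdeal * b) + ∑' a, (if a ≤ v.asIdeal then 0 else G a) := by
  have hn : Summable (fun a => ‖G a‖) := hG.norm
  have h1 : Summable (fun a : Ideal (𝓞 F) => if a ≤ v.asIdeal then G a else 0) := by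
    refine Summable.of_norm_bounded hn fun a => ?_
    split_ifs
    · exact le_rfl
    · rw [norm_zero]; exact norm_nonneg _
  have h2 : Summable (fun a : Ideal (𝓞 F) => if a ≤ v.asIdeal then 0 else G a) := by
    refine Summable.of_norm_bounded hn fun a => ?_
    split_ifs
    · rw [norm_zero]; exact norm_nonneg _
    · exact le_rfl
  have h3 : ∑' a, G a = ∑' a, (if a ≤ v.asIdeal then G a else 0) +
      ∑' a, (if a ≤ v.asIdeal then 0 else G a) := by
    rw [← h1.tsum_add h2]
    refine tsum_congr fun a => ?_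
    split_ifs <;> simp
  rw [h3]
  congr 1
  have h4 := (mul_inj v).tsum_eq (f := fun a : Ideal (𝓞 F) => if a ≤ v.asIdeal then G a else 0) (by
    intro a ha
    rw [Function.mem_support] at ha
    by_cases h : a ≤ v.asIdeal
    · exact (le_iff v a).1 h
    · exact absurd (if_neg h) ha)
  rw [← h4]
  refine tsum_congr fun b => ?_
  rw [if_pos ((le_iff v _).2 ⟨b, rfl⟩)]

end Lser

theorem lser : LserStatement := by
  classical
  intro F _ _ e v η s hs hsum hm hq
  set f : Ideal (𝓞 F) → ℂ := fun a => e a * (Ideal.absNorm a : ℂ) ^ (-s) with hf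
  set x : ℂ := (nm v : ℂ) ^ (-s) with hx
  have hfs : Summable f := by
    refine Summable.of_norm ?_
    refine hsum.congr fun a => ?_
    exact (Lser.norm_term e s hs a).symm
  have hcp : ∀ b : Ideal (𝓞 F), (Ideal.absNorm (v.asIdeal * b) : ℂ) ^ (-s) =
      x * (Ideal.absNorm b : ℂ) ^ (-s) := by
    intro b
    rw [map_mul, Nat.cast_mul, Complex.natCast_mul_natCast_cpow]
    rfl
  have hf1s : Summable (fun b => f (v.asIdeal * b)) := hfs.comp_injective (Lser.mul_inj v)
  have hA : ∑' a, f a = ∑' b, f (v.asIdeal * b) + ∑' a, (if a ≤ v.asIdeal then 0 else f a) :=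
    Lser.split v f hfs
  have hA1 : ∑' b, f (v.asIdeal * b) = ∑' b, f (v.asIdeal * (v.asIdeal * b)) +
      ∑' b, (if b ≤ v.asIdeal then 0 else f (v.asIdeal * b)) :=
    Lser.split v (fun b => f (v.asIdeal * b)) hf1s
  have h3 : ∑' b, (if b ≤ v.asIdeal then 0 else f (v.asIdeal * b)) =
      e v.asIdeal * x * ∑' a, (if a ≤ v.asIdeal then 0 else f a) := by
    rw [← tsum_mul_left]
    refine tsum_congr fun b => ?_
    by_cases h : b ≤ v.asIdeal
    · simp [h]
    · simp only [h, if_false, hf]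
      rw [hm b h, hcp]
      ring
  have h4 : ∑' b, f (v.asIdeal * (v.asIdeal * b)) =
      e v.asIdeal * x * ∑' b, f (v.asIdeal * b) - η * (nm v : ℂ) * x ^ 2 * ∑' a, f a := by
    rw [← tsum_mul_left, ← tsum_mul_left, ← Summable.tsum_sub (hf1s.mul_left _) (hfs.mul_left _)]
    refine tsum_congr fun b => ?_
    simp only [hf]
    rw [hq b, hcp, hcp]
    ring
  have h5 : ∑' a : Ideal (𝓞 F), (if a ≤ v.asIdeal then 0 else e a) *
      (Ideal.absNorm a : ℂ) ^ (-s) = ∑' a, (if a ≤ v.asIdeal then 0 else f a) := by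
    refine tsum_congr fun a => ?_
    split_ifs
    · rw [zero_mul]
    · rfl
  rw [h5]
  linear_combination (-1 : ℂ) * hA + e v.asIdeal * x * hA - hA1 - h3 - h4
end Pool.Agent.Lib.MP_50bb2e_nt.PP
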