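import Pool.Agent.Lib.MP_50bb2e_nt.PP.Iface

/-!
MP_50bb2e_nt, board PP, row RAY: the values of a character at principal ideals depend only on
the class of the generator modulo the conductor.
-/

open IsDedekindDomain NumberField Filter Topology

namespace Pool.Agent.Lib.MP_50bb2e_nt.PP

/-- inverses modulo a finite place -/
theorem ray_inv {F : Type} [Field F] [NumberField F] (v : Pr F) (α : 𝓞 F)
    (hα : α ∉ v.asIdeal) : ∃ x : 𝓞 F, α * x - 1 ∈ v.asIdeal := by
  have hmax : v.asIdeal.IsMaximal := v.isMaximal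
  obtain ⟨x, m, hm, hx⟩ := (Ideal.IsMaximal.exists_inv hmax hα)
  refine ⟨x, ?_⟩
  have h1 : α * x - 1 = -m := by
    linear_combination hx
  rw [h1]
  exact neg_mem hm

/-- row RAY -/
theorem ray (h : CrtStatement) : RayStatement := by
  classical
  intro F _ _ χ α β hα hβ hT
  have hex : ∀ v : Pr F, ∃ x : 𝓞 F, α ∉ v.asIdeal → α * x - 1 ∈ v.asIdeal := by
    intro v
    by_cases hv : α ∈ v.asIdeal
    · exact ⟨0, fun h' => absurd hv h'⟩
    · obtain ⟨x, hx⟩ := ray_inv v α hv
      exact ⟨x, fun _ => hx⟩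
  choose x hx using hex
  obtain ⟨γ, hγ, hγT⟩ := h F χ.T x
  have h1 : ∀ v ∈ χ.T, α * γ - 1 ∈ v.asIdeal := by
    intro v hv
    have e1 := hx v (hT v hv).1
    have e2 := v.asIdeal.mul_mem_left α (hγT v hv)
    have e3 : α * γ - 1 = α * (γ - x v) + (α * x v - 1) := by ring
    rw [e3]
    exact add_mem e2 e1
  have h2 : ∀ v ∈ χ.T, β * γ - 1 ∈ v.asIdeal := by
    intro v hv
    have e1 := h1 v hv
    have e2 := v.asIdeal.mul_mem_left γ (hT v hv).2
    have e3 : β * γ - 1 = (α * γ - 1) - γ * (α - β) := by ring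
    rw [e3]
    exact sub_mem e1 e2
  have e1 := χ.ray (α * γ) (mul_ne_zero hα hγ) h1
  have e2 := χ.ray (β * γ) (mul_ne_zero hβ hγ) h2
  rw [← Ideal.span_singleton_mul_span_singleton, χ.mul] at e1 e2
  have e3 : χ.chi (Ideal.span {γ}) ≠ 0 := by
    intro h0
    rw [h0, mul_zero] at e1
    exact zero_ne_one e1
  exact mul_right_cancel₀ e3 (e1.trans e2.symm)

end Pool.Agent.Lib.MP_50bb2e_nt.PP
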