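import Pool.Agent.Lib.MP_50bb2e_nt.PP.Rm

/-!
MP_50bb2e_nt, board PP: row MAINA, part one of the main statement.
-/

open IsDedekindDomain NumberField Filter Topology

namespace Pool.Agent.Lib.MP_50bb2e_nt.PP

variable {F : Type} [Field F] [NumberField F]

open Classical in
/-- the trivial character -/
noncomputable def trivQ (F : Type) [Field F] [NumberField F] : QChar F where
  T := ∅
  chi := fun a => if a = ⊥ then 0 else 1
  bot := by simp
  top := by
    rw [if_neg]
    exact top_ne_bot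
  mul := by
    intro a b
    by_cases ha : a = ⊥
    · simp [ha]
    by_cases hb : b = ⊥
    · simp [hb]
    rw [if_neg ha, if_neg hb, if_neg, mul_one]
    exact mul_ne_zero (M₀ := Ideal (𝓞 F)) ha hb
  val := by
    intro a ha _
    left; simp [ha]
  zero := by
    intro a ha
    exact absurd (fun v hv => absurd hv (Finset.notMem_empty v)) ha
  ray := by
    intro α hα _
    rw [if_neg]
    simpa using hα
  ram := by
    intro v hv
    exact absurd hv (Finset.notMem_empty v)

theorem term_norm (e : Ideal (𝓞 F) → ℂ) (s : ℂ) (hs : 3 / 2 < s.re) (a : Ideal (𝓞 F)) :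
    ‖e a * (Ideal.absNorm a : ℂ) ^ (-s)‖ = ‖e a‖ * (Ideal.absNorm a : ℝ) ^ (-s.re) := by
  rw [norm_mul]
  congr 1
  have hs0 : s ≠ 0 := by
    rintro rfl
    simp at hs
    linarith
  rcases Nat.eq_zero_or_pos (Ideal.absNorm a) with h | h
  · rw [h]
    have h1 : (-s.re : ℝ) ≠ 0 := by linarith
    rw [Nat.cast_zero, Nat.cast_zero, Complex.zero_cpow (neg_ne_zero.2 hs0), Real.zero_rpow h1,
      norm_zero]
  · rw [Complex.norm_natCast_cpow_of_pos h, Complex.neg_re]

theorem term_bot (z : ℂ) (s : ℂ) (hs : 3 / 2 < s.re) :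
    z * (Ideal.absNorm (⊥ : Ideal (𝓞 F)) : ℂ) ^ (-s) = 0 := by
  have hs0 : s ≠ 0 := by
    rintro rfl
    simp at hs
    linarith
  rw [Ideal.absNorm_bot, Nat.cast_zero, Complex.zero_cpow (neg_ne_zero.2 hs0), mul_zero]

theorem cont_congr {e e' : Ideal (𝓞 F) → ℂ} {Z : ℂ → ℂ} (h : Cont e Z)
    (he : ∀ a, a ≠ ⊥ → e a = e' a) : Cont e' Z := by
  refine ⟨h.1, fun s hs => ?_⟩
  rw [h.2 s hs]
  apply tsum_congr
  intro a
  by_cases ha : a = ⊥
  · subst ha
    rw [term_bot _ s hs, term_bot _ s hs]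
  · rw [he a ha]

theorem summ_of_le {c e : Ideal (𝓞 F) → ℂ}
    (hc : ∀ σ : ℝ, 3 / 2 < σ →
      Summable (fun a : Ideal (𝓞 F) => ‖c a‖ * (Ideal.absNorm a : ℝ) ^ (-σ)))
    (he : ∀ a, ‖e a‖ ≤ ‖c a‖) (s : ℂ) (hs : 3 / 2 < s.re) :
    Summable (fun a : Ideal (𝓞 F) => e a * (Ideal.absNorm a : ℂ) ^ (-s)) := by
  apply Summable.of_norm
  apply Summable.of_nonneg_of_le (fun _ => norm_nonneg _) _ (hc s.re hs)
  intro a
  rw [term_norm e s hs a]
  exact mul_le_mul_of_nonneg_right (he a) (Real.rpow_nonneg (Nat.cast_nonneg _) _)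

open Classical in
theorem mainA (hray : RayStatement) (hinj : InjStatement) (hlm : LmainStatement) :
    MainAStatement := by
  intro F _ _ ι _ _ c w B P η j L hS hL hbig V hVne hVP hVcl
  obtain ⟨i0⟩ : Nonempty ι := inferInstance
  set T : Finset (Pr F) := V.biUnion (fun χ => χ.T) with hT
  have hTV : ∀ χ ∈ V, χ.T ⊆ T := fun χ hχ => Finset.subset_biUnion_of_mem (fun χ => χ.T) hχ
  have hTP : (T : Set (Pr F)) ⊆ P := by
    intro v hv
    obtain ⟨χ, hχ, hv⟩ := Finset.mem_biUnion.1 (Finset.mem_coe.1 hv)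
    exact hVP χ hχ hv
  -- patterns
  set Gs : Set (↥V → ℤ) := {g | ∃ a : Ideal (𝓞 F), a ≠ ⊥ ∧ Cop T a ∧ ∀ χ : ↥V, g χ = χ.1.chi a}
    with hGs
  have hcopV : ∀ χ ∈ V, ∀ a : Ideal (𝓞 F), Cop T a → Cop χ.T a :=
    fun χ hχ a ha v hv => ha v (hTV χ hχ hv)
  have hGpm : ∀ g ∈ Gs, ∀ χ : ↥V, g χ = 1 ∨ g χ = -1 := by
    rintro g ⟨a, ha, haT, hg⟩ χ
    rw [hg χ]
    exact χ.1.val a ha (hcopV χ.1 χ.2 a haT)
  have hGfin : Gs.Finite := by
    apply Set.Finite.subset (Set.Finite.pi (fun _ : ↥V => (Set.toFinite ({1, -1} : Set ℤ))))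
    intro g hg
    rw [Set.mem_univ_pi]
    intro χ
    rcases hGpm g hg χ with h | h <;> simp [h]
  have hGfin' : Nonempty (Fintype ↥Gs) := ⟨hGfin.fintype⟩
  obtain ⟨hGft⟩ := hGfin'
  set E : ↥Gs → Set (Ideal (𝓞 F)) := fun g => {a | a ≠ ⊥ ∧ Cop T a ∧ ∀ χ : ↥V, g.1 χ = χ.1.chi a}
    with hE
  have hEray : ∀ g, IsRayUnion T (E g) := by
    intro g
    refine ⟨fun a ha => ⟨ha.1, ha.2.1⟩, ?_⟩
    rintro a ⟨ha, haT, hag⟩ b α β hα hβ hαβ heq
    have hαs : Ideal.span {α} ≠ ⊥ := by simpa using hα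
    have hβT : ∀ v ∈ T, β ∉ v.asIdeal := by
      intro v hv hβv
      apply (hαβ v hv).1
      have := v.asIdeal.add_mem (hαβ v hv).2 hβv
      simpa using this
    have hb : b ≠ ⊥ := by
      rintro rfl
      rw [Ideal.mul_bot] at heq
      exact mul_ne_zero (M₀ := Ideal (𝓞 F)) hαs ha heq
    have hbT : Cop T b := by
      intro v hv hbv
      have h1 : Ideal.span {α} * a ≤ v.asIdeal := by
        rw [heq]; exact Ideal.mul_le_right.trans hbv
      rcases (v.isPrime.mul_le).1 h1 with h | h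
      · exact (hαβ v hv).1 (h (Ideal.mem_span_singleton_self α))
      · exact haT v hv h
    refine ⟨hb, hbT, fun χ => ?_⟩
    rw [hag χ]
    have h1 : χ.1.chi (Ideal.span {α}) = χ.1.chi (Ideal.span {β}) :=
      hray F χ.1 α β hα hβ (fun v hv => hαβ v (hTV χ.1 χ.2 hv))
    have h2 : χ.1.chi (Ideal.span {β}) ≠ 0 := by
      have := χ.1.val (Ideal.span {β}) (by simpa using hβ) (by
        intro v hv hle
        exact hβT v (hTV χ.1 χ.2 hv) (hle (Ideal.mem_span_singleton_self β)))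
      rcases this with h | h <;> rw [h] <;> norm_num
    have h3 := congrArg χ.1.chi heq
    rw [χ.1.mul, χ.1.mul, h1] at h3
    exact mul_left_cancel₀ h2 h3
  choose Z hZc hZB using fun i g => (hS i).int T hTP (E g) (hEray g)
  -- B is nonnegative
  have hG0 : (fun χ : ↥V => χ.1.chi ⊤) ∈ Gs := by
    refine ⟨⊤, top_ne_bot, ?_, fun _ => rfl⟩
    intro v _ h
    exact v.isPrime.ne_top (top_le_iff.1 h)
  have hB : ∀ i, 0 ≤ B i := fun i => (w.nonneg _).trans (hZB i ⟨_, hG0⟩)
  have hw2 : 0 < w 2 := by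
    rw [AbsoluteValue.pos_iff]; norm_num
  have hBj : 0 ≤ (w 2) ^ (j + 1) * ∏ i, B i :=
    mul_nonneg (pow_nonneg hw2.le _) (Finset.prod_nonneg (fun i _ => hB i))
  set D : ι → ↥V → ℂ → ℂ := fun i χ s => ∑ g : ↥Gs, Z i g s * ((g.1 χ : ℤ) : ℂ) with hD
  have hDcont : ∀ i, ∀ χ : ↥V,
      Cont (fun a => if Cop T a then c i a * (χ.1.chi a : ℂ) else 0) (D i χ) := by
    intro i χ
    constructor
    · simp only [hD]
      apply Differentiable.fun_sum
      intro g _
      exact (hZc i g).1.mul_const _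
    · intro s hs
      simp only [hD]
      have h1 : ∀ g : ↥Gs, Z i g s * ((g.1 χ : ℤ) : ℂ) = ∑' a : Ideal (𝓞 F),
          ((if a ∈ E g then c i a else 0) * (Ideal.absNorm a : ℂ) ^ (-s)) *
            ((g.1 χ : ℤ) : ℂ) := by
        intro g
        have h0 := (hZc i g).2 s hs
        simp only at h0
        rw [h0, tsum_mul_right]
        congr!
      rw [Finset.sum_congr rfl (fun g _ => h1 g)]
      rw [← Summable.tsum_finsetSum]
      · apply tsum_congr
        intro a
        by_cases ha : a = ⊥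
        · subst ha
          rw [term_bot _ s hs]
          apply Finset.sum_eq_zero
          intro g _
          rw [term_bot _ s hs, zero_mul]
        by_cases haT : Cop T a
        · rw [if_pos haT]
          have hmem : (fun χ : ↥V => χ.1.chi a) ∈ Gs := ⟨a, ha, haT, fun _ => rfl⟩
          rw [Finset.sum_eq_single (⟨_, hmem⟩ : ↥Gs)]
          · rw [if_pos (show a ∈ E ⟨_, hmem⟩ from ⟨ha, haT, fun _ => rfl⟩)]
            ring
          · intro g _ hg
            rw [if_neg, zero_mul, zero_mul]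
            rintro ⟨_, _, h⟩
            apply hg
            apply Subtype.ext
            funext χ
            exact h χ
          · intro h
            exact absurd (Finset.mem_univ _) h
        · rw [if_neg haT, zero_mul]
          apply Finset.sum_eq_zero
          intro g _
          rw [if_neg, zero_mul, zero_mul]
          rintro ⟨_, h, _⟩
          exact haT h
      · intro g _
        apply Summable.mul_right
        apply summ_of_le (hS i).conv _ s hs
        intro a
        split_ifs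
        · exact le_rfl
        · simp
  -- the value at the centre
  have hval : ∀ χ : ↥V, (w 2) ^ (j + 1) * ∏ i, B i < w (∏ i, D i χ 1) →
      ∀ i, NonVan (c i) χ.1 := by
    intro χ h i
    obtain ⟨Z1, hZ1, hw⟩ := hlm F (c i) w (B i) P (η i) (hS i) χ.1 (hVP χ.1 χ.2) T
      (hTV χ.1 χ.2) hTP
    refine ⟨Z1, hZ1, ?_⟩
    intro h0
    have h1 := hw (D i χ) (hDcont i χ)
    rw [h0, map_zero] at h1
    have h2 : ∏ i, w (D i χ 1) = 0 := Finset.prod_eq_zero (Finset.mem_univ i) h1
    rw [map_prod, h2] at h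
    linarith
  -- the trivial character
  have hbase : ∃ χ : ↥V, (w 2) ^ (j + 1) * ∏ i, B i < w (∏ i, D i χ 1) := by
    obtain ⟨χ, hχ⟩ := hVne
    obtain ⟨ρ, hρ, hρχ⟩ := hVcl χ hχ χ hχ
    refine ⟨⟨ρ, hρ⟩, ?_⟩
    have hDL : ∀ i, w (D i ⟨ρ, hρ⟩ 1) = w (L i 1) := by
      intro i
      obtain ⟨Z1, hZ1, hw⟩ := hlm F (c i) w (B i) P (η i) (hS i) (trivQ F) (by simp [trivQ]) T
        (by simp [trivQ]) hTP
      have h1 : Cont (fun a => if Cop T a then c i a * ((trivQ F).chi a : ℂ) else 0)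
          (D i ⟨ρ, hρ⟩) := by
        apply cont_congr (hDcont i ⟨ρ, hρ⟩)
        intro a ha
        by_cases haT : Cop T a
        · simp only [if_pos haT]
          have h2 := χ.val a ha (hcopV χ hχ a haT)
          have h3 : χ.chi a ≠ 0 := by rcases h2 with h | h <;> rw [h] <;> norm_num
          have h4 := hρχ a h3 h3
          have h5 : ρ.chi a = 1 := by rw [h4]; rcases h2 with h | h <;> rw [h] <;> norm_num
          rw [h5]
          simp [trivQ, ha]
        · simp only [if_neg haT]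
      rw [hw _ h1]
      have h6 : Cont (fun a => c i a * ((trivQ F).chi a : ℂ)) (L i) := by
        apply cont_congr (hL i)
        intro a ha
        simp [trivQ, ha]
      have h7 : L i = Z1 := uniq (L i) Z1 h6.1 hZ1.1 (fun s hs => by rw [h6.2 s hs, hZ1.2 s hs])
      rw [← h7]
    rw [map_prod, Finset.prod_congr rfl (fun i _ => hDL i)]
    exact hbig
  -- Reed-Muller
  set θ : (ι → ↥Gs) → ℂ := fun g => ∏ i, Z i (g i) 1 with hθ
  have hθB : ∀ g, w (θ g) ≤ ∏ i, B i := by
    intro g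
    simp only [hθ, map_prod]
    exact Finset.prod_le_prod (fun i _ => w.nonneg _) (fun i _ => hZB i (g i))
  set ev : ↥V → ((ι → ↥Gs) → ℤ) := fun χ g => ∏ i, (g i).1 χ with hev
  have htopv : ∀ χ : ↥V, χ.1.chi ⊤ = 1 := fun χ => χ.1.top
  have hevinj : Function.Injective ev := by
    intro χ ψ h
    apply Subtype.ext
    apply hinj F χ.1 ψ.1 T
    intro a ha haT _ _
    have hmem : (fun χ : ↥V => χ.1.chi a) ∈ Gs := ⟨a, ha, haT, fun _ => rfl⟩
    set g : ι → ↥Gs := fun i => if i = i0 then ⟨_, hmem⟩ else ⟨_, hG0⟩ with hg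
    have hev1 : ∀ χ : ↥V, ev χ g = χ.1.chi a := by
      intro χ
      simp only [hev, hg]
      rw [Finset.prod_eq_single i0]
      · rw [if_pos rfl]
      · intro i _ hi
        rw [if_neg hi]
        exact htopv χ
      · intro h
        exact absurd (Finset.mem_univ _) h
    rw [← hev1 χ, ← hev1 ψ, h]
  set V' : Finset ((ι → ↥Gs) → ℤ) := Finset.univ.image ev with hV'
  have hcardV' : V'.card = V.card := by
    rw [hV', Finset.card_image_of_injective _ hevinj, Finset.card_univ, Fintype.card_coe]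
  have hF : ∀ χ : ↥V, ∑ g, θ g * ((ev χ g : ℤ) : ℂ) = ∏ i, D i χ 1 := by
    intro χ
    simp only [hD, hθ, hev]
    rw [Finset.prod_univ_sum, Fintype.piFinset_univ]
    apply Finset.sum_congr rfl
    intro g _
    rw [Int.cast_prod, ← Finset.prod_mul_distrib]
  have key := rm (ι → ↥Gs) w (hS i0).na (hS i0).two (∏ i, B i) j θ hθB V' (by
      intro x hx g
      obtain ⟨χ, _, rfl⟩ := Finset.mem_image.1 hx
      simp only [hev]
      induction (Finset.univ : Finset ι) using Finset.induction_on with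
      | empty => simp
      | insert i s hi ih =>
        rw [Finset.prod_insert hi]
        rcases hGpm (g i).1 (g i).2 χ with h | h <;> rcases ih with h' | h' <;>
          simp [h, h']) (by
      intro x hx y hy
      obtain ⟨χ, _, rfl⟩ := Finset.mem_image.1 hx
      obtain ⟨ψ, _, rfl⟩ := Finset.mem_image.1 hy
      obtain ⟨ρ, hρ, hρe⟩ := hVcl χ.1 χ.2 ψ.1 ψ.2
      apply Finset.mem_image.2
      refine ⟨⟨ρ, hρ⟩, Finset.mem_univ _, ?_⟩
      funext g
      simp only [hev, Pi.mul_apply]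
      rw [← Finset.prod_mul_distrib]
      apply Finset.prod_congr rfl
      intro i _
      obtain ⟨a, ha, haT, hg⟩ := (g i).2
      have nz : ∀ χ : ↥V, χ.1.chi a ≠ 0 := by
        intro χ
        rcases χ.1.val a ha (hcopV χ.1 χ.2 a haT) with h | h <;> rw [h] <;> norm_num
      rw [hg, hg, hg]
      exact hρe a (nz χ) (nz ψ)) (by
      obtain ⟨χ, hχ⟩ := hbase
      exact ⟨ev χ, Finset.mem_image.2 ⟨χ, Finset.mem_univ _, rfl⟩, by rw [hF]; exact hχ⟩)
  rw [hcardV'] at key
  refine key.trans (Nat.mul_le_mul_left _ ?_)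
  have h8 : (V'.filter (fun x => (w 2) ^ (j + 1) * (∏ i, B i) < w (∑ g, θ g * (x g : ℂ)))) ⊆
      (Finset.univ.filter (fun χ : ↥V => ∀ i, NonVan (c i) χ.1)).image ev := by
    intro x hx
    rw [Finset.mem_filter] at hx
    obtain ⟨χ, _, rfl⟩ := Finset.mem_image.1 hx.1
    apply Finset.mem_image.2
    refine ⟨χ, Finset.mem_filter.2 ⟨Finset.mem_univ _, hval χ ?_⟩, rfl⟩
    rw [← hF]
    exact hx.2
  refine (Finset.card_le_card h8).trans (Finset.card_image_le.trans ?_)
  apply Finset.card_le_card_of_injOn (fun χ : ↥V => χ.1)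
  · intro χ hχ
    have := Finset.mem_filter.1 (Finset.mem_coe.1 hχ)
    exact Finset.mem_coe.2 (Finset.mem_filter.2 ⟨χ.2, this.2⟩)
  · intro a _ b _ h
    exact Subtype.ext h

end Pool.Agent.Lib.MP_50bb2e_nt.PP
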