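import Pool.Agent.Lib.MP_50bb2e_nt.PP.Simplex

/-!
MP_50bb2e_nt, board PP: row MAIN, assembly.
-/

open IsDedekindDomain NumberField Filter Topology

namespace Pool.Agent.Lib.MP_50bb2e_nt.PP

section

variable {F : Type} [Field F] [NumberField F]

theorem nm_pos (v : Pr F) : 1 ≤ nm v := by
  unfold nm
  rw [Nat.one_le_iff_ne_zero, Ne, Ideal.absNorm_eq_zero_iff]
  exact v.ne_bot

theorem cond_pos (χ : QChar F) : 1 ≤ χ.cond := by
  unfold QChar.cond
  exact Nat.one_le_iff_ne_zero.2 (Finset.prod_ne_zero_iff.2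
    (fun v _ => Nat.one_le_iff_ne_zero.1 (nm_pos v)))

theorem cond_rpow (χ : QChar F) (σ : ℝ) :
    (χ.cond : ℝ) ^ (-σ) = ∏ v ∈ χ.T, (nm v : ℝ) ^ (-σ) := by
  unfold QChar.cond
  rw [Nat.cast_prod, Real.finsetProd_rpow]
  intro v _
  exact Nat.cast_nonneg _

theorem triv_mem (P S : Set (Pr F)) : trivQ F ∈ Fam P S := by
  constructor
  · simp [trivQ]
  · intro v _
    simp [trivQ, v.ne_bot]

end

open Classical in
theorem mainB (hA : MainAStatement) (hprim : PrimStatement) (hfin : FinStatement)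
    (hmix : MixStatement) (F : Type) [Field F] [NumberField F] (ι : Type) [Fintype ι] [Nonempty ι]
    (c : ι → Ideal (𝓞 F) → ℂ) (w : AbsoluteValue ℂ ℝ) (B : ι → ℝ)
    (P : Set (Pr F)) (η : ι → Pr F → ℂ) (j : ℕ) (L : ι → ℂ → ℂ)
    (hS : ∀ i, Setting (c i) w (B i) P (η i)) (hL : ∀ i, Cont (c i) (L i))
    (hbig : (w 2) ^ (j + 1) * ∏ i, B i < ∏ i, w (L i 1))
    (S : Set (Pr F)) (σ : ℝ) (hσ : 0 ≤ σ) :
      ∑' χ : Fam P S, ENNReal.ofReal ((χ.1.cond : ℝ) ^ (-σ)) ≤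
        2 ^ j * ∑' χ : {χ : QChar F // χ ∈ Fam P S ∧ ∀ i, NonVan (c i) χ},
          ENNReal.ofReal ((χ.1.cond : ℝ) ^ (-σ)) := by
  obtain ⟨C, hC⟩ := hfin F
  rw [ENNReal.tsum_eq_iSup_sum]
  apply iSup_le
  intro s
  set A : Finset (Pr F) := s.biUnion (fun χ => χ.1.T) with hAdef
  have hYfin : {χ : QChar F | χ ∈ Fam P S ∧ χ.T ⊆ A}.Finite := by
    apply Set.Finite.subset
      (Set.Finite.biUnion A.powerset.finite_toSet (fun T _ => (hC T).1))
    rintro χ ⟨_, hχ⟩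
    simp only [Set.mem_iUnion]
    exact ⟨χ.T, Finset.mem_coe.2 (Finset.mem_powerset.2 hχ), rfl⟩
  set Y : Finset (QChar F) := hYfin.toFinset with hY
  have hmemY : ∀ χ, χ ∈ Y ↔ χ ∈ Fam P S ∧ χ.T ⊆ A := by
    intro χ
    rw [hY, Set.Finite.mem_toFinset]; rfl
  have key := hmix (QChar F) (Pr F) Y (fun χ => χ.T) (fun χ => ∀ i, NonVan (c i) χ) (2 ^ j) A
    (fun v => (nm v : ℝ) ^ (-σ)) (by
      intro v _
      refine ⟨Real.rpow_nonneg (Nat.cast_nonneg _) _, ?_⟩
      exact Real.rpow_le_one_of_one_le_of_nonpos (by exact_mod_cast nm_pos v) (by linarith)) (by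
      intro R hR
      have h1 := hA F ι c w B P η j L hS hL hbig (Y.filter (fun χ => χ.T ⊆ R))
        ⟨trivQ F, by
          rw [Finset.mem_filter, hmemY]
          exact ⟨⟨triv_mem P S, by simp [trivQ]⟩, by simp [trivQ]⟩⟩ (by
          intro χ hχ
          rw [Finset.mem_filter, hmemY] at hχ
          exact hχ.1.1.1) (by
          intro χ hχ ψ hψ
          rw [Finset.mem_coe, Finset.mem_filter, hmemY] at hχ hψ
          obtain ⟨ρ, hρT, hρ⟩ := hprim F χ ψ
          have hρR : ρ.T ⊆ R := by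
            intro v hv
            rcases hρT v hv with h | h
            · exact hχ.2 h
            · exact hψ.2 h
          refine ⟨ρ, ?_, hρ⟩
          rw [Finset.mem_coe, Finset.mem_filter, hmemY]
          refine ⟨⟨⟨?_, ?_⟩, hρR.trans hR⟩, hρR⟩
          · intro v hv
            rcases hρT v hv with h | h
            · exact hχ.1.1.1 h
            · exact hψ.1.1.1 h
          · intro v hv
            have e1 := hχ.1.1.2 v hv
            have e2 := hψ.1.1.2 v hv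
            rw [hρ v.asIdeal (by rw [e1]; norm_num) (by rw [e2]; norm_num), e1, e2, mul_one])
      rw [Finset.filter_filter] at h1
      convert h1)
  have e1 : ∑ χ ∈ s, ENNReal.ofReal ((χ.1.cond : ℝ) ^ (-σ)) ≤
      ∑ χ ∈ Y.filter (fun χ => χ.T ⊆ A), ENNReal.ofReal ((χ.cond : ℝ) ^ (-σ)) := by
    have : ∑ χ ∈ s, ENNReal.ofReal ((χ.1.cond : ℝ) ^ (-σ)) =
        ∑ χ ∈ s.map (Function.Embedding.subtype _), ENNReal.ofReal ((χ.cond : ℝ) ^ (-σ)) := by
      rw [Finset.sum_map]; rfl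
    rw [this]
    apply Finset.sum_le_sum_of_subset
    intro χ hχ
    obtain ⟨ψ, hψ, rfl⟩ := Finset.mem_map.1 hχ
    have hψA : ψ.1.T ⊆ A := Finset.subset_biUnion_of_mem (fun χ : Fam P S => χ.1.T) hψ
    rw [Finset.mem_filter, hmemY]
    exact ⟨⟨ψ.2, hψA⟩, hψA⟩
  refine e1.trans ?_
  have hnn : ∀ χ : QChar F, 0 ≤ (χ.cond : ℝ) ^ (-σ) :=
    fun χ => Real.rpow_nonneg (Nat.cast_nonneg _) _
  rw [← ENNReal.ofReal_sum_of_nonneg (fun χ _ => hnn χ)]
  simp only [cond_rpow]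
  refine (ENNReal.ofReal_le_ofReal key).trans ?_
  rw [ENNReal.ofReal_mul (by positivity), ENNReal.ofReal_sum_of_nonneg (fun χ _ => by
    rw [← cond_rpow]; exact hnn χ)]
  have e2 : ENNReal.ofReal (((2 ^ j : ℕ) : ℝ)) = 2 ^ j := by
    rw [Nat.cast_pow, Nat.cast_ofNat, ENNReal.ofReal_pow (by norm_num)]
    norm_num
  rw [e2]
  gcongr
  have e3 : ∑' χ : {χ : QChar F // χ ∈ Fam P S ∧ ∀ i, NonVan (c i) χ},
      ENNReal.ofReal (∏ v ∈ χ.1.T, (nm v : ℝ) ^ (-σ)) =
      ∑' χ : QChar F, {χ : QChar F | χ ∈ Fam P S ∧ ∀ i, NonVan (c i) χ}.indicator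
        (fun χ => ENNReal.ofReal (∏ v ∈ χ.T, (nm v : ℝ) ^ (-σ))) χ :=
    tsum_subtype {χ : QChar F | χ ∈ Fam P S ∧ ∀ i, NonVan (c i) χ}
      (fun χ => ENNReal.ofReal (∏ v ∈ χ.T, (nm v : ℝ) ^ (-σ)))
  rw [e3]
  refine (Finset.sum_le_sum (g := {χ : QChar F | χ ∈ Fam P S ∧ ∀ i, NonVan (c i) χ}.indicator
        (fun χ => ENNReal.ofReal (∏ v ∈ χ.T, (nm v : ℝ) ^ (-σ)))) ?_).trans
        (ENNReal.sum_le_tsum _)
  intro χ hχ
  simp only [Finset.mem_filter] at hχ
  obtain ⟨h1, h2⟩ := hχ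
  rw [Set.indicator_of_mem (show χ ∈ {χ : QChar F | χ ∈ Fam P S ∧ ∀ i, NonVan (c i) χ} from
    ⟨((hmemY χ).1 h1).1, h2.2⟩)]

open Classical in
theorem main_of (hA : MainAStatement) (hprim : PrimStatement) (hfin : FinStatement)
    (hmix : MixStatement) (hsumm : SummStatement) (habel : AbelStatement)
    (hdiv : DivStatement) (hcrt : CrtStatement) (hray : RayStatement) : MainStatement := by
  intro F _ _ ι _ _ c w B P η j L hS hL hbig
  have hB := mainB hA hprim hfin hmix F ι c w B P η j L hS hL hbig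
  refine ⟨hA F ι c w B P η j L hS hL hbig, fun S σ hσ => hB S σ hσ, ?_, fun S Z =>
    Simplex.lower hA hcrt hray hsumm ι c w B P η j L hS hL hbig S Z⟩
  intro S hSf hP
  obtain ⟨i0⟩ : Nonempty ι := inferInstance
  have hD := hdiv F P hSf.toFinset (hS i0).odd hP
  rw [Set.Finite.coe_toFinset] at hD
  refine ⟨?_, ?_, ?_⟩
  · have h1 := hB S 1 zero_le_one
    rw [hD, top_le_iff] at h1
    rcases ENNReal.mul_eq_top.1 h1 with h | h
    · exact h.2
    · exfalso
      exact (ENNReal.pow_ne_top ENNReal.ofNat_ne_top) h.1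
  · intro X
    exact ((hsumm F).1 X).subset (fun χ hχ => hχ.2)
  · intro t ht
    have h1 := habel (Fam P S) (fun χ => χ.1.cond) (fun χ => ∀ i, NonVan (c i) χ.1) (2 ^ j)
      (by positivity) (fun χ => cond_pos χ.1) (by
        intro X
        apply Set.Finite.of_finite_image (f := Subtype.val) _ Subtype.val_injective.injOn
        apply ((hsumm F).1 X).subset
        rintro χ ⟨ψ, hψ, rfl⟩
        exact hψ) (by
        intro σ hσ
        have h2 := (hsumm F).2 σ hσ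
        refine ne_top_of_le_ne_top h2 ?_
        exact ENNReal.tsum_comp_le_tsum_of_injective Subtype.val_injective
          (fun χ : QChar F => ENNReal.ofReal ((χ.cond : ℝ) ^ (-σ)))) (by
        intro σ hσ
        refine (hB S σ (by linarith)).trans ?_
        have e2 : ENNReal.ofReal ((2 : ℝ) ^ j) = 2 ^ j := by
          rw [ENNReal.ofReal_pow (by norm_num)]
          norm_num
        rw [e2]
        gcongr
        apply le_of_eq
        exact ((Equiv.subtypeSubtypeEquivSubtypeInter (fun χ : QChar F => χ ∈ Fam P S)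
          (fun χ => ∀ i, NonVan (c i) χ)).tsum_eq
            (fun χ => ENNReal.ofReal ((χ.1.cond : ℝ) ^ (-σ)))).symm) hD t ht
    refine h1.mono ?_
    intro X hX
    have e1 : {χ : QChar F | χ ∈ Fam P S ∧ χ.cond ≤ X} =
        Subtype.val '' {χ : Fam P S | χ.1.cond ≤ X} := by
      ext χ
      constructor
      · rintro ⟨h, h'⟩
        exact ⟨⟨χ, h⟩, h', rfl⟩
      · rintro ⟨ψ, h, rfl⟩
        exact ⟨ψ.2, h⟩
    have e2 : {χ : QChar F | χ ∈ Fam P S ∧ (∀ i, NonVan (c i) χ) ∧ χ.cond ≤ X} =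
        Subtype.val '' {χ : Fam P S | χ.1.cond ≤ X ∧ ∀ i, NonVan (c i) χ.1} := by
      ext χ
      constructor
      · rintro ⟨h, h', h''⟩
        exact ⟨⟨χ, h⟩, ⟨h'', h'⟩, rfl⟩
      · rintro ⟨ψ, ⟨h, h'⟩, rfl⟩
        exact ⟨ψ.2, h', h⟩
    rw [e1, e2, Set.ncard_image_of_injective _ Subtype.val_injective,
      Set.ncard_image_of_injective _ Subtype.val_injective]
    exact hX

end Pool.Agent.Lib.MP_50bb2e_nt.PP
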