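import Pool.Agent.Lib.MP_50bb2e_nt.PP.Iface

/-!
MP_50bb2e_nt, board PP, row SUMM: finitely many characters of bounded conductor, and the series
of the powers of the conductors converges for exponents greater than one.
-/

open IsDedekindDomain NumberField Filter Topology Asymptotics

namespace Pool.Agent.Lib.MP_50bb2e_nt.PP

namespace Summ

variable {F : Type} [Field F] [NumberField F]

/-- the product of the primes of `T` -/
noncomputable def pr (T : Finset (Pr F)) : Ideal (𝓞 F) := ∏ v ∈ T, v.asIdeal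

theorem mem_iff (T : Finset (Pr F)) (v : Pr F) : v ∈ T ↔ v.asIdeal ∣ pr T := by
  constructor
  · intro h
    exact Finset.dvd_prod_of_mem _ h
  · intro h
    obtain ⟨u, hu, hvu⟩ := (v.prime.dvd_finsetProd_iff (fun u : Pr F => u.asIdeal)).1 h
    have h1 : v.asIdeal = u.asIdeal :=
      associated_iff_eq.1 ((v.prime.dvd_prime_iff_associated u.prime).1 hvu)
    have h2 : v = u := HeightOneSpectrum.ext h1
    rwa [h2]

theorem pr_inj : Function.Injective (pr : Finset (Pr F) → Ideal (𝓞 F)) := by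
  intro T T' h
  ext v
  rw [mem_iff, mem_iff, h]

theorem norm_pr (T : Finset (Pr F)) : Ideal.absNorm (pr T) = ∏ v ∈ T, nm v := by
  unfold pr nm
  exact map_prod _ _ _

theorem cond_eq (χ : QChar F) : χ.cond = Ideal.absNorm (pr χ.T) := by
  rw [norm_pr]
  rfl

theorem finite_cond (h : FinStatement) (X : ℕ) : {χ : QChar F | χ.cond ≤ X}.Finite := by
  obtain ⟨C, hC⟩ := h F
  have h1 : {T : Finset (Pr F) | Ideal.absNorm (pr T) ≤ X}.Finite :=
    Set.Finite.preimage (f := pr) pr_inj.injOn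
      (Ideal.finite_setOfPred_absNorm_le (S := 𝓞 F) X)
  have h2 : {χ : QChar F | χ.cond ≤ X} ⊆
      ⋃ T ∈ {T : Finset (Pr F) | Ideal.absNorm (pr T) ≤ X}, {χ : QChar F | χ.T = T} := by
    intro χ hχ
    have h3 : Ideal.absNorm (pr χ.T) ≤ X := by
      rw [← cond_eq]
      exact hχ
    exact Set.mem_biUnion (x := χ.T) h3 rfl
  exact (h1.biUnion fun T _ => (hC T).1).subset h2

/-- the number of ideals of given norm -/
noncomputable def cnt (F : Type) [Field F] [NumberField F] (n : ℕ) : ℝ :=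
  Nat.card {I : Ideal (𝓞 F) // Ideal.absNorm I = n}

theorem sum_cnt (n : ℕ) : ∑ k ∈ Finset.Icc 1 n, cnt F k ≤
    Nat.card {I : Ideal (𝓞 F) // (Ideal.absNorm I : ℝ) ≤ (n : ℝ)} := by
  classical
  have hf : ∀ k : ℕ, {I : Ideal (𝓞 F) | Ideal.absNorm I = k}.Finite := fun k =>
    Ideal.finite_setOfPred_absNorm_eq (S := 𝓞 F) k
  have hle : {I : Ideal (𝓞 F) | (Ideal.absNorm I : ℝ) ≤ (n : ℝ)}.Finite := by
    refine (Ideal.finite_setOfPred_absNorm_le (S := 𝓞 F) n).subset ?_
    intro I hI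
    have : (Ideal.absNorm I : ℝ) ≤ (n : ℝ) := hI
    exact_mod_cast this
  have h1 : ∀ k : ℕ, cnt F k = ((hf k).toFinset.card : ℝ) := by
    intro k
    unfold cnt
    rw [← Set.ncard_eq_toFinset_card _ (hf k)]
    rfl
  have h2 : (Nat.card {I : Ideal (𝓞 F) // (Ideal.absNorm I : ℝ) ≤ (n : ℝ)} : ℝ) =
      (hle.toFinset.card : ℝ) := by
    rw [← Set.ncard_eq_toFinset_card _ hle]
    rfl
  simp_rw [h1]
  rw [h2, ← Nat.cast_sum, ← Finset.card_biUnion]
  · norm_cast
    apply Finset.card_le_card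
    intro I hI
    simp only [Finset.mem_biUnion, Finset.mem_Icc, Set.Finite.mem_toFinset,
      Set.mem_ofPred_eq] at hI ⊢
    obtain ⟨k, hk, hI⟩ := hI
    rw [hI]
    exact_mod_cast hk.2
  · intro k _ l _ hkl
    simp only [Function.onFun]
    rw [Finset.disjoint_left]
    intro I h3 h4
    simp only [Set.Finite.mem_toFinset, Set.mem_ofPred_eq] at h3 h4
    exact hkl (h3.symm.trans h4)

theorem cnt_bigO : (fun n : ℕ => ∑ k ∈ Finset.Icc 1 n, cnt F k) =O[atTop]
    fun n : ℕ => (n : ℝ) ^ (1 : ℝ) := by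
  have h1 := (Ideal.tendsto_norm_le_div_atTop F).comp tendsto_natCast_atTop_atTop
  have h2 := h1.isBigO_one ℝ
  have h3 : (fun n : ℕ => (n : ℝ)) =O[atTop] fun n : ℕ => (n : ℝ) := isBigO_refl _ _
  have h4 := h2.mul h3
  refine IsBigO.trans ?_ (h4.trans ?_)
  · refine IsBigO.of_bound 1 ?_
    filter_upwards [eventually_gt_atTop 0] with n hn
    have hn' : (n : ℝ) ≠ 0 := by positivity
    simp only [Function.comp_apply, one_mul]
    rw [div_mul_cancel₀ _ hn', Real.norm_of_nonneg, Real.norm_of_nonneg]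
    · exact sum_cnt n
    · positivity
    · exact Finset.sum_nonneg fun k _ => by unfold cnt; positivity
  · refine IsBigO.of_bound 1 ?_
    filter_upwards with n
    simp

theorem summable_cnt (σ : ℝ) (hσ : 1 < σ) :
    Summable (fun n : ℕ => cnt F n * (n : ℝ) ^ (-σ)) := by
  have h1 : LSeriesSummable (fun n => ((cnt F n : ℝ) : ℂ)) (σ : ℂ) :=
    LSeriesSummable_of_sum_norm_bigO_and_nonneg (r := 1) cnt_bigO
      (fun n => by unfold cnt; positivity) zero_le_one (by simpa using hσ)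
  have h2 := h1.norm
  refine h2.congr ?_
  intro n
  rw [LSeries.norm_term_eq]
  by_cases hn : n = 0
  · subst hn
    simp [Real.zero_rpow (show -σ ≠ 0 by linarith)]
  · rw [if_neg hn, Complex.norm_real, Real.norm_of_nonneg (by unfold cnt; positivity),
      Real.rpow_neg (by positivity), div_eq_mul_inv]
    simp

theorem tsum_ideals (σ : ℝ) (hσ : 1 < σ) :
    ∑' I : Ideal (𝓞 F), ENNReal.ofReal ((Ideal.absNorm I : ℝ) ^ (-σ)) ≠ ⊤ := by
  rw [← ENNReal.tsum_fiberwise _ (fun I : Ideal (𝓞 F) => Ideal.absNorm I)]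
  have h1 : ∀ n : ℕ, (∑' b : (fun I : Ideal (𝓞 F) => Ideal.absNorm I) ⁻¹' {n},
      ENNReal.ofReal ((Ideal.absNorm (b : Ideal (𝓞 F)) : ℝ) ^ (-σ))) =
      ENNReal.ofReal (cnt F n * (n : ℝ) ^ (-σ)) := by
    intro n
    have hfin : {I : Ideal (𝓞 F) | Ideal.absNorm I = n}.Finite :=
      Ideal.finite_setOfPred_absNorm_eq (S := 𝓞 F) n
    have hfin' : Finite ((fun I : Ideal (𝓞 F) => Ideal.absNorm I) ⁻¹' {n}) := hfin
    have h2 : ∀ b : (fun I : Ideal (𝓞 F) => Ideal.absNorm I) ⁻¹' {n},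
        ENNReal.ofReal ((Ideal.absNorm (b : Ideal (𝓞 F)) : ℝ) ^ (-σ)) =
          ENNReal.ofReal ((n : ℝ) ^ (-σ)) := by
      intro b
      have : Ideal.absNorm (b : Ideal (𝓞 F)) = n := b.2
      rw [this]
    rw [tsum_congr h2, ENNReal.tsum_const, ENNReal.ofReal_mul (by unfold cnt; positivity)]
    congr 1
    unfold cnt
    rw [ENat.card_eq_coe_natCard]
    simp only [ENat.toENNReal_coe, ENNReal.ofReal_natCast, Nat.cast_inj]
    rfl
  rw [tsum_congr h1]
  exact (summable_cnt (F := F) σ hσ).tsum_ofReal_ne_top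

end Summ

theorem summ (h : FinStatement) : SummStatement := by
  intro F _ _
  refine ⟨Summ.finite_cond h, ?_⟩
  intro σ hσ
  obtain ⟨C, hC⟩ := h F
  rw [← ENNReal.tsum_fiberwise _ (fun χ : QChar F => χ.T)]
  have h1 : ∀ T : Finset (Pr F), (∑' b : (fun χ : QChar F => χ.T) ⁻¹' {T},
      ENNReal.ofReal (((b : QChar F).cond : ℝ) ^ (-σ))) ≤
      (C : ENNReal) * ENNReal.ofReal ((Ideal.absNorm (Summ.pr T) : ℝ) ^ (-σ)) := by
    intro T
    have hfin' : Finite ((fun χ : QChar F => χ.T) ⁻¹' {T}) := (hC T).1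
    have h2 : ∀ b : (fun χ : QChar F => χ.T) ⁻¹' {T},
        ENNReal.ofReal (((b : QChar F).cond : ℝ) ^ (-σ)) =
          ENNReal.ofReal ((Ideal.absNorm (Summ.pr T) : ℝ) ^ (-σ)) := by
      intro b
      have : (b : QChar F).T = T := b.2
      rw [Summ.cond_eq, this]
    rw [tsum_congr h2, ENNReal.tsum_const]
    gcongr
    rw [ENat.card_eq_coe_natCard]
    simp only [ENat.toENNReal_coe, Nat.cast_le]
    exact (hC T).2
  refine ne_top_of_le_ne_top ?_ (ENNReal.tsum_le_tsum h1)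
  rw [ENNReal.tsum_mul_left]
  refine ENNReal.mul_ne_top (by simp) ?_
  refine ne_top_of_le_ne_top (Summ.tsum_ideals (F := F) σ hσ) ?_
  exact ENNReal.tsum_comp_le_tsum_of_injective Summ.pr_inj
    (fun I : Ideal (𝓞 F) => ENNReal.ofReal ((Ideal.absNorm I : ℝ) ^ (-σ)))

end Pool.Agent.Lib.MP_50bb2e_nt.PP
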