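import Pool.Agent.Lib.MP_50bb2e_nt.PP.Iface

/-!
MP_50bb2e_nt, board PP, row ABEL: from Dirichlet density to natural upper density.
-/

open Filter Topology

namespace Pool.Agent.Lib.MP_50bb2e_nt.PP

/-- The weights of the Abel summation. -/
noncomputable def gw (σ : ℝ) (n : ℕ) : ENNReal :=
  ENNReal.ofReal ((n : ℝ) ^ (-σ) - ((n + 1 : ℕ) : ℝ) ^ (-σ))

theorem gw_nonneg {σ : ℝ} (hσ : 0 < σ) {n : ℕ} (hn : 1 ≤ n) :
    0 ≤ (n : ℝ) ^ (-σ) - ((n + 1 : ℕ) : ℝ) ^ (-σ) := by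
  have h0 : (0 : ℝ) < n := by exact_mod_cast hn
  have h1 : ((n + 1 : ℕ) : ℝ) ^ (-σ) ≤ (n : ℝ) ^ (-σ) :=
    Real.rpow_le_rpow_of_nonpos h0 (by push_cast; linarith) (by linarith)
  linarith

theorem gw_le {σ : ℝ} (hσ : 0 < σ) {n : ℕ} (hn : 1 ≤ n) : gw σ n ≤ 1 := by
  unfold gw
  rw [show (1 : ENNReal) = ENNReal.ofReal 1 by simp]
  refine ENNReal.ofReal_le_ofReal ?_
  have h1 : (1 : ℝ) ≤ n := by exact_mod_cast hn
  have h2 : (n : ℝ) ^ (-σ) ≤ 1 := Real.rpow_le_one_of_one_le_of_nonpos h1 (by linarith)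
  have h3 : 0 ≤ ((n + 1 : ℕ) : ℝ) ^ (-σ) := Real.rpow_nonneg (by positivity) _
  linarith

theorem tele {σ : ℝ} (hσ : 0 < σ) {N : ℕ} (hN : 1 ≤ N) :
    ENNReal.ofReal ((N : ℝ) ^ (-σ)) = ∑' n : ℕ, if N ≤ n then gw σ n else 0 := by
  let f : ℕ → ℝ := fun n => if N ≤ n then (n : ℝ) ^ (-σ) - ((n + 1 : ℕ) : ℝ) ^ (-σ) else 0
  have hf : ∀ n, 0 ≤ f n := by
    intro n
    show 0 ≤ if N ≤ n then (n : ℝ) ^ (-σ) - ((n + 1 : ℕ) : ℝ) ^ (-σ) else 0
    split_ifs with h
    · exact gw_nonneg hσ (hN.trans h)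
    · exact le_rfl
  have hp : ∀ m : ℕ, ∑ n ∈ Finset.range m, f n = (N : ℝ) ^ (-σ) - ((max N m : ℕ) : ℝ) ^ (-σ) := by
    intro m
    induction m with
    | zero => simp
    | succ m ih =>
      rw [Finset.sum_range_succ, ih]
      show _ + (if N ≤ m then (m : ℝ) ^ (-σ) - ((m + 1 : ℕ) : ℝ) ^ (-σ) else 0) = _
      split_ifs with h
      · rw [max_eq_right h, max_eq_right (h.trans (Nat.le_succ m))]
        ring
      · rw [max_eq_left (by omega), max_eq_left (by omega)]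
        ring
  have ht : Tendsto (fun m : ℕ => ((max N m : ℕ) : ℝ) ^ (-σ)) atTop (𝓝 0) := by
    have h1 := (tendsto_rpow_neg_atTop hσ).comp tendsto_natCast_atTop_atTop
    refine h1.congr' ?_
    filter_upwards [eventually_ge_atTop N] with m hm
    rw [max_eq_right hm]
    rfl
  have hs : HasSum f ((N : ℝ) ^ (-σ)) := by
    rw [hasSum_iff_tendsto_nat_of_nonneg hf]
    have h1 : Tendsto (fun m : ℕ => (N : ℝ) ^ (-σ) - ((max N m : ℕ) : ℝ) ^ (-σ)) atTop
        (𝓝 ((N : ℝ) ^ (-σ) - 0)) := tendsto_const_nhds.sub ht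
    rw [sub_zero] at h1
    exact h1.congr fun m => (hp m).symm
  rw [← hs.tsum_eq, ENNReal.ofReal_tsum_of_nonneg hf hs.summable]
  refine tsum_congr fun n => ?_
  show ENNReal.ofReal (if N ≤ n then (n : ℝ) ^ (-σ) - ((n + 1 : ℕ) : ℝ) ^ (-σ) else 0) = _
  split_ifs
  · rfl
  · exact ENNReal.ofReal_zero

theorem sum_count {κ : Type} (N : κ → ℕ) (h1 : ∀ k, 1 ≤ N k) (hfin : ∀ X : ℕ, {k | N k ≤ X}.Finite) {σ : ℝ}
    (hσ : 0 < σ) : ∑' k, ENNReal.ofReal ((N k : ℝ) ^ (-σ)) = ∑' n : ℕ, (Set.ncard {k | N k ≤ n} : ENNReal) * gw σ n := by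
  classical
  have e1 : ∀ k, ENNReal.ofReal ((N k : ℝ) ^ (-σ)) = ∑' n : ℕ, if N k ≤ n then gw σ n else 0 := fun k => tele hσ (h1 k)
  rw [tsum_congr e1, ENNReal.tsum_comm]
  refine tsum_congr fun n => ?_
  have e2 : ∑' k, (if N k ≤ n then gw σ n else 0) = ∑ k ∈ (hfin n).toFinset, if N k ≤ n then gw σ n else 0 :=
    tsum_eq_sum fun k hk => if_neg fun h => hk ((hfin n).mem_toFinset.2 h)
  have e3 : ∑ k ∈ (hfin n).toFinset, (if N k ≤ n then gw σ n else 0) = ∑ _k ∈ (hfin n).toFinset, gw σ n :=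
    Finset.sum_congr rfl fun k hk => if_pos ((hfin n).mem_toFinset.1 hk)
  rw [e2, e3, Finset.sum_const, nsmul_eq_mul, Set.ncard_eq_toFinset_card _ (hfin n)]

/-- **ABEL.** -/
theorem abel : AbelStatement := by
  intro κ N Q C hC h1 hfin hsum hle htop
  -- the case `0 ≤ t`
  have main : ∀ t : ℝ, 0 ≤ t → t < 1 / C → ∃ᶠ X : ℕ in atTop,
      t * Set.ncard {k | N k ≤ X} < Set.ncard {k | N k ≤ X ∧ Q k} := by
    intro t ht0 ht
    by_contra hcon
    rw [not_frequently, eventually_atTop] at hcon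
    obtain ⟨X0, hX0⟩ := hcon
    have hX : ∀ X : ℕ, X0 ≤ X → (Set.ncard {k | N k ≤ X ∧ Q k} : ℝ) ≤ t * Set.ncard {k | N k ≤ X} :=
      fun X h => not_lt.1 (hX0 X h)
    have hCt : C * t < 1 := by
      rw [lt_div_iff₀ hC] at ht
      linarith [mul_comm t C]
    let M : ℝ := ∑ n ∈ Finset.range X0, (Set.ncard {k | N k ≤ n ∧ Q k} : ℝ)
    have hM : 0 ≤ M := Finset.sum_nonneg fun n _ => Nat.cast_nonneg _
    -- the bound
    have hb : ∀ σ : ℝ, 1 < σ → ∑' k, ENNReal.ofReal ((N k : ℝ) ^ (-σ)) ≤ ENNReal.ofReal (C * M / (1 - C * t)) := by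
      intro σ hσ
      have hσ0 : 0 < σ := by linarith
      have hS := sum_count N h1 hfin hσ0
      have hfQ : ∀ X : ℕ, {k : {k // Q k} | N k.1 ≤ X}.Finite := fun X =>
        (hfin X).preimage (f := fun k : {k // Q k} => k.1) (fun _ _ _ _ h => Subtype.ext h)
      have hSQ := sum_count (fun k : {k // Q k} => N k.1) (fun k => h1 k.1) hfQ hσ0
      have hcard : ∀ n : ℕ, Set.ncard {k : {k // Q k} | N k.1 ≤ n} = Set.ncard {k | N k ≤ n ∧ Q k} := by
        intro n
        rw [← Set.ncard_image_of_injective _ Subtype.val_injective]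
        congr 1
        ext k
        constructor
        · rintro ⟨k', hk', rfl⟩
          exact ⟨hk', k'.2⟩
        · rintro ⟨hk, hq⟩
          exact ⟨⟨k, hq⟩, hk, rfl⟩
      have hq : ∀ n : ℕ, (Set.ncard {k | N k ≤ n ∧ Q k} : ENNReal) * gw σ n ≤
          (if n < X0 then (Set.ncard {k | N k ≤ n ∧ Q k} : ENNReal) else 0) +
            ENNReal.ofReal t * ((Set.ncard {k | N k ≤ n} : ENNReal) * gw σ n) := by
        intro n
        by_cases hn : n < X0
        · rw [if_pos hn]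
          refine le_add_right ?_
          rcases Nat.eq_zero_or_pos n with h0 | h0
          · have h2 : {k | N k ≤ n ∧ Q k} = ∅ := by
              ext k
              refine ⟨fun h3 => ?_, fun h3 => h3.elim⟩
              have h4 : N k ≤ n := h3.1
              have := h1 k
              omega
            rw [h2, Set.ncard_empty]
            simp
          · calc (Set.ncard {k | N k ≤ n ∧ Q k} : ENNReal) * gw σ n ≤ (Set.ncard {k | N k ≤ n ∧ Q k} : ENNReal) * 1 :=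
                  mul_le_mul_right (gw_le hσ0 h0) _
              _ = _ := mul_one _
        · rw [if_neg hn, zero_add, ← mul_assoc]
          refine mul_le_mul_left ?_ _
          have h2 := hX n (not_lt.1 hn)
          have h3 := ENNReal.ofReal_le_ofReal h2
          rw [ENNReal.ofReal_natCast, ENNReal.ofReal_mul ht0, ENNReal.ofReal_natCast] at h3
          exact h3
      have hSQ2 : ∑' k : {k // Q k}, ENNReal.ofReal ((N k.1 : ℝ) ^ (-σ)) ≤
          ENNReal.ofReal M + ENNReal.ofReal t * ∑' k, ENNReal.ofReal ((N k : ℝ) ^ (-σ)) := by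
        rw [hSQ, hS, ← ENNReal.tsum_mul_left]
        have g1 : ∑' n : ℕ, (Set.ncard {k : {k // Q k} | N k.1 ≤ n} : ENNReal) * gw σ n ≤
            ∑' n : ℕ, ((if n < X0 then (Set.ncard {k | N k ≤ n ∧ Q k} : ENNReal) else 0) +
              ENNReal.ofReal t * ((Set.ncard {k | N k ≤ n} : ENNReal) * gw σ n)) := by
          refine ENNReal.tsum_le_tsum fun n => ?_
          rw [hcard]
          exact hq n
        rw [ENNReal.tsum_add] at g1
        refine g1.trans (add_le_add ?_ le_rfl)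
        have g2 : ∑' n : ℕ, (if n < X0 then (Set.ncard {k | N k ≤ n ∧ Q k} : ENNReal) else 0) =
            ∑ n ∈ Finset.range X0, if n < X0 then (Set.ncard {k | N k ≤ n ∧ Q k} : ENNReal) else 0 :=
          tsum_eq_sum fun n hn => if_neg fun h => hn (Finset.mem_range.2 h)
        have g3 : ∑ n ∈ Finset.range X0, (if n < X0 then (Set.ncard {k | N k ≤ n ∧ Q k} : ENNReal) else 0) =
            ∑ n ∈ Finset.range X0, (Set.ncard {k | N k ≤ n ∧ Q k} : ENNReal) :=
          Finset.sum_congr rfl fun n hn => if_pos (Finset.mem_range.1 hn)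
        rw [g2, g3]
        refine le_of_eq ?_
        show _ = ENNReal.ofReal (∑ n ∈ Finset.range X0, (Set.ncard {k | N k ≤ n ∧ Q k} : ℝ))
        rw [ENNReal.ofReal_sum_of_nonneg fun n _ => Nat.cast_nonneg _]
        exact Finset.sum_congr rfl fun n _ => (ENNReal.ofReal_natCast _).symm
      set S := ∑' k, ENNReal.ofReal ((N k : ℝ) ^ (-σ)) with hSdef
      have hfinS : S ≠ ⊤ := hsum σ hσ
      have h3 : S ≤ ENNReal.ofReal C * (ENNReal.ofReal M + ENNReal.ofReal t * S) :=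
        (hle σ hσ).trans (mul_le_mul_right hSQ2 _)
      obtain ⟨x, hx0, hx⟩ : ∃ x : ℝ, 0 ≤ x ∧ S = ENNReal.ofReal x :=
        ⟨S.toReal, ENNReal.toReal_nonneg, (ENNReal.ofReal_toReal hfinS).symm⟩
      rw [hx] at h3 ⊢
      rw [← ENNReal.ofReal_mul ht0, ← ENNReal.ofReal_add hM (mul_nonneg ht0 hx0), ← ENNReal.ofReal_mul hC.le,
        ENNReal.ofReal_le_ofReal_iff (mul_nonneg hC.le (add_nonneg hM (mul_nonneg ht0 hx0)))] at h3
      refine ENNReal.ofReal_le_ofReal ?_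
      rw [le_div_iff₀ (by linarith)]
      nlinarith
    -- the limit
    have hlim : ∑' k, ENNReal.ofReal ((N k : ℝ) ^ (-1 : ℝ)) ≤ ENNReal.ofReal (C * M / (1 - C * t)) := by
      rw [ENNReal.tsum_eq_iSup_sum]
      refine iSup_le fun s => ?_
      have hcont : Tendsto (fun σ : ℝ => ∑ k ∈ s, ENNReal.ofReal ((N k : ℝ) ^ (-σ))) (𝓝[>] 1)
          (𝓝 (∑ k ∈ s, ENNReal.ofReal ((N k : ℝ) ^ (-1 : ℝ)))) := by
        refine tendsto_finsetSum _ fun k _ => ?_
        refine ENNReal.tendsto_ofReal ?_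
        have h0 : (0 : ℝ) < N k := by exact_mod_cast h1 k
        have h2 : Continuous fun σ : ℝ => (N k : ℝ) ^ (-σ) :=
          (Real.continuous_const_rpow h0.ne').comp continuous_neg
        exact (h2.tendsto 1).mono_left nhdsWithin_le_nhds
      refine le_of_tendsto hcont ?_
      filter_upwards [self_mem_nhdsWithin] with σ hσ
      exact (ENNReal.sum_le_tsum s).trans (hb σ hσ)
    rw [htop] at hlim
    exact absurd (top_le_iff.1 hlim) ENNReal.ofReal_ne_top
  intro t ht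
  rcases le_or_gt 0 t with h0 | h0
  · exact main t h0 ht
  · refine (main 0 le_rfl (by positivity)).mono fun X hX => ?_
    rw [zero_mul] at hX
    exact lt_of_le_of_lt (mul_nonpos_of_nonpos_of_nonneg h0.le (Nat.cast_nonneg _)) hX

end Pool.Agent.Lib.MP_50bb2e_nt.PP
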