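import Pool.Agent.Lib.MP_50bb2e_nt.PP.Iface

/-!
MP_50bb2e_nt, board PP, row APPR.
-/

set_option autoImplicit false

open IsDedekindDomain NumberField Filter Topology

namespace Pool.Agent.Lib.MP_50bb2e_nt.PP

theorem appr : ApprStatement := by
  classical
  intro F _ _ a T T' ha hT
  by_cases hne : (T ∪ T').Nonempty
  · -- the product of the primes
    have hm0 : (∏ v ∈ T ∪ T', v.asIdeal) ≠ ⊥ := by
      rw [← Ideal.zero_eq_bot]
      exact Finset.prod_ne_zero_iff.mpr fun v _ => v.ne_bot
    have hI0 : a * (∏ v ∈ T ∪ T', v.asIdeal) ≠ 0 :=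
      mul_ne_zero ha hm0
    obtain ⟨g, hg⟩ := IsDedekindDomain.exists_sup_span_eq
      (Ideal.mul_le_left : a * (∏ v ∈ T ∪ T', v.asIdeal) ≤ a) hI0
    have hga : Ideal.span {g} ≤ a := le_sup_right.trans hg.le
    obtain ⟨b0, hb0⟩ := Ideal.dvd_iff_le.mpr hga
    -- b0 is coprime to T and T'
    have hb0v : ∀ v ∈ T ∪ T', ¬ b0 ≤ v.asIdeal := by
      intro v hv hle
      have h1 : a * (∏ v ∈ T ∪ T', v.asIdeal) ≤ a * v.asIdeal :=
        Ideal.mul_mono_right (Ideal.le_of_dvd (Finset.dvd_prod_of_mem _ hv))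
      have h2 : Ideal.span {g} ≤ a * v.asIdeal := by
        rw [hb0]; exact Ideal.mul_mono_right hle
      have h3 : a ≤ a * v.asIdeal := by
        conv_lhs => rw [← hg]
        exact sup_le h1 h2
      have h4 : a * v.asIdeal = a * ⊤ := by
        rw [Ideal.mul_top]
        exact le_antisymm Ideal.mul_le_left h3
      have h5 : v.asIdeal = ⊤ := mul_left_cancel₀ (b := v.asIdeal) (c := ⊤) ha h4
      exact v.isPrime.ne_top h5
    have hgv : ∀ v ∈ T, g ∉ v.asIdeal := by
      intro v hv hgm
      have h1 : a * b0 ≤ v.asIdeal := by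
        rw [← hb0, Ideal.span_singleton_le_iff_mem]; exact hgm
      rcases v.isPrime.mul_le.mp h1 with h | h
      · exact hT v hv h
      · exact hb0v v (Finset.mem_union_left _ hv) h
    -- inverse of g modulo v
    have hinv : ∀ v : Pr F, ∃ u : 𝓞 F, (v ∈ T → u * g - 1 ∈ v.asIdeal) ∧ (v ∉ T → u = 1) := by
      intro v
      by_cases hv : v ∈ T
      · have hmax := v.isMaximal
        obtain ⟨u, hu⟩ := hmax.exists_inv (hgv v hv)
        obtain ⟨y, hy, hy'⟩ := hu
        refine ⟨u, fun _ => ?_, fun h => absurd hv h⟩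
        have : u * g - 1 = -y := by rw [← hy']; ring
        rw [this]
        exact (v.asIdeal).neg_mem hy
      · exact ⟨1, fun h => absurd h hv, fun _ => rfl⟩
    choose u hu1 hu2 using hinv
    obtain ⟨y, hy⟩ := IsDedekindDomain.exists_forall_sub_mem_ideal (s := T ∪ T')
      (fun v : Pr F => v.asIdeal) (fun _ => 1) (fun v _ => v.prime)
      (fun v _ v' _ hvv h => hvv (HeightOneSpectrum.ext h)) (fun v => u v.1)
    have hy' : ∀ v ∈ T ∪ T', y - u v ∈ v.asIdeal := by
      intro v hv
      have := hy v hv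
      rwa [pow_one] at this
    have hyT : ∀ v ∈ T, y * g - 1 ∈ v.asIdeal := by
      intro v hv
      have h1 := hy' v (Finset.mem_union_left _ hv)
      have h2 := hu1 v hv
      have h3 : y * g - 1 = (y - u v) * g + (u v * g - 1) := by ring
      rw [h3]
      exact (v.asIdeal).add_mem ((v.asIdeal).mul_mem_right _ h1) h2
    have hyv : ∀ v ∈ T ∪ T', y ∉ v.asIdeal := by
      intro v hv hyv
      by_cases hvT : v ∈ T
      · have h1 := hyT v hvT
        have h2 : (1 : 𝓞 F) ∈ v.asIdeal := by
          have : (1 : 𝓞 F) = y * g - (y * g - 1) := by ring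
          rw [this]
          exact (v.asIdeal).sub_mem ((v.asIdeal).mul_mem_right _ hyv) h1
        exact v.isPrime.ne_top ((Ideal.eq_top_iff_one _).mpr h2)
      · have h1 := hy' v hv
        rw [hu2 v hvT] at h1
        have h2 : (1 : 𝓞 F) ∈ v.asIdeal := by
          have : (1 : 𝓞 F) = y - (y - 1) := by ring
          rw [this]
          exact (v.asIdeal).sub_mem hyv h1
        exact v.isPrime.ne_top ((Ideal.eq_top_iff_one _).mpr h2)
    have hspan : Ideal.span {y * g} = a * (Ideal.span {y} * b0) := by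
      rw [← Ideal.span_singleton_mul_span_singleton, hb0]
      ring
    have hcop : ∀ v ∈ T ∪ T', ¬ Ideal.span {y} * b0 ≤ v.asIdeal := by
      intro v hv h
      rcases v.isPrime.mul_le.mp h with h | h
      · exact hyv v hv ((Ideal.span_singleton_le_iff_mem _).mp h)
      · exact hb0v v hv h
    refine ⟨y * g, Ideal.span {y} * b0, ?_, hspan, hyT, fun v hv => hcop v (Finset.mem_union_right _ hv)⟩
    intro h0
    obtain ⟨v, hv⟩ := hne
    rw [h0] at hspan
    have h1 : a * (Ideal.span {y} * b0) = ⊥ := by rw [← hspan]; simp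
    have h2 : Ideal.span {y} * b0 = ⊥ := by
      rcases mul_eq_zero.mp h1 with h | h
      · exact absurd h ha
      · exact h
    exact hcop v hv (h2.le.trans bot_le)
  · have hT0 : T = ∅ := by
      by_contra h
      exact hne ((Finset.nonempty_iff_ne_empty.mpr h).mono Finset.subset_union_left)
    have hT0' : T' = ∅ := by
      by_contra h
      exact hne ((Finset.nonempty_iff_ne_empty.mpr h).mono Finset.subset_union_right)
    obtain ⟨g, hg, hg0⟩ := Submodule.exists_mem_ne_zero_of_ne_bot ha
    obtain ⟨b0, hb0⟩ := Ideal.dvd_iff_le.mpr ((Ideal.span_singleton_le_iff_mem _).mpr hg)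
    subst hT0 hT0'
    exact ⟨g, b0, hg0, hb0, fun v hv => absurd hv (Finset.notMem_empty _),
      fun v hv => absurd hv (Finset.notMem_empty _)⟩

end Pool.Agent.Lib.MP_50bb2e_nt.PP
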