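import Pool.Agent.Lib.MP_50bb2e_nt.PP.Iface

/-!
Board PP, row DIV: the sum of the reciprocals of the conductors over the family diverges.
-/

open IsDedekindDomain NumberField Filter Topology

namespace Pool.Agent.Lib.MP_50bb2e_nt.PP

noncomputable section

namespace DivRow

variable {F : Type} [Field F] [NumberField F]

/-- removing a finite set does not change divergence -/
theorem tsum_remove {X : Type} (f : X → ENNReal) (hf : ∀ x, f x ≠ ⊤) (P Q B : Set X)
    (hB : B.Finite) (hPQ : P ⊆ Q ∪ B) (hP : ∑' x : P, f x = ⊤) : ∑' x : Q, f x = ⊤ := by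
  have h1 : ∑' x : P, f x ≤ ∑' x : Q, f x + ∑' x : B, f x :=
    (ENNReal.tsum_mono_subtype f hPQ).trans (ENNReal.tsum_union_le f Q B)
  rw [hP, top_le_iff, ENNReal.add_eq_top] at h1
  rcases h1 with h | h
  · exact h
  · exfalso
    have : Fintype B := hB.fintype
    rw [tsum_fintype] at h
    exact (ENNReal.sum_ne_top.2 fun (x : B) _ => hf x) h

/-- one of finitely many classes has divergent sum -/
theorem exists_class {X Y : Type} (f : X → ENNReal) (P : Set X) (k : X → Y) (s : Finset Y)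
    (hk : ∀ x, k x ∈ s) (hP : ∑' x : P, f x = ⊤) :
    ∃ y ∈ s, ∑' x : {x : X | x ∈ P ∧ k x = y}, f x = ⊤ := by
  by_contra hcon
  push Not at hcon
  have h1 : P ⊆ ⋃ y ∈ s, {x : X | x ∈ P ∧ k x = y} := by
    intro x hx
    simp only [Set.mem_iUnion]
    exact ⟨k x, hk x, hx, rfl⟩
  have h2 : ∑' x : P, f x ≤ ∑ y ∈ s, ∑' x : {x : X | x ∈ P ∧ k x = y}, f x :=
    (ENNReal.tsum_mono_subtype f h1).trans (ENNReal.tsum_biUnion_le f s _)
  rw [hP, top_le_iff] at h2
  exact (ENNReal.sum_ne_top.2 fun y hy => hcon y hy) h2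

theorem finite_mem {a : 𝓞 F} (ha : a ≠ 0) : {v : Pr F | a ∈ v.asIdeal}.Finite := by
  have h1 : Ideal.span {a} ≠ 0 := by
    rw [Ideal.zero_eq_bot, Ne, Ideal.span_singleton_eq_bot]
    exact ha
  refine (Ideal.finite_factors h1).subset fun v hv => ?_
  show v.asIdeal ∣ Ideal.span {a}
  rw [Ideal.dvd_span_singleton]
  exact hv

theorem qs_cases (v : Pr F) (a : 𝓞 F) : qs v a = 1 ∨ qs v a = -1 := by
  unfold qs
  split_ifs
  · exact Or.inl rfl
  · exact Or.inr rfl

end DivRow

open DivRow in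
theorem div_proof (h1 : SelStatement) (h2 : QsStatement) (h3 : ExtStatement) : DivStatement := by
  classical
  intro F _ _ P S hodd hdiv
  obtain ⟨A, hA0, hA⟩ := h1 F S
  let f : Pr F → ENNReal := fun v => ENNReal.ofReal ((nm v : ℝ) ^ (-1 : ℝ))
  have hf : ∀ v, f v ≠ ⊤ := fun v => ENNReal.ofReal_ne_top
  have hpos : ∀ v ∈ P, 0 < nm v := fun v hv => (hodd v hv).pos
  -- good primes
  let P' : Set (Pr F) := {v | v ∈ P ∧ v ∉ S ∧ ∀ a ∈ A, a ∉ v.asIdeal}
  have hP' : ∑' v : P', f v = ⊤ := by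
    refine tsum_remove f hf P P' ((S : Set (Pr F)) ∪ ⋃ a ∈ A, {v : Pr F | a ∈ v.asIdeal})
      ?_ ?_ hdiv
    · refine S.finite_toSet.union ?_
      exact Set.Finite.biUnion A.finite_toSet fun a ha => finite_mem (hA0 a ha)
    · intro v hv
      by_cases hS : v ∈ S
      · exact Or.inr (Or.inl hS)
      · by_cases hAv : ∀ a ∈ A, a ∉ v.asIdeal
        · exact Or.inl ⟨hv, hS, hAv⟩
        · push Not at hAv
          obtain ⟨a, ha, hav⟩ := hAv
          refine Or.inr (Or.inr ?_)
          simp only [Set.mem_iUnion]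
          exact ⟨a, ha, hav⟩
  -- a class with divergent sum
  obtain ⟨K, -, hK⟩ := exists_class f P' (fun v => A.filter (fun a => qs v a = 1)) A.powerset
    (fun v => Finset.mem_powerset.2 (Finset.filter_subset _ _)) hP'
  have hne : ∃ v0, v0 ∈ {v : Pr F | v ∈ P' ∧ A.filter (fun a => qs v a = 1) = K} := by
    by_contra h
    push Not at h
    have h5 : ∑' v : {v : Pr F | v ∈ P' ∧ A.filter (fun a => qs v a = 1) = K}, f v = 0 := by
      rw [ENNReal.tsum_eq_zero]
      intro v
      exact absurd v.2 (h v)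
    rw [h5] at hK
    exact ENNReal.zero_ne_top hK
  obtain ⟨v0, hv0P, hv0K⟩ := hne
  let Q : Set (Pr F) := {w | (w ∈ P' ∧ A.filter (fun a => qs w a = 1) = K) ∧ w ≠ v0}
  have hQ : ∑' w : Q, f w = ⊤ := by
    refine tsum_remove f hf _ Q {v0} (Set.finite_singleton _) ?_ hK
    intro v hv
    by_cases h : v = v0
    · exact Or.inr h
    · exact Or.inl ⟨hv, h⟩
  have hQP : ∀ w ∈ Q, w ∈ P := fun w hw => hw.1.1.1
  -- the characters
  have hex : ∀ w : Q, ∃ χ : QChar F, χ.T = {v0, w.1} ∧ ∀ s ∈ S, χ.chi s.asIdeal = 1 := by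
    intro w
    have hw := w.2
    refine h3 F S {v0, w.1} ?_ ?_ ?_
    · rw [Finset.disjoint_left]
      intro v hvS hv
      rw [Finset.mem_insert, Finset.mem_singleton] at hv
      rcases hv with rfl | rfl
      · exact hv0P.2.1 hvS
      · exact hw.1.1.2.1 hvS
    · intro v hv
      rw [Finset.mem_insert, Finset.mem_singleton] at hv
      rcases hv with rfl | rfl
      · exact hodd _ hv0P.1
      · exact hodd _ hw.1.1.1
    · intro α b E hα hE hb hcop
      obtain ⟨α', hα', β, γ, hβ, hγ, heq⟩ := hA α b E hα hE hb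
      have key : ∀ v ∈ ({v0, w.1} : Finset (Pr F)), v ∈ P' → qs v α = qs v α' := by
        intro v hv hvP
        refine (h2 F v).2.2.2 α α' β γ ?_ (hvP.2.2 α' hα') hβ hγ heq
        intro h
        exact hcop v hv ((Ideal.span_singleton_le_iff_mem _).2 h)
      have hne0 : v0 ≠ w.1 := fun h => hw.2 h.symm
      rw [Finset.prod_pair hne0, key v0 (by simp) hv0P, key w.1 (by simp) hw.1.1]
      have h6 : qs v0 α' = qs w.1 α' := by
        have h7 : α' ∈ A.filter (fun a => qs v0 a = 1) ↔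
            α' ∈ A.filter (fun a => qs w.1 a = 1) := by
          rw [hv0K, hw.1.2]
        simp only [Finset.mem_filter, hα', true_and] at h7
        rcases qs_cases v0 α' with h8 | h8
        · rw [h8, h7.1 h8]
        · rcases qs_cases w.1 α' with h9 | h9
          · rw [h9, h7.2 h9]
          · rw [h8, h9]
      rw [← h6]
      rcases qs_cases v0 α' with h8 | h8 <;> rw [h8] <;> norm_num
  choose χ hχT hχS using hex
  have hfam : ∀ w : Q, χ w ∈ Fam P (S : Set (Pr F)) := by
    intro w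
    refine ⟨?_, fun s hs => hχS w s hs⟩
    rw [hχT w]
    intro v hv
    simp only [Finset.coe_insert, Finset.coe_singleton, Set.mem_insert_iff,
      Set.mem_singleton_iff] at hv
    rcases hv with rfl | rfl
    · exact hv0P.1
    · exact hQP _ w.2
  let g : Q → Fam P (S : Set (Pr F)) := fun w => ⟨χ w, hfam w⟩
  have hinj : Function.Injective g := by
    intro w w' h
    have h4 : χ w = χ w' := congrArg Subtype.val h
    have h5 : ({v0, w.1} : Finset (Pr F)) = {v0, w'.1} := by
      rw [← hχT w, ← hχT w', h4]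
    have h6 : w.1 ∈ ({v0, w'.1} : Finset (Pr F)) := by
      rw [← h5]
      simp
    rw [Finset.mem_insert, Finset.mem_singleton] at h6
    rcases h6 with h6 | h6
    · exact absurd h6 w.2.2
    · exact Subtype.ext h6
  have hle := ENNReal.tsum_comp_le_tsum_of_injective hinj
    (fun χ : Fam P (S : Set (Pr F)) => ENNReal.ofReal ((χ.1.cond : ℝ) ^ (-1 : ℝ)))
  have hterm : ∀ w : Q, ENNReal.ofReal (((g w).1.cond : ℝ) ^ (-1 : ℝ)) = f v0 * f w := by
    intro w
    have hne0 : v0 ≠ w.1 := fun h => w.2.2 h.symm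
    have h4 : (g w).1.cond = nm v0 * nm w.1 := by
      show (χ w).cond = _
      unfold QChar.cond
      rw [hχT w, Finset.prod_pair hne0]
    rw [h4]
    show _ = ENNReal.ofReal _ * ENNReal.ofReal _
    rw [← ENNReal.ofReal_mul (by positivity), Nat.cast_mul,
      Real.mul_rpow (by positivity) (by positivity)]
  have hsum : ∑' w : Q, ENNReal.ofReal (((g w).1.cond : ℝ) ^ (-1 : ℝ)) = ⊤ := by
    rw [tsum_congr hterm, ENNReal.tsum_mul_left, hQ, ENNReal.mul_top]
    have h4 : (0 : ℝ) < (nm v0 : ℝ) := by exact_mod_cast hpos v0 hv0P.1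
    exact (ENNReal.ofReal_pos.2 (Real.rpow_pos_of_pos h4 _)).ne'
  rw [← top_le_iff, ← hsum]
  exact hle

end

end Pool.Agent.Lib.MP_50bb2e_nt.PP
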