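import Pool.Agent.Lib.MP_50bb2e_nt.PP.Iface

/-!
MP_50bb2e_nt, board PP, row EXT: existence of quadratic ray class characters with given
conductor and given behaviour at finitely many primes (linear algebra over `F_2`).
-/

open IsDedekindDomain NumberField UniqueFactorizationMonoid

namespace Pool.Agent.Lib.MP_50bb2e_nt.PP

namespace ExtRow

noncomputable section

variable {F : Type} [Field F] [NumberField F]

/-- sign of a residue modulo 2 -/
def sgn (t : ZMod 2) : ℤ := if t = 0 then 1 else -1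

theorem sgn_add : ∀ a b : ZMod 2, sgn (a + b) = sgn a * sgn b := by
  unfold sgn; decide

theorem sgn_cases (t : ZMod 2) : sgn t = 1 ∨ sgn t = -1 := by
  unfold sgn; split_ifs <;> simp

open Classical in
/-- parity of the exponents -/
def O (a : Ideal (𝓞 F)) : Pr F → ZMod 2 :=
  fun v => (Multiset.count v.asIdeal (normalizedFactors a) : ZMod 2)

theorem O_one : O (1 : Ideal (𝓞 F)) = 0 := by
  funext v
  show ((Multiset.count v.asIdeal (normalizedFactors (1 : Ideal (𝓞 F))) : ℕ) : ZMod 2) = 0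
  rw [normalizedFactors_one]
  simp

theorem O_mul {a b : Ideal (𝓞 F)} (ha : a ≠ 0) (hb : b ≠ 0) : O (a * b) = O a + O b := by
  funext v
  simp [O, normalizedFactors_mul ha hb, Multiset.count_add]

theorem O_prime_self (v : Pr F) : O v.asIdeal v = 1 := by
  have h : normalizedFactors v.asIdeal = {v.asIdeal} := by
    rw [normalizedFactors_irreducible v.irreducible, normalize_eq]
  simp [O, h]

theorem O_prime_ne {v u : Pr F} (hu : u ≠ v) : O v.asIdeal u = 0 := by
  have h : normalizedFactors v.asIdeal = {v.asIdeal} := by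
    rw [normalizedFactors_irreducible v.irreducible, normalize_eq]
  have hne : u.asIdeal ≠ v.asIdeal := fun e => hu (HeightOneSpectrum.ext e)
  simp [O, h, hne]

theorem prod_ne_zero (E : Finset (Pr F)) : (∏ v ∈ E, v.asIdeal) ≠ 0 :=
  Finset.prod_ne_zero_iff.2 fun v _ => v.ne_bot

theorem O_prod (E : Finset (Pr F)) : ∀ v ∈ E, O (∏ v ∈ E, v.asIdeal) v = 1 := by
  classical
  induction E using Finset.induction_on with
  | empty => simp
  | insert u E hu ih =>
    intro v hv
    rw [Finset.prod_insert hu, O_mul u.ne_bot (prod_ne_zero E), Pi.add_apply]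
    by_cases hvu : v = u
    · subst hvu
      have : ∀ E : Finset (Pr F), v ∉ E → O (∏ w ∈ E, w.asIdeal) v = 0 := by
        intro E
        induction E using Finset.induction_on with
        | empty => intro _; simpa using congrFun (O_one (F := F)) v
        | insert w E hw ih =>
          intro hv
          rw [Finset.prod_insert hw, O_mul w.ne_bot (prod_ne_zero E), Pi.add_apply,
            ih (fun h => hv (Finset.mem_insert_of_mem h)),
            O_prime_ne (fun e => hv (by rw [e]; exact Finset.mem_insert_self _ _)), add_zero]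
      rw [this E hu, O_prime_self, add_zero]
    · rw [O_prime_ne hvu, ih v ((Finset.mem_insert.1 hv).resolve_left hvu), zero_add]

/-- every ideal is a square times a product of distinct primes -/
theorem exists_sq (a : Ideal (𝓞 F)) (ha : a ≠ 0) :
    ∃ (b : Ideal (𝓞 F)) (E : Finset (Pr F)), a = b ^ 2 * ∏ v ∈ E, v.asIdeal := by
  classical
  induction a using UniqueFactorizationMonoid.induction_on_prime with
  | h₁ => exact absurd rfl ha
  | h₂ x hx =>
    rw [Ideal.isUnit_iff] at hx
    exact ⟨1, ∅, by rw [hx, Finset.prod_empty, one_pow, one_mul, Ideal.one_eq_top]⟩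
  | h₃ a p ha0 hp ih =>
    obtain ⟨b, E, h⟩ := ih ha0
    let v : Pr F := ⟨p, Ideal.isPrime_of_prime hp, hp.ne_zero⟩
    have hv : v.asIdeal = p := rfl
    by_cases hvE : v ∈ E
    · refine ⟨b * p, E.erase v, ?_⟩
      rw [h, ← Finset.mul_prod_erase E (fun v : Pr F => v.asIdeal) hvE]
      rw [hv]; ring
    · refine ⟨b, insert v E, ?_⟩
      rw [h, Finset.prod_insert hvE, hv]; ring

theorem cop_mul {T : Finset (Pr F)} {a b : Ideal (𝓞 F)} :
    Cop T (a * b) ↔ Cop T a ∧ Cop T b := by
  constructor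
  · intro h
    exact ⟨fun v hv hc => h v hv (Ideal.mul_le_left.trans hc),
      fun v hv hc => h v hv (Ideal.mul_le_right.trans hc)⟩
  · rintro ⟨h1, h2⟩ v hv hc
    rcases (v.isPrime.mul_le).1 hc with h | h
    · exact h1 v hv h
    · exact h2 v hv h

theorem cop_top {T : Finset (Pr F)} : Cop T (⊤ : Ideal (𝓞 F)) := by
  intro v _ h
  exact v.isPrime.ne_top (top_le_iff.1 h)

theorem cop_span {T : Finset (Pr F)} {α : 𝓞 F} :
    Cop T (Ideal.span {α}) ↔ ∀ v ∈ T, α ∉ v.asIdeal := by
  unfold Cop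
  simp only [Ideal.span_singleton_le_iff_mem]

omit [NumberField F] in
theorem span_ne {α : 𝓞 F} (h : α ≠ 0) : (Ideal.span {α} : Ideal (𝓞 F)) ≠ 0 := by
  rw [Ideal.zero_eq_bot, Ne, Ideal.span_singleton_eq_bot]
  exact h

/-- the relations -/
def G (hqs : QsStatement) (S T : Finset (Pr F)) : Submodule (ZMod 2) ((Pr F → ZMod 2) × ZMod 2) where
  carrier := {x | ∃ α : 𝓞 F, α ≠ 0 ∧ (∀ v ∈ T, α ∉ v.asIdeal) ∧ ∃ e : Pr F → ZMod 2,
    (∀ v, v ∉ S → e v = 0) ∧ x.1 = O (Ideal.span {α}) + e ∧ sgn x.2 = ∏ v ∈ T, qs v α}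
  zero_mem' := by
    refine ⟨1, one_ne_zero, fun v _ h => v.isPrime.ne_top ((Ideal.eq_top_iff_one _).2 h), 0,
      fun _ _ => rfl, ?_, ?_⟩
    · rw [Ideal.span_singleton_one, ← Ideal.one_eq_top, O_one]; simp
    · have : ∀ v : Pr F, qs v (1 : 𝓞 F) = 1 := by
        intro v
        unfold qs
        rw [if_pos ⟨1, by simp⟩]
      simp [this, sgn]
  add_mem' := by
    rintro x y ⟨α, hα, hαT, e, he, hx, hx'⟩ ⟨β, hβ, hβT, f, hf, hy, hy'⟩
    refine ⟨α * β, mul_ne_zero hα hβ, fun v hv h => ?_, e + f, fun v hv => ?_, ?_, ?_⟩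
    · rcases v.isPrime.mem_or_mem h with h | h
      · exact hαT v hv h
      · exact hβT v hv h
    · simp [he v hv, hf v hv]
    · rw [← Ideal.span_singleton_mul_span_singleton, O_mul (span_ne hα) (span_ne hβ),
        Prod.fst_add, hx, hy]
      abel
    · rw [Prod.snd_add, sgn_add, hx', hy', ← Finset.prod_mul_distrib]
      exact Finset.prod_congr rfl fun v hv => ((hqs F v).1 α β (hαT v hv) (hβT v hv)).symm
  smul_mem' := by
    intro c x hx
    have hc : c = 0 ∨ c = 1 := by revert c; decide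
    rcases hc with rfl | rfl
    · rw [zero_smul]
      refine ⟨1, one_ne_zero, fun v _ h => v.isPrime.ne_top ((Ideal.eq_top_iff_one _).2 h), 0,
        fun _ _ => rfl, ?_, ?_⟩
      · rw [Ideal.span_singleton_one, ← Ideal.one_eq_top, O_one]; simp
      · have : ∀ v : Pr F, qs v (1 : 𝓞 F) = 1 := by
          intro v
          unfold qs
          rw [if_pos ⟨1, by simp⟩]
        simp [this, sgn]
    · rw [one_smul]; exact hx

end

end ExtRow

open ExtRow

theorem ext_proof (hcrt : CrtStatement) (hqs : QsStatement) : ExtStatement := by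
  intro F _ _ S T hST hodd hrel
  classical
  have hno : ((0 : Pr F → ZMod 2), (1 : ZMod 2)) ∉ G hqs S T := by
    rintro ⟨α, hα, hαT, e, he, hx, hx'⟩
    obtain ⟨b, E, hbE⟩ := exists_sq (Ideal.span {α}) (span_ne hα)
    have hb : b ≠ 0 := by
      rintro rfl
      exact span_ne hα (by rw [hbE]; simp)
    have hES : E ⊆ S := by
      intro v hv
      by_contra hvS
      have h1 := congrFun hx v
      rw [Pi.add_apply, he v hvS, hbE, O_mul (pow_ne_zero 2 hb) (prod_ne_zero E), Pi.add_apply,
        O_prod E v hv, pow_two, O_mul hb hb, Pi.add_apply, CharTwo.add_self_eq_zero] at h1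
      simp at h1
    have h2 := hrel α b E hα hES hbE (cop_span.2 hαT)
    rw [h2] at hx'
    simp [sgn] at hx'
  obtain ⟨f, hf1, hf2⟩ := Submodule.exists_le_ker_of_notMem hno
  have hf : f ((0 : Pr F → ZMod 2), (1 : ZMod 2)) = 1 := by
    have : ∀ x : ZMod 2, x ≠ 0 → x = 1 := by decide
    exact this _ hf1
  have hG : ∀ x ∈ G hqs S T, f x = 0 := fun x hx => hf2 hx
  have hqs1 : ∀ (v : Pr F) (α : 𝓞 F), α - 1 ∈ v.asIdeal → qs v α = 1 := by
    intro v α h
    unfold qs
    rw [if_pos ⟨1, by simpa using h⟩]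
  have hnot : ∀ (v : Pr F) (α : 𝓞 F), α - 1 ∈ v.asIdeal → α ∉ v.asIdeal := by
    intro v α h h'
    refine v.isPrime.ne_top ((Ideal.eq_top_iff_one _).2 ?_)
    have := v.asIdeal.sub_mem h' h
    simpa using this
  let chi : Ideal (𝓞 F) → ℤ := fun a => if a ≠ 0 ∧ Cop T a then sgn (f (O a, 0)) else 0
  have chi_pos : ∀ a : Ideal (𝓞 F), a ≠ 0 → Cop T a → chi a = sgn (f (O a, 0)) := by
    intro a h1 h2
    exact if_pos ⟨h1, h2⟩
  refine ⟨⟨T, chi, ?_, ?_, ?_, ?_, ?_, ?_, ?_⟩, rfl, ?_⟩
  · exact if_neg (by simp)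
  · rw [chi_pos _ (by simp) cop_top, ← Ideal.one_eq_top, O_one]
    have : f ((0 : Pr F → ZMod 2), (0 : ZMod 2)) = 0 := by
      have := map_zero f
      exact this
    rw [this]
    simp [sgn]
  · intro a b
    by_cases ha : a ≠ 0 ∧ Cop T a
    · by_cases hb : b ≠ 0 ∧ Cop T b
      · rw [chi_pos _ (mul_ne_zero ha.1 hb.1) (cop_mul.2 ⟨ha.2, hb.2⟩), chi_pos _ ha.1 ha.2,
          chi_pos _ hb.1 hb.2, ← sgn_add, ← map_add, O_mul ha.1 hb.1]
        simp
      · have h1 : chi b = 0 := if_neg hb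
        have h2 : chi (a * b) = 0 := by
          refine if_neg fun h => hb ⟨?_, (cop_mul.1 h.2).2⟩
          rintro rfl
          exact h.1 (mul_zero a)
        rw [h1, h2, mul_zero]
    · have h1 : chi a = 0 := if_neg ha
      have h2 : chi (a * b) = 0 := by
        refine if_neg fun h => ha ⟨?_, (cop_mul.1 h.2).1⟩
        rintro rfl
        exact h.1 (zero_mul b)
      rw [h1, h2, zero_mul]
  · intro a ha hT
    rw [chi_pos a ha hT]
    exact sgn_cases _
  · intro a h
    exact if_neg fun h' => h h'.2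
  · intro α hα h
    have hT : ∀ v ∈ T, α ∉ v.asIdeal := fun v hv => hnot v α (h v hv)
    rw [chi_pos _ (span_ne hα) (cop_span.2 hT), hG]
    · simp [sgn]
    · refine ⟨α, hα, hT, 0, fun _ _ => rfl, by simp, ?_⟩
      rw [Finset.prod_eq_one fun v hv => hqs1 v α (h v hv)]
      simp [sgn]
  · intro v hv
    obtain ⟨α, hα, hqα⟩ := (hqs F v).2.2.1 (hodd v hv)
    obtain ⟨β, hβ0, hβ⟩ := hcrt F T (fun u => if u = v then α else 1)
    have h1 : β - α ∈ v.asIdeal := by simpa using hβ v hv
    have h2 : ∀ u ∈ T, u ≠ v → β - 1 ∈ u.asIdeal := fun u hu huv => by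
      simpa [huv] using hβ u hu
    have h3 : β ∉ v.asIdeal := by
      intro h
      apply hα
      have := v.asIdeal.sub_mem h h1
      simpa using this
    have h4 : qs v β = -1 := by rw [(hqs F v).2.1 β α h1, hqα]
    have hT : ∀ u ∈ T, β ∉ u.asIdeal := by
      intro u hu
      by_cases huv : u = v
      · rw [huv]; exact h3
      · exact hnot u β (h2 u hu huv)
    refine ⟨β, h3, h2, ?_⟩
    rw [chi_pos _ (span_ne hβ0) (cop_span.2 hT)]
    have h5 : ((O (Ideal.span {β}) : Pr F → ZMod 2), (1 : ZMod 2)) ∈ G hqs S T := by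
      refine ⟨β, hβ0, hT, 0, fun _ _ => rfl, by simp, ?_⟩
      rw [← Finset.mul_prod_erase T _ hv, h4, Finset.prod_eq_one]
      · simp [sgn]
      · intro u hu
        exact hqs1 u β (h2 u (Finset.mem_of_mem_erase hu) (Finset.ne_of_mem_erase hu))
    have h6 := hG _ h5
    have h7 : ((O (Ideal.span {β}) : Pr F → ZMod 2), (1 : ZMod 2)) =
        (O (Ideal.span {β}), 0) + (0, 1) := by simp
    rw [h7, map_add, hf] at h6
    have h8 : f (O (Ideal.span {β}), 0) = 1 := by
      have : ∀ x : ZMod 2, x + 1 = 0 → x = 1 := by decide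
      exact this _ h6
    rw [h8]
    simp [sgn]
  · intro s hs
    have hcop : Cop T s.asIdeal := by
      intro v hv h
      have : s.asIdeal = v.asIdeal :=
        s.isMaximal.eq_of_le v.isPrime.ne_top h
      have hsv : s = v := HeightOneSpectrum.ext this
      exact (Finset.disjoint_left.1 hST hs) (hsv ▸ hv)
    show chi s.asIdeal = 1
    rw [chi_pos _ s.ne_bot hcop, hG]
    · simp [sgn]
    · refine ⟨1, one_ne_zero, fun v _ h => v.isPrime.ne_top ((Ideal.eq_top_iff_one _).2 h),
        O s.asIdeal, fun v hv => O_prime_ne (fun e => hv (e ▸ hs)), ?_, ?_⟩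
      · rw [Ideal.span_singleton_one, ← Ideal.one_eq_top, O_one, zero_add]
      · rw [Finset.prod_eq_one fun v _ => hqs1 v 1 (by simp)]
        simp [sgn]

end Pool.Agent.Lib.MP_50bb2e_nt.PP
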