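import Pool.Agent.Lib.MP_50bb2e_nt.PP.Iface

/-!
MP_50bb2e_nt, board PP, row FIN: bounded number of characters with given conductor.
-/

open IsDedekindDomain NumberField

namespace Pool.Agent.Lib.MP_50bb2e_nt.PP

theorem fin_unram (F : Type) [Field F] [NumberField F] :
    {χ : QChar F | χ.T = ∅}.Finite := by
  classical
  have hs := ClassGroup.mk0_surjective (R := 𝓞 F)
  let r : ClassGroup (𝓞 F) → nonZeroDivisors (Ideal (𝓞 F)) := fun c => (hs c).choose
  have hr : ∀ c, ClassGroup.mk0 (r c) = c := fun c => (hs c).choose_spec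
  let Φ : QChar F → (ClassGroup (𝓞 F) → Prop) := fun χ c => χ.chi (r c : Ideal (𝓞 F)) = 1
  have hc : ∀ a : Ideal (𝓞 F), Cop (∅ : Finset (Pr F)) a := by
    intro a v hv
    simp at hv
  have hcl : ∀ χ : QChar F, χ.T = ∅ → ∀ a : nonZeroDivisors (Ideal (𝓞 F)),
      χ.chi (a : Ideal (𝓞 F)) = χ.chi (r (ClassGroup.mk0 a) : Ideal (𝓞 F)) := by
    intro χ hχ a
    have h : ClassGroup.mk0 a = ClassGroup.mk0 (r (ClassGroup.mk0 a)) := (hr _).symm
    obtain ⟨x, y, hx, hy, hxy⟩ := ClassGroup.mk0_eq_mk0_iff.1 h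
    have e1 : χ.chi (Ideal.span {x}) = 1 := χ.ray x hx (by intro v hv; simp [hχ] at hv)
    have e2 : χ.chi (Ideal.span {y}) = 1 := χ.ray y hy (by intro v hv; simp [hχ] at hv)
    have e3 := congrArg χ.chi hxy
    rw [χ.mul, χ.mul, e1, e2, one_mul, one_mul] at e3
    exact e3
  have hpm : ∀ χ : QChar F, χ.T = ∅ → ∀ a : nonZeroDivisors (Ideal (𝓞 F)),
      χ.chi (a : Ideal (𝓞 F)) = 1 ∨ χ.chi (a : Ideal (𝓞 F)) = -1 := by
    intro χ hχ a
    exact χ.val _ (nonZeroDivisors.coe_ne_zero a) (hχ ▸ hc _)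
  refine Set.Finite.of_injOn (f := Φ) (t := Set.univ) (fun _ _ => Set.mem_univ _) ?_
    (Set.toFinite _)
  intro χ hχ ψ hψ h
  have hχ' : χ.T = ∅ := hχ
  have hψ' : ψ.T = ∅ := hψ
  have hr' : ∀ c, χ.chi (r c : Ideal (𝓞 F)) = ψ.chi (r c : Ideal (𝓞 F)) := by
    intro c
    have h1 : (χ.chi (r c : Ideal (𝓞 F)) = 1) ↔ (ψ.chi (r c : Ideal (𝓞 F)) = 1) :=
      iff_of_eq (congrFun h c)
    rcases hpm χ hχ' (r c) with e | e <;> rcases hpm ψ hψ' (r c) with e' | e'
    · rw [e, e']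
    · exact absurd (h1.1 e) (by rw [e']; norm_num)
    · exact absurd (h1.2 e') (by rw [e]; norm_num)
    · rw [e, e']
  apply QChar.ext
  · rw [hχ', hψ']
  · funext a
    by_cases ha : a = ⊥
    · rw [ha, χ.bot, ψ.bot]
    · have ha' : a ∈ nonZeroDivisors (Ideal (𝓞 F)) := mem_nonZeroDivisors_iff_ne_zero.2 ha
      have h1 := hcl χ hχ' ⟨a, ha'⟩
      have h2 := hcl ψ hψ' ⟨a, ha'⟩
      simp only at h1 h2
      rw [h1, h2, hr']

theorem fin_mem {F : Type} [Field F] [NumberField F] (u : Pr F) (x : 𝓞 F)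
    (h : x - 1 ∈ u.asIdeal) : x ∉ u.asIdeal := by
  intro hx
  have := u.asIdeal.sub_mem hx h
  rw [sub_sub_cancel] at this
  exact u.isPrime.ne_top ((Ideal.eq_top_iff_one _).2 this)

theorem fin (h1 : CrtStatement) (h2 : RayStatement) (h3 : InjStatement) (h4 : PrimStatement)
    (h5 : LocStatement) : FinStatement := by
  classical
  intro F _ _
  refine ⟨{χ : QChar F | χ.T = ∅}.ncard, ?_⟩
  intro T
  by_cases hne : ({χ : QChar F | χ.T = T}).Nonempty
  swap
  · rw [Set.not_nonempty_iff_eq_empty] at hne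
    rw [hne]
    simp
  obtain ⟨χ, hχ⟩ := hne
  have hχT : χ.T = T := hχ
  choose ρ hρT hρ using fun ψ : QChar F => h4 F χ ψ
  have hempty : ∀ ψ : QChar F, ψ.T = T → (ρ ψ).T = ∅ := by
    intro ψ hψ
    rw [Finset.eq_empty_iff_forall_notMem]
    intro v hv
    have hvT : v ∈ T := by
      rcases hρT ψ v hv with h | h
      · rwa [hχT] at h
      · rwa [hψ] at h
    obtain ⟨α, a1, a2, a3⟩ := (ρ ψ).ram v hv
    obtain ⟨β, b0, b1⟩ := h1 F (T ∪ (ρ ψ).T) (fun u => if u = v then α else 1)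
    have c1 : β - α ∈ v.asIdeal := by
      simpa using b1 v (Finset.mem_union_left _ hvT)
    have c2 : ∀ u ∈ T ∪ (ρ ψ).T, u ≠ v → β - 1 ∈ u.asIdeal := by
      intro u hu huv
      simpa [huv] using b1 u hu
    have c3 : β ∉ v.asIdeal := by
      intro h
      apply a1
      have := v.asIdeal.sub_mem h c1
      rwa [sub_sub_cancel] at this
    have c4 : ∀ u ∈ T ∪ (ρ ψ).T, β ∉ u.asIdeal := by
      intro u hu
      by_cases huv : u = v
      · rw [huv]; exact c3
      · exact fin_mem u β (c2 u hu huv)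
    have hα0 : α ≠ 0 := fun h => a1 (h ▸ v.asIdeal.zero_mem)
    have d1 : (ρ ψ).chi (Ideal.span {α}) = (ρ ψ).chi (Ideal.span {β}) := by
      refine h2 F (ρ ψ) α β hα0 b0 ?_
      intro u hu
      by_cases huv : u = v
      · subst huv
        refine ⟨a1, ?_⟩
        have := u.asIdeal.neg_mem c1
        rwa [neg_sub] at this
      · refine ⟨fin_mem u α (a2 u hu huv), ?_⟩
        have e : α - β = (α - 1) - (β - 1) := by ring
        rw [e]
        exact u.asIdeal.sub_mem (a2 u hu huv) (c2 u (Finset.mem_union_right _ hu) huv)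
    have l1 := h5 F χ v β (by rw [hχT]; exact hvT) c3
      (fun u hu huv => c2 u (Finset.mem_union_left _ (hχT ▸ hu)) huv)
    have l2 := h5 F ψ v β (by rw [hψ]; exact hvT) c3
      (fun u hu huv => c2 u (Finset.mem_union_left _ (hψ ▸ hu)) huv)
    have hbne : (Ideal.span {β} : Ideal (𝓞 F)) ≠ ⊥ := by
      rw [Ne, Ideal.span_singleton_eq_bot]; exact b0
    have hcop : Cop T (Ideal.span {β}) := by
      intro u hu h
      exact c4 u (Finset.mem_union_left _ hu) ((Ideal.span_singleton_le_iff_mem _).1 h)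
    have v1 : χ.chi (Ideal.span {β}) = 1 ∨ χ.chi (Ideal.span {β}) = -1 :=
      χ.val _ hbne (by rw [hχT]; exact hcop)
    have v2 : ψ.chi (Ideal.span {β}) = 1 ∨ ψ.chi (Ideal.span {β}) = -1 :=
      ψ.val _ hbne (by rw [hψ]; exact hcop)
    have n1 : χ.chi (Ideal.span {β}) ≠ 0 := by rcases v1 with h | h <;> rw [h] <;> norm_num
    have n2 : ψ.chi (Ideal.span {β}) ≠ 0 := by rcases v2 with h | h <;> rw [h] <;> norm_num
    have e := hρ ψ (Ideal.span {β}) n1 n2
    rw [← d1, a3] at e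
    rcases v1 with h | h
    · have h' := l2.2 (l1.1 h)
      rw [h, h'] at e
      norm_num at e
    · rcases v2 with h' | h'
      · have h'' := l1.2 (l2.1 h')
        rw [h] at h''
        norm_num at h''
      · rw [h, h'] at e
        norm_num at e
  have hmaps : Set.MapsTo ρ {ψ : QChar F | ψ.T = T} {χ : QChar F | χ.T = ∅} := by
    intro ψ hψ
    exact hempty ψ hψ
  have hinj : Set.InjOn ρ {ψ : QChar F | ψ.T = T} := by
    intro ψ hψ ψ' hψ' h
    have hψT : ψ.T = T := hψ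
    have hψT' : ψ'.T = T := hψ'
    refine h3 F ψ ψ' T ?_
    intro a ha hc n1 n2
    have v1 : χ.chi a = 1 ∨ χ.chi a = -1 := χ.val _ ha (by rw [hχT]; exact hc)
    have n0 : χ.chi a ≠ 0 := by rcases v1 with h | h <;> rw [h] <;> norm_num
    have e1 := hρ ψ a n0 n1
    have e2 := hρ ψ' a n0 n2
    rw [h, e2] at e1
    exact (mul_left_cancel₀ n0 e1).symm
  refine ⟨Set.Finite.of_injOn hmaps hinj (fin_unram F), ?_⟩
  exact Set.ncard_le_ncard_of_injOn ρ hmaps hinj (fin_unram F)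

end Pool.Agent.Lib.MP_50bb2e_nt.PP
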