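import Pool.Agent.Lib.MP_50bb2e_nt.PP.Iface

/-!
MP_50bb2e_nt, board PP, row INJ (helper68): a primitive character is determined by its values
on the ideals coprime to a finite set of primes.
-/

open IsDedekindDomain NumberField Filter Topology

namespace Pool.Agent.Lib.MP_50bb2e_nt.PP

open Classical in
private lemma inj_sub (h1 : CrtStatement) (h2 : RayStatement) (F : Type) [Field F]
    [NumberField F] (χ ψ : QChar F) (T : Finset (Pr F))
    (h : ∀ a : Ideal (𝓞 F), a ≠ ⊥ → Cop T a → χ.chi a ≠ 0 → ψ.chi a ≠ 0 →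
      χ.chi a = ψ.chi a) : χ.T ⊆ ψ.T := by
  intro v hv
  by_contra hvψ
  obtain ⟨α, hαv, hα1, hαχ⟩ := χ.ram v hv
  have hα0 : α ≠ 0 := by
    rintro rfl
    exact hαv (zero_mem _)
  -- `1` is in no prime
  have one_not : ∀ u : Pr F, (1 : 𝓞 F) ∉ u.asIdeal := fun u hu =>
    u.isPrime.ne_top ((Ideal.eq_top_iff_one _).2 hu)
  have not_of_sub : ∀ (u : Pr F) (x : 𝓞 F), x - 1 ∈ u.asIdeal → x ∉ u.asIdeal := by
    intro u x hx hx'
    apply one_not u
    have := sub_mem hx' hx
    simpa using this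
  obtain ⟨β, hβ0, hβ⟩ := h1 F (χ.T ∪ ψ.T ∪ T) (fun u => if u = v then α else 1)
  have hβv : β - α ∈ v.asIdeal := by
    have := hβ v (by simp [hv])
    simpa using this
  have hβu : ∀ u ∈ χ.T ∪ ψ.T ∪ T, u ≠ v → β - 1 ∈ u.asIdeal := by
    intro u hu huv
    have := hβ u hu
    simpa [huv] using this
  have hβnv : β ∉ v.asIdeal := by
    intro hb
    apply hαv
    have := sub_mem hb hβv
    simpa using this
  have hχβ : χ.chi (Ideal.span {β}) = -1 := by
    rw [← hαχ]
    symm
    apply h2 F χ α β hα0 hβ0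
    intro u hu
    by_cases huv : u = v
    · subst huv
      refine ⟨hαv, ?_⟩
      have := neg_mem hβv
      simpa using this
    · refine ⟨not_of_sub u α (hα1 u hu huv), ?_⟩
      have := sub_mem (hα1 u hu huv) (hβu u (by simp [hu]) huv)
      simpa using this
  have hψβ : ψ.chi (Ideal.span {β}) = 1 := by
    apply ψ.ray β hβ0
    intro u hu
    apply hβu u (by simp [hu])
    rintro rfl
    exact hvψ hu
  have hne : Ideal.span {β} ≠ (⊥ : Ideal (𝓞 F)) := by
    rw [Ne, Ideal.span_singleton_eq_bot]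
    exact hβ0
  have hcop : Cop T (Ideal.span {β}) := by
    intro u hu hle
    have hmem : β ∈ u.asIdeal := (Ideal.span_singleton_le_iff_mem _).1 hle
    by_cases huv : u = v
    · subst huv
      exact hβnv hmem
    · exact not_of_sub u β (hβu u (by simp [hu]) huv) hmem
  have := h _ hne hcop (by rw [hχβ]; decide) (by rw [hψβ]; decide)
  rw [hχβ, hψβ] at this
  exact absurd this (by decide)

theorem inj (h1 : CrtStatement) (h2 : RayStatement) (h3 : ApprStatement) : InjStatement := by
  intro F _ _ χ ψ T h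
  have hT : χ.T = ψ.T := by
    apply Finset.Subset.antisymm
    · exact inj_sub h1 h2 F χ ψ T h
    · exact inj_sub h1 h2 F ψ χ T (fun a ha hc h1' h2' => (h a ha hc h2' h1').symm)
  have hchi : ∀ a, χ.chi a = ψ.chi a := by
    intro a
    by_cases ha : a = ⊥
    · subst ha
      rw [χ.bot, ψ.bot]
    by_cases hc : Cop χ.T a
    · obtain ⟨γ, b, hγ0, hγ, hγ1, hb⟩ := h3 F a χ.T T ha hc
      have e1 : χ.chi a * χ.chi b = 1 := by
        rw [← χ.mul, ← hγ]
        exact χ.ray γ hγ0 hγ1
      have e2 : ψ.chi a * ψ.chi b = 1 := by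
        rw [← ψ.mul, ← hγ]
        exact ψ.ray γ hγ0 (by rw [← hT]; exact hγ1)
      have hb0 : b ≠ ⊥ := by
        rintro rfl
        apply hγ0
        rw [Ideal.mul_bot, Ideal.span_singleton_eq_bot] at hγ
        exact hγ
      have n1 : χ.chi b ≠ 0 := right_ne_zero_of_mul_eq_one e1
      have n2 : ψ.chi b ≠ 0 := right_ne_zero_of_mul_eq_one e2
      have e3 := h b hb0 hb n1 n2
      apply mul_right_cancel₀ n1
      rw [e1, e3, e2]
    · rw [χ.zero a hc, ψ.zero a (by rw [← hT]; exact hc)]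
  exact QChar.ext hT (funext hchi)

end Pool.Agent.Lib.MP_50bb2e_nt.PP
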