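import Pool.Agent.Lib.MP_50bb2e_nt.PP.Iface

/-!
MP_50bb2e_nt, board PP, row LOC: the local component at a ramified prime is the quadratic
residue symbol.
-/

open IsDedekindDomain NumberField

namespace Pool.Agent.Lib.MP_50bb2e_nt.PP

theorem loc_fin {F : Type} [Field F] [NumberField F] (v : Pr F) (a b : 𝓞 F)
    (ha : a ∉ v.asIdeal) (hb : b ∉ v.asIdeal)
    (ha' : ¬ ∃ β : 𝓞 F, a - β ^ 2 ∈ v.asIdeal) (hb' : ¬ ∃ β : 𝓞 F, b - β ^ 2 ∈ v.asIdeal) :
    ∃ β : 𝓞 F, a * b - β ^ 2 ∈ v.asIdeal := by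
  classical
  haveI : v.asIdeal.IsMaximal := v.isMaximal
  letI : Field (𝓞 F ⧸ v.asIdeal) := Ideal.Quotient.field v.asIdeal
  haveI : Finite (𝓞 F ⧸ v.asIdeal) := Ideal.finiteQuotientOfFreeOfNeBot v.asIdeal v.ne_bot
  letI : Fintype (𝓞 F ⧸ v.asIdeal) := Fintype.ofFinite _
  set q := Ideal.Quotient.mk v.asIdeal with hq
  have key : ∀ x : 𝓞 F, (∃ β : 𝓞 F, x - β ^ 2 ∈ v.asIdeal) ↔ IsSquare (q x) := by
    intro x
    constructor
    · rintro ⟨β, hβ⟩
      refine ⟨q β, ?_⟩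
      rw [← map_mul, ← pow_two]
      exact Ideal.Quotient.eq.2 hβ
    · rintro ⟨y, hy⟩
      obtain ⟨β, rfl⟩ := Ideal.Quotient.mk_surjective y
      refine ⟨β, Ideal.Quotient.eq.1 ?_⟩
      rw [pow_two, map_mul]
      exact hy
  have nz : ∀ x : 𝓞 F, x ∉ v.asIdeal → q x ≠ 0 := by
    intro x hx h
    exact hx (Ideal.Quotient.eq_zero_iff_mem.1 h)
  rw [key] at ha' hb' ⊢
  have h1 := quadraticChar_neg_one_iff_not_isSquare.2 ha'
  have h2 := quadraticChar_neg_one_iff_not_isSquare.2 hb'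
  have h3 : quadraticChar (𝓞 F ⧸ v.asIdeal) (q (a * b)) = 1 := by
    rw [map_mul, map_mul, h1, h2]; norm_num
  exact (quadraticChar_one_iff_isSquare (by
    rw [map_mul]; exact mul_ne_zero (nz a ha) (nz b hb))).1 h3

theorem loc (h1 : CrtStatement) (h2 : RayStatement) : LocStatement := by
  classical
  have sq : ∀ (F : Type) [Field F] [NumberField F] (χ : QChar F) (v : Pr F) (α : 𝓞 F),
      v ∈ χ.T → α ∉ v.asIdeal → (∀ u ∈ χ.T, u ≠ v → α - 1 ∈ u.asIdeal) →
      (∃ β : 𝓞 F, α - β ^ 2 ∈ v.asIdeal) → χ.chi (Ideal.span {α}) = 1 := by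
    intro F _ _ χ v α hv hα hα1 ⟨β, hβ⟩
    have hβv : β ∉ v.asIdeal := by
      intro h
      apply hα
      have := v.asIdeal.add_mem hβ (Ideal.pow_mem_of_mem _ h 2 (by norm_num))
      simpa using this
    obtain ⟨β', hβ'0, hβ'⟩ := h1 F χ.T (fun u => if u = v then β else 1)
    have e1 : β' - β ∈ v.asIdeal := by simpa using hβ' v hv
    have e2 : ∀ u ∈ χ.T, u ≠ v → β' - 1 ∈ u.asIdeal := by
      intro u hu huv
      have := hβ' u hu
      simpa [huv] using this
    have n1 : ∀ u ∈ χ.T, β' ∉ u.asIdeal := by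
      intro u hu h
      by_cases huv : u = v
      · subst huv
        apply hβv
        have := u.asIdeal.sub_mem h e1
        simpa using this
      · have := u.asIdeal.sub_mem h (e2 u hu huv)
        rw [sub_sub_cancel] at this
        exact u.isPrime.ne_top ((Ideal.eq_top_iff_one _).2 this)
    have hα0 : α ≠ 0 := fun h => hα (h ▸ v.asIdeal.zero_mem)
    have n2 : ∀ u ∈ χ.T, α ∉ u.asIdeal ∧ α - β' ^ 2 ∈ u.asIdeal := by
      intro u hu
      by_cases huv : u = v
      · subst huv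
        refine ⟨hα, ?_⟩
        have e3 : α - β' ^ 2 = (α - β ^ 2) - (β' - β) * (β' + β) := by ring
        rw [e3]
        exact u.asIdeal.sub_mem hβ (Ideal.mul_mem_right _ _ e1)
      · refine ⟨?_, ?_⟩
        · intro h
          have := u.asIdeal.sub_mem h (hα1 u hu huv)
          rw [sub_sub_cancel] at this
          exact u.isPrime.ne_top ((Ideal.eq_top_iff_one _).2 this)
        · have e3 : α - β' ^ 2 = (α - 1) - (β' - 1) * (β' + 1) := by ring
          rw [e3]
          exact u.asIdeal.sub_mem (hα1 u hu huv) (Ideal.mul_mem_right _ _ (e2 u hu huv))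
    have e4 := h2 F χ α (β' ^ 2) hα0 (pow_ne_zero 2 hβ'0) n2
    rw [e4, pow_two, ← Ideal.span_singleton_mul_span_singleton, χ.mul]
    have hne : (Ideal.span {β'} : Ideal (𝓞 F)) ≠ ⊥ := by
      rw [Ne, Ideal.span_singleton_eq_bot]; exact hβ'0
    have hc : Cop χ.T (Ideal.span {β'}) := by
      intro u hu h
      exact n1 u hu ((Ideal.span_singleton_le_iff_mem _).1 h)
    rcases χ.val _ hne hc with h | h <;> rw [h] <;> norm_num
  intro F _ _ χ v α hv hα hα1
  refine ⟨fun h => ?_, sq F χ v α hv hα hα1⟩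
  by_contra hns
  obtain ⟨α0, a1, a2, a3⟩ := χ.ram v hv
  have hns0 : ¬ ∃ β : 𝓞 F, α0 - β ^ 2 ∈ v.asIdeal := by
    intro h'
    rw [sq F χ v α0 hv a1 a2 h'] at a3
    norm_num at a3
  have h3 := loc_fin v α α0 hα a1 hns hns0
  have h4 : χ.chi (Ideal.span {α * α0}) = 1 := by
    refine sq F χ v (α * α0) hv ?_ ?_ h3
    · intro h'
      rcases v.isPrime.mem_or_mem h' with h' | h'
      · exact hα h'
      · exact a1 h'
    · intro u hu huv
      have e3 : α * α0 - 1 = (α - 1) * α0 + (α0 - 1) := by ring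
      rw [e3]
      exact u.asIdeal.add_mem (Ideal.mul_mem_right _ _ (hα1 u hu huv)) (a2 u hu huv)
  rw [← Ideal.span_singleton_mul_span_singleton, χ.mul, h, a3] at h4
  norm_num at h4

end Pool.Agent.Lib.MP_50bb2e_nt.PP
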