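import Pool.Agent.Lib.MP_50bb2e_nt.PP.Iface

/-!
MP_50bb2e_nt, board PP, row PRIM (helper56): the product of two primitive quadratic characters is
induced by a primitive character.
-/

open IsDedekindDomain NumberField Filter Topology

namespace Pool.Agent.Lib.MP_50bb2e_nt.PP

namespace PrimAux

variable {F : Type} [Field F] [NumberField F]

/-- a (possibly imprimitive) quadratic character modulo the product of the primes of `T` -/
structure PC (T : Finset (Pr F)) (f : Ideal (𝓞 F) → ℤ) : Prop where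
  bot : f ⊥ = 0
  top : f ⊤ = 1
  mul : ∀ a b, f (a * b) = f a * f b
  val : ∀ a, a ≠ ⊥ → Cop T a → f a = 1 ∨ f a = -1
  zero : ∀ a, ¬ Cop T a → f a = 0
  ray : ∀ α : 𝓞 F, α ≠ 0 → (∀ v ∈ T, α - 1 ∈ v.asIdeal) → f (Ideal.span {α}) = 1

/-- a presentation of the inverse class of `a` by an ideal `b` prime to `T` -/
def Rep (T T' : Finset (Pr F)) (a : Ideal (𝓞 F)) (γ : 𝓞 F) (b : Ideal (𝓞 F)) : Prop :=
  γ ≠ 0 ∧ Ideal.span {γ} = a * b ∧ (∀ v ∈ T', γ - 1 ∈ v.asIdeal) ∧ Cop T b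

theorem cop_mul {T : Finset (Pr F)} {a b : Ideal (𝓞 F)} (ha : Cop T a) (hb : Cop T b) :
    Cop T (a * b) := by
  intro v hv h
  rcases v.isPrime.mul_le.1 h with h | h
  · exact ha v hv h
  · exact hb v hv h

theorem cop_top (T : Finset (Pr F)) : Cop T (⊤ : Ideal (𝓞 F)) := by
  intro v _ h
  exact v.isPrime.ne_top (top_le_iff.1 h)

theorem rep_ne_bot {T T' : Finset (Pr F)} {a : Ideal (𝓞 F)} {γ : 𝓞 F} {b : Ideal (𝓞 F)}
    (h : Rep T T' a γ b) : b ≠ ⊥ := by
  rintro rfl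
  obtain ⟨h1, h2, _, _⟩ := h
  rw [Ideal.mul_bot, Ideal.span_singleton_eq_bot] at h2
  exact h1 h2

variable [DecidableEq (Pr F)]

/-- the value does not depend on the presentation -/
theorem wd (h2 : ApprStatement) {T : Finset (Pr F)} {f : Ideal (𝓞 F) → ℤ} (hf : PC T f)
    {v : Pr F}
    (hur : ∀ α : 𝓞 F, α ∉ v.asIdeal → (∀ u ∈ T.erase v, α - 1 ∈ u.asIdeal) →
      f (Ideal.span {α}) = 1)
    {a : Ideal (𝓞 F)} {γ γ' : 𝓞 F} {b b' : Ideal (𝓞 F)} (hv : v ∈ T)
    (h : Rep T (T.erase v) a γ b) (h' : Rep T (T.erase v) a γ' b') : f b = f b' := by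
  have hb := rep_ne_bot h
  have hb' := rep_ne_bot h'
  obtain ⟨g1, g2, g3, g4⟩ := h
  obtain ⟨g1', g2', g3', g4'⟩ := h'
  obtain ⟨μ, d, m1, m2, m3, m4⟩ := h2 F b T T hb g4
  have hd : d ≠ ⊥ := by
    rintro rfl
    rw [Ideal.mul_bot, Ideal.span_singleton_eq_bot] at m2
    exact m1 m2
  have e1 : Ideal.span {γ' * μ} = Ideal.span {γ} * (b' * d) := by
    rw [← Ideal.span_singleton_mul_span_singleton, g2', m2, g2]
    ring
  have e2 : γ' * μ ∈ Ideal.span {γ} := by
    have : Ideal.span {γ' * μ} ≤ Ideal.span {γ} := by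
      rw [e1]
      exact Ideal.mul_le_left
    exact this (Ideal.mem_span_singleton_self _)
  obtain ⟨ν, hν⟩ := Ideal.mem_span_singleton'.1 e2
  have hν' : γ * ν = γ' * μ := by rw [← hν, mul_comm]
  have e3 : Ideal.span {ν} = b' * d := by
    have : Ideal.span {γ} * Ideal.span {ν} = Ideal.span {γ} * (b' * d) := by
      rw [Ideal.span_singleton_mul_span_singleton, hν', e1]
    refine mul_left_cancel₀ ?_ this
    rwa [Ne, Ideal.zero_eq_bot, Ideal.span_singleton_eq_bot]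
  have hνv : ν ∉ v.asIdeal := by
    intro hc
    have : b' * d ≤ v.asIdeal := by
      rw [← e3, Ideal.span_singleton_le_iff_mem]
      exact hc
    exact cop_mul g4' m4 v hv this
  have hνu : ∀ u ∈ T.erase v, ν - 1 ∈ u.asIdeal := by
    intro u hu
    have a1 := g3 u hu
    have a2 := g3' u hu
    have a3 := m3 u (Finset.mem_of_mem_erase hu)
    have e : ν - 1 = -((γ - 1) * ν) + ((γ' - 1) * μ + (μ - 1)) := by
      linear_combination hν'
    rw [e]
    exact add_mem (neg_mem (Ideal.mul_mem_right _ _ a1))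
      (add_mem (Ideal.mul_mem_right _ _ a2) a3)
  have r1 : f b' * f d = 1 := by rw [← hf.mul, ← e3, hur ν hνv hνu]
  have r2 : f b * f d = 1 := by rw [← hf.mul, ← m2, hf.ray μ m1 m3]
  rcases hf.val d hd m4 with h | h <;> rw [h] at r1 r2 <;> omega

open Classical in
/-- the extension to the ideals divisible by `v` -/
noncomputable def ext (T T' : Finset (Pr F)) (f : Ideal (𝓞 F) → ℤ) (a : Ideal (𝓞 F)) : ℤ :=
  if h : (a ≠ ⊥ ∧ Cop T' a) ∧ ∃ b γ, Rep T T' a γ b then f (Classical.choose h.2) else 0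

theorem ext_eq (h2 : ApprStatement) {T : Finset (Pr F)} {f : Ideal (𝓞 F) → ℤ} (hf : PC T f)
    {v : Pr F}
    (hur : ∀ α : 𝓞 F, α ∉ v.asIdeal → (∀ u ∈ T.erase v, α - 1 ∈ u.asIdeal) →
      f (Ideal.span {α}) = 1)
    {a : Ideal (𝓞 F)} {γ : 𝓞 F} {b : Ideal (𝓞 F)} (hv : v ∈ T)
    (ha : a ≠ ⊥) (hc : Cop (T.erase v) a)
    (h : Rep T (T.erase v) a γ b) : ext T (T.erase v) f a = f b := by
  have hh : (a ≠ ⊥ ∧ Cop (T.erase v) a) ∧ ∃ b γ, Rep T (T.erase v) a γ b :=
    ⟨⟨ha, hc⟩, b, γ, h⟩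
  rw [ext, dif_pos hh]
  obtain ⟨γ', h'⟩ := Classical.choose_spec hh.2
  exact wd h2 hf hur hv h' h

omit [DecidableEq (Pr F)] in
theorem exists_rep (h2 : ApprStatement) (T T' : Finset (Pr F)) {a : Ideal (𝓞 F)} (ha : a ≠ ⊥)
    (hc : Cop T' a) : ∃ b γ, Rep T T' a γ b := by
  obtain ⟨γ, b, h1, h2, h3, h4⟩ := h2 F a T' T ha hc
  exact ⟨b, γ, h1, h2, h3, h4⟩

theorem ext_pc (h2 : ApprStatement) {T : Finset (Pr F)} {f : Ideal (𝓞 F) → ℤ} (hf : PC T f)
    {v : Pr F}
    (hur : ∀ α : 𝓞 F, α ∉ v.asIdeal → (∀ u ∈ T.erase v, α - 1 ∈ u.asIdeal) →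
      f (Ideal.span {α}) = 1) (hv : v ∈ T) :
    PC (T.erase v) (ext T (T.erase v) f) := by
  have hz : ∀ a, ¬ Cop (T.erase v) a → ext T (T.erase v) f a = 0 := by
    intro a h
    rw [ext, dif_neg]
    rintro ⟨⟨_, h'⟩, _⟩
    exact h h'
  have hbot : ext T (T.erase v) f ⊥ = 0 := by
    rw [ext, dif_neg]
    rintro ⟨⟨h', _⟩, _⟩
    exact h' rfl
  refine ⟨hbot, ?_, ?_, ?_, hz, ?_⟩
  · rw [ext_eq h2 hf hur hv (γ := 1) (b := ⊤) (by simp) (cop_top _), hf.top]
    refine ⟨one_ne_zero, ?_, ?_, cop_top _⟩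
    · simp
    · intro u _
      simp
  · intro a b
    by_cases ha : a = ⊥
    · subst ha
      rw [Ideal.bot_mul, hbot, zero_mul]
    by_cases hb : b = ⊥
    · subst hb
      rw [Ideal.mul_bot, hbot, mul_zero]
    by_cases hca : Cop (T.erase v) a
    swap
    · rw [hz a hca, zero_mul, hz]
      intro h
      apply hca
      intro u hu h'
      exact h u hu (Ideal.mul_le_left.trans h')
    by_cases hcb : Cop (T.erase v) b
    swap
    · rw [hz b hcb, mul_zero, hz]
      intro h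
      apply hcb
      intro u hu h'
      exact h u hu (Ideal.mul_le_right.trans h')
    obtain ⟨x, γ, hx⟩ := exists_rep h2 T (T.erase v) ha hca
    obtain ⟨y, δ, hy⟩ := exists_rep h2 T (T.erase v) hb hcb
    rw [ext_eq h2 hf hur hv ha hca hx, ext_eq h2 hf hur hv hb hcb hy,
      ext_eq h2 hf hur hv (γ := γ * δ) (b := x * y) (mul_ne_zero ha hb) (cop_mul hca hcb), hf.mul]
    obtain ⟨x1, x2, x3, x4⟩ := hx
    obtain ⟨y1, y2, y3, y4⟩ := hy
    refine ⟨mul_ne_zero x1 y1, ?_, ?_, cop_mul x4 y4⟩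
    · rw [← Ideal.span_singleton_mul_span_singleton, x2, y2]
      ring
    · intro u hu
      have e : γ * δ - 1 = (γ - 1) * δ + (δ - 1) := by ring
      rw [e]
      exact add_mem (Ideal.mul_mem_right _ _ (x3 u hu)) (y3 u hu)
  · intro a ha hc
    obtain ⟨x, γ, hx⟩ := exists_rep h2 T (T.erase v) ha hc
    rw [ext_eq h2 hf hur hv ha hc hx]
    exact hf.val x (rep_ne_bot hx) hx.2.2.2
  · intro α hα h
    rw [ext_eq h2 hf hur hv (γ := α) (b := ⊤), hf.top]
    · rwa [Ne, Ideal.span_singleton_eq_bot]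
    · intro u hu hle
      rw [Ideal.span_singleton_le_iff_mem] at hle
      apply u.isPrime.ne_top
      rw [Ideal.eq_top_iff_one]
      have e : (1 : 𝓞 F) = α - (α - 1) := by ring
      rw [e]
      exact sub_mem hle (h u hu)
    · exact ⟨hα, by simp, h, cop_top _⟩

theorem ext_agree (h2 : ApprStatement) {T : Finset (Pr F)} {f : Ideal (𝓞 F) → ℤ} (hf : PC T f)
    {v : Pr F}
    (hur : ∀ α : 𝓞 F, α ∉ v.asIdeal → (∀ u ∈ T.erase v, α - 1 ∈ u.asIdeal) →
      f (Ideal.span {α}) = 1) (hv : v ∈ T) (a : Ideal (𝓞 F)) (ha : a ≠ ⊥) (hc : Cop T a) :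
    ext T (T.erase v) f a = f a := by
  obtain ⟨γ, b, h1, h3, h4, h5⟩ := h2 F a T T ha hc
  have hb : b ≠ ⊥ := by
    rintro rfl
    rw [Ideal.mul_bot, Ideal.span_singleton_eq_bot] at h3
    exact h1 h3
  rw [ext_eq h2 hf hur hv (γ := γ) (b := b) ha
    (fun u hu => hc u (Finset.mem_of_mem_erase hu))
    ⟨h1, h3, fun u hu => h4 u (Finset.mem_of_mem_erase hu), h5⟩]
  have r : f a * f b = 1 := by rw [← hf.mul, ← h3, hf.ray γ h1 h4]
  rcases hf.val b hb h5 with h | h <;> rw [h] at r ⊢ <;> omega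

theorem main (h2 : ApprStatement) : ∀ (n : ℕ) (T : Finset (Pr F)) (f : Ideal (𝓞 F) → ℤ),
    T.card = n → PC T f →
    ∃ ρ : QChar F, ρ.T ⊆ T ∧ ∀ a, a ≠ ⊥ → Cop T a → ρ.chi a = f a := by
  classical
  intro n
  induction n with
  | zero =>
    intro T f hT hf
    have hT' : T = ∅ := Finset.card_eq_zero.1 hT
    subst hT'
    exact ⟨⟨∅, f, hf.bot, hf.top, hf.mul, hf.val, hf.zero, hf.ray, by simp⟩, subset_rfl,
      fun a _ _ => rfl⟩
  | succ n ih =>
    intro T f hT hf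
    by_cases hram : ∀ v ∈ T, ∃ α : 𝓞 F, α ∉ v.asIdeal ∧ (∀ u ∈ T, u ≠ v → α - 1 ∈ u.asIdeal) ∧
        f (Ideal.span {α}) = -1
    · exact ⟨⟨T, f, hf.bot, hf.top, hf.mul, hf.val, hf.zero, hf.ray, hram⟩, subset_rfl,
        fun a _ _ => rfl⟩
    · push Not at hram
      obtain ⟨v, hv, hv'⟩ := hram
      have hur : ∀ α : 𝓞 F, α ∉ v.asIdeal → (∀ u ∈ T.erase v, α - 1 ∈ u.asIdeal) →
          f (Ideal.span {α}) = 1 := by
        intro α h1 h3
        have h4 := hv' α h1 (fun u hu huv => h3 u (Finset.mem_erase.2 ⟨huv, hu⟩))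
        have hα : α ≠ 0 := by
          rintro rfl
          exact h1 (zero_mem _)
        have hcop : Cop T (Ideal.span {α}) := by
          intro u hu hle
          rw [Ideal.span_singleton_le_iff_mem] at hle
          by_cases huv : u = v
          · subst huv
            exact h1 hle
          · apply u.isPrime.ne_top
            rw [Ideal.eq_top_iff_one]
            have e : (1 : 𝓞 F) = α - (α - 1) := by ring
            rw [e]
            exact sub_mem hle (h3 u (Finset.mem_erase.2 ⟨huv, hu⟩))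
        rcases hf.val _ (by rwa [Ne, Ideal.span_singleton_eq_bot]) hcop with h | h
        · exact h
        · exact absurd h h4
      obtain ⟨ρ, h1, h3⟩ := ih (T.erase v) (ext T (T.erase v) f)
        (by rw [Finset.card_erase_of_mem hv, hT]; rfl) (ext_pc h2 hf hur hv)
      refine ⟨ρ, h1.trans (Finset.erase_subset _ _), ?_⟩
      intro a ha hc
      rw [h3 a ha (fun u hu => hc u (Finset.mem_of_mem_erase hu)),
        ext_agree h2 hf hur hv a ha hc]

end PrimAux

open PrimAux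

/-- Row PRIM. -/
theorem prim (_h1 : CrtStatement) (h2 : ApprStatement) : PrimStatement := by
  classical
  intro F _ _ χ ψ
  have hcop : ∀ a, Cop (χ.T ∪ ψ.T) a ↔ Cop χ.T a ∧ Cop ψ.T a := by
    intro a
    constructor
    · intro h
      exact ⟨fun v hv => h v (Finset.mem_union_left _ hv),
        fun v hv => h v (Finset.mem_union_right _ hv)⟩
    · rintro ⟨h, h'⟩ v hv
      rcases Finset.mem_union.1 hv with hv | hv
      · exact h v hv
      · exact h' v hv
  have hpc : PC (χ.T ∪ ψ.T) (fun a => χ.chi a * ψ.chi a) := by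
    refine ⟨?_, ?_, ?_, ?_, ?_, ?_⟩
    · simp only [χ.bot, zero_mul]
    · simp only [χ.top, ψ.top, mul_one]
    · intro a b
      simp only [χ.mul, ψ.mul]
      ring
    · intro a ha hc
      rw [hcop] at hc
      rcases χ.val a ha hc.1 with h | h <;> rcases ψ.val a ha hc.2 with h' | h' <;>
        simp [h, h']
    · intro a hc
      rw [hcop, not_and_or] at hc
      rcases hc with h | h
      · simp only [χ.zero a h, zero_mul]
      · simp only [ψ.zero a h, mul_zero]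
    · intro α hα h
      rw [χ.ray α hα (fun v hv => h v (Finset.mem_union_left _ hv)),
        ψ.ray α hα (fun v hv => h v (Finset.mem_union_right _ hv)), mul_one]
  obtain ⟨ρ, h1, h3⟩ := main h2 _ _ _ rfl hpc
  refine ⟨ρ, fun v hv => Finset.mem_union.1 (h1 hv), ?_⟩
  intro a ha hb
  have hbot : a ≠ ⊥ := by
    rintro rfl
    exact ha χ.bot
  apply h3 a hbot
  rw [hcop]
  constructor
  · by_contra h
    exact ha (χ.zero a h)
  · by_contra h
    exact hb (ψ.zero a h)

end Pool.Agent.Lib.MP_50bb2e_nt.PP
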