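import Pool.Agent.Lib.MP_50bb2e_nt.PP.Iface

/-!
MP_50bb2e_nt, board PP, row QS: elementary properties of the quadratic residue symbol.
-/

set_option linter.style.haveILetI false
set_option linter.unusedSectionVars false

open IsDedekindDomain NumberField

namespace Pool.Agent.Lib.MP_50bb2e_nt.PP

section
variable {F : Type} [Field F] [NumberField F] (v : Pr F)

/-- the condition of `qs` in the residue field -/
theorem qs_cond_iff (α : 𝓞 F) :
    (∃ β : 𝓞 F, α - β ^ 2 ∈ v.asIdeal) ↔ IsSquare (Ideal.Quotient.mk v.asIdeal α) := by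
  constructor
  · rintro ⟨β, hβ⟩
    refine ⟨Ideal.Quotient.mk v.asIdeal β, ?_⟩
    rw [← map_mul, ← pow_two]
    exact Ideal.Quotient.eq.2 hβ
  · rintro ⟨b, hb⟩
    obtain ⟨β, rfl⟩ := Ideal.Quotient.mk_surjective b
    refine ⟨β, ?_⟩
    rw [← map_mul, ← pow_two] at hb
    exact Ideal.Quotient.eq.1 hb

open Classical in
theorem qs_eq_ite (α : 𝓞 F) :
    qs v α = if IsSquare (Ideal.Quotient.mk v.asIdeal α) then 1 else -1 := by
  unfold qs
  simp only [qs_cond_iff]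

open Classical in
theorem qs_mul (α β : 𝓞 F) (hα : α ∉ v.asIdeal) (hβ : β ∉ v.asIdeal) :
    qs v (α * β) = qs v α * qs v β := by
  haveI : v.asIdeal.IsMaximal := v.isMaximal
  letI : Field (𝓞 F ⧸ v.asIdeal) := Ideal.Quotient.field v.asIdeal
  haveI : Finite (𝓞 F ⧸ v.asIdeal) := Ideal.finiteQuotientOfFreeOfNeBot v.asIdeal v.ne_bot
  letI : Fintype (𝓞 F ⧸ v.asIdeal) := Fintype.ofFinite _
  have key : ∀ γ : 𝓞 F, γ ∉ v.asIdeal →
      qs v γ = quadraticCharFun (𝓞 F ⧸ v.asIdeal) (Ideal.Quotient.mk v.asIdeal γ) := by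
    intro γ hγ
    have h0 : Ideal.Quotient.mk v.asIdeal γ ≠ 0 := fun h => hγ (Ideal.Quotient.eq_zero_iff_mem.1 h)
    rw [qs_eq_ite]
    simp only [quadraticCharFun, h0, if_false]
    by_cases hs : IsSquare (Ideal.Quotient.mk v.asIdeal γ)
    · rw [if_pos hs, if_pos hs]
    · rw [if_neg hs, if_neg hs]
  have hαβ : α * β ∉ v.asIdeal := fun h => (v.isPrime.mem_or_mem h).elim hα hβ
  rw [key _ hαβ, key _ hα, key _ hβ, map_mul, quadraticCharFun_mul]

theorem qs_congr (α β : 𝓞 F) (h : α - β ∈ v.asIdeal) : qs v α = qs v β := by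
  classical
  rw [qs_eq_ite, qs_eq_ite, Ideal.Quotient.eq.2 h]

theorem qs_sq_mul (α n : 𝓞 F) (hn : n ∉ v.asIdeal) (hα : α ∉ v.asIdeal) :
    qs v (α * n ^ 2) = qs v α := by
  classical
  have hn2 : n ^ 2 ∉ v.asIdeal := fun h => hn (v.isPrime.mem_of_pow_mem 2 h)
  rw [qs_mul v α (n ^ 2) hα hn2]
  have : qs v (n ^ 2) = 1 := by
    rw [qs_eq_ite, if_pos]
    exact ⟨Ideal.Quotient.mk v.asIdeal n, by rw [pow_two, map_mul]⟩
  rw [this, mul_one]

theorem exists_qs_neg_one (h : Odd (nm v)) : ∃ α : 𝓞 F, α ∉ v.asIdeal ∧ qs v α = -1 := by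
  classical
  haveI : v.asIdeal.IsMaximal := v.isMaximal
  letI : Field (𝓞 F ⧸ v.asIdeal) := Ideal.Quotient.field v.asIdeal
  haveI : Finite (𝓞 F ⧸ v.asIdeal) := Ideal.finiteQuotientOfFreeOfNeBot v.asIdeal v.ne_bot
  letI : Fintype (𝓞 F ⧸ v.asIdeal) := Fintype.ofFinite _
  have hcard : nm v = Fintype.card (𝓞 F ⧸ v.asIdeal) := by
    unfold nm
    rw [Ideal.absNorm_apply, Submodule.cardQuot_apply, Nat.card_eq_fintype_card]
  have hchar : ringChar (𝓞 F ⧸ v.asIdeal) ≠ 2 := by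
    intro h2
    have := FiniteField.even_card_of_char_two h2
    rw [← hcard] at this
    rcases h with ⟨k, hk⟩
    omega
  obtain ⟨a, ha⟩ := FiniteField.exists_nonsquare hchar
  obtain ⟨α, rfl⟩ := Ideal.Quotient.mk_surjective a
  refine ⟨α, ?_, ?_⟩
  · intro hα
    apply ha
    rw [Ideal.Quotient.eq_zero_iff_mem.2 hα]
    exact ⟨0, by simp⟩
  · rw [qs_eq_ite, if_neg ha]

theorem qs_of_sq_eq (α α' β γ : 𝓞 F) (hα : α ∉ v.asIdeal) (hα' : α' ∉ v.asIdeal)
    (hβ : β ≠ 0) (hγ : γ ≠ 0) (h : α * β ^ 2 = α' * γ ^ 2) : qs v α = qs v α' := by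
  have hb0 : (algebraMap (𝓞 F) F β) ≠ 0 := by
    simpa using hβ
  have hg0 : (algebraMap (𝓞 F) F γ) ≠ 0 := by
    simpa using hγ
  -- the valuations of `β` and `γ` agree
  have hval : v.intValuation β = v.intValuation γ := by
    have h1 := congrArg v.intValuation h
    rw [map_mul, map_mul, map_pow, map_pow, HeightOneSpectrum.intValuation_eq_one_iff.2 hα,
      HeightOneSpectrum.intValuation_eq_one_iff.2 hα', one_mul, one_mul] at h1
    exact (pow_left_inj₀ zero_le zero_le two_ne_zero).1 h1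
  have hv1 : v.valuation F (algebraMap (𝓞 F) F β / algebraMap (𝓞 F) F γ) = 1 := by
    rw [map_div₀, HeightOneSpectrum.valuation_of_algebraMap,
      HeightOneSpectrum.valuation_of_algebraMap, hval]
    exact div_self (v.intValuation_ne_zero γ hγ)
  obtain ⟨n, d, hnd⟩ := HeightOneSpectrum.exists_primeCompl_mul_eq_of_integer (K := F) v
    (algebraMap (𝓞 F) F β / algebraMap (𝓞 F) F γ) hv1.le
  have hd : (d : 𝓞 F) ∉ v.asIdeal := d.2
  have hn : n ∉ v.asIdeal := by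
    have h2 := congrArg (v.valuation F) hnd
    rw [map_mul, hv1, one_mul] at h2
    rw [← HeightOneSpectrum.valuation_eq_one_iff_notMem (K := F), ← h2,
      HeightOneSpectrum.valuation_eq_one_iff_notMem]
    exact hd
  have h3 : β * d = γ * n := by
    have : algebraMap (𝓞 F) F (β * d) = algebraMap (𝓞 F) F (γ * n) := by
      rw [map_mul, map_mul, ← hnd]
      field_simp
    exact FaithfulSMul.algebraMap_injective (𝓞 F) F this
  have h4 : α * n ^ 2 = α' * (d : 𝓞 F) ^ 2 := by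
    have h5 : γ ^ 2 * (α * n ^ 2) = γ ^ 2 * (α' * (d : 𝓞 F) ^ 2) := by
      calc γ ^ 2 * (α * n ^ 2) = α * (γ * n) ^ 2 := by ring
        _ = α * (β * d) ^ 2 := by rw [h3]
        _ = (α * β ^ 2) * (d : 𝓞 F) ^ 2 := by ring
        _ = (α' * γ ^ 2) * (d : 𝓞 F) ^ 2 := by rw [h]
        _ = γ ^ 2 * (α' * (d : 𝓞 F) ^ 2) := by ring
    exact mul_left_cancel₀ (pow_ne_zero 2 hγ) h5
  rw [← qs_sq_mul v α n hn hα, h4, qs_sq_mul v α' d hd hα']

end

/-- row QS -/
theorem qs_proof : QsStatement := by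
  intro F _ _ v
  exact ⟨fun α β hα hβ => qs_mul v α β hα hβ, fun α β h => qs_congr v α β h,
    fun h => exists_qs_neg_one v h,
    fun α α' β γ hα hα' hβ hγ h => qs_of_sq_eq v α α' β γ hα hα' hβ hγ h⟩

end Pool.Agent.Lib.MP_50bb2e_nt.PP
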