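import Pool.Agent.Lib.MP_50bb2e_nt.PP.Iface

/-!
MP_50bb2e_nt, board PP, row SEL (helper43): the `S`-Selmer group is finite.
-/

open IsDedekindDomain NumberField Filter Topology
open scoped nonZeroDivisors

namespace Pool.Agent.Lib.MP_50bb2e_nt.PP

namespace SelRow

/-- finitely many units represent all units modulo squares -/
theorem units_mod_squares (F : Type) [Field F] [NumberField F] :
    ∃ U : Finset (𝓞 F)ˣ, ∀ u : (𝓞 F)ˣ, ∃ u0 ∈ U, ∃ t : (𝓞 F)ˣ, u = u0 * t ^ 2 := by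
  classical
  have hfin : Finite ((𝓞 F)ˣ ⧸ (powMonoidHom 2 : (𝓞 F)ˣ →* (𝓞 F)ˣ).range) := by
    have : Group.FG (𝓞 F)ˣ := Group.fg_iff_monoid_fg.mpr inferInstance
    have : Group.FG ((𝓞 F)ˣ ⧸ (powMonoidHom 2 : (𝓞 F)ˣ →* (𝓞 F)ˣ).range) := inferInstance
    refine CommGroup.finite_of_fg_isMulTorsion _ ?_
    intro q
    induction q using QuotientGroup.induction_on with
    | H u =>
      rw [isOfFinOrder_iff_pow_eq_one]
      refine ⟨2, by norm_num, ?_⟩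
      rw [← QuotientGroup.mk_pow, QuotientGroup.eq_one_iff]
      exact ⟨u, rfl⟩
  have := Fintype.ofFinite ((𝓞 F)ˣ ⧸ (powMonoidHom 2 : (𝓞 F)ˣ →* (𝓞 F)ˣ).range)
  refine ⟨Finset.univ.image (fun q : ((𝓞 F)ˣ ⧸ (powMonoidHom 2 : (𝓞 F)ˣ →* (𝓞 F)ˣ).range) =>
    q.out), ?_⟩
  intro u
  refine ⟨(QuotientGroup.mk u : (𝓞 F)ˣ ⧸ (powMonoidHom 2 : (𝓞 F)ˣ →* (𝓞 F)ˣ).range).out,
    Finset.mem_image_of_mem _ (Finset.mem_univ _), ?_⟩
  have h : (QuotientGroup.mk ((QuotientGroup.mk u :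
      (𝓞 F)ˣ ⧸ (powMonoidHom 2 : (𝓞 F)ˣ →* (𝓞 F)ˣ).range).out) :
      (𝓞 F)ˣ ⧸ (powMonoidHom 2 : (𝓞 F)ˣ →* (𝓞 F)ˣ).range) = QuotientGroup.mk u :=
    Quotient.out_eq _
  rw [QuotientGroup.eq] at h
  obtain ⟨t, ht⟩ := h
  refine ⟨t, ?_⟩
  have ht' : t ^ 2 = ((QuotientGroup.mk u :
      (𝓞 F)ˣ ⧸ (powMonoidHom 2 : (𝓞 F)ˣ →* (𝓞 F)ˣ).range).out)⁻¹ * u := ht
  rw [ht', mul_inv_cancel_left]

end SelRow

open SelRow in
theorem sel : SelStatement := by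
  intro F _ _ S
  classical
  obtain ⟨U, hU⟩ := units_mod_squares F
  -- the chosen element of the pair (class, E)
  let Q : ClassGroup (𝓞 F) → Finset (Pr F) → 𝓞 F → Prop := fun c E α =>
    α ≠ 0 ∧ ∃ b : (Ideal (𝓞 F))⁰, ClassGroup.mk0 b = c ∧
      Ideal.span {α} = (b : Ideal (𝓞 F)) ^ 2 * ∏ v ∈ E, v.asIdeal
  let g : ClassGroup (𝓞 F) → Finset (Pr F) → 𝓞 F := fun c E =>
    if h : ∃ α, Q c E α then h.choose else 1
  have hg0 : ∀ c E, g c E ≠ 0 := by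
    intro c E
    by_cases h : ∃ α, Q c E α
    · simp only [g, dif_pos h]
      exact h.choose_spec.1
    · simp only [g, dif_neg h]
      exact one_ne_zero
  refine ⟨((Finset.univ : Finset (ClassGroup (𝓞 F))) ×ˢ (S.powerset ×ˢ U)).image
    (fun p => g p.1 p.2.1 * (p.2.2 : 𝓞 F)), ?_, ?_⟩
  · intro α hα
    obtain ⟨p, -, rfl⟩ := Finset.mem_image.mp hα
    exact mul_ne_zero (hg0 _ _) (Units.ne_zero _)
  · intro α b E hα hE hb
    have hb0 : b ≠ ⊥ := by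
      rintro rfl
      apply hα
      have : Ideal.span {α} = (⊥ : Ideal (𝓞 F)) := by
        rw [hb]
        simp [pow_two]
      simpa using this
    have hb1 : b ∈ (Ideal (𝓞 F))⁰ := mem_nonZeroDivisors_iff_ne_zero.mpr hb0
    let c : ClassGroup (𝓞 F) := ClassGroup.mk0 ⟨b, hb1⟩
    have hex : ∃ α, Q c E α := ⟨α, hα, ⟨b, hb1⟩, rfl, hb⟩
    have hgc : g c E = hex.choose := by simp only [g, dif_pos hex]
    obtain ⟨hα0, b0, hb0c, hb0e⟩ := hex.choose_spec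
    rw [← hgc] at hα0 hb0e
    obtain ⟨x, y, hx, hy, hxy⟩ := (ClassGroup.mk0_eq_mk0_iff).mp hb0c
    -- x * b0 = y * b
    have hspan : Ideal.span {g c E * x ^ 2} = Ideal.span {α * y ^ 2} := by
      have h1 : Ideal.span {g c E * x ^ 2} =
          (Ideal.span {x} * (b0 : Ideal (𝓞 F))) ^ 2 * ∏ v ∈ E, v.asIdeal := by
        rw [← Ideal.span_singleton_mul_span_singleton, ← Ideal.span_singleton_pow, hb0e]
        ring
      have h2 : Ideal.span {α * y ^ 2} =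
          (Ideal.span {y} * b) ^ 2 * ∏ v ∈ E, v.asIdeal := by
        rw [← Ideal.span_singleton_mul_span_singleton, ← Ideal.span_singleton_pow, hb]
        ring
      rw [h1, h2, hxy]
    rw [Ideal.span_singleton_eq_span_singleton] at hspan
    obtain ⟨u, hu⟩ := hspan
    obtain ⟨u0, hu0, t, ht⟩ := hU u
    refine ⟨g c E * (u0 : 𝓞 F), ?_, y, x * (t : 𝓞 F), hy, mul_ne_zero hx (Units.ne_zero _), ?_⟩
    · exact Finset.mem_image.mpr ⟨(c, E, u0), Finset.mem_product.mpr ⟨Finset.mem_univ _,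
        Finset.mem_product.mpr ⟨Finset.mem_powerset.mpr hE, hu0⟩⟩, rfl⟩
    · rw [← hu, ht]
      push_cast
      ring

end Pool.Agent.Lib.MP_50bb2e_nt.PP
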