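import Pool.Agent.Lib.MP_50bb2e_nt.PP.Abel
import Pool.Agent.Lib.MP_50bb2e_nt.PP.Appr
import Pool.Agent.Lib.MP_50bb2e_nt.PP.Asm
import Pool.Agent.Lib.MP_50bb2e_nt.PP.Crt
import Pool.Agent.Lib.MP_50bb2e_nt.PP.Div
import Pool.Agent.Lib.MP_50bb2e_nt.PP.Ext
import Pool.Agent.Lib.MP_50bb2e_nt.PP.Fin
import Pool.Agent.Lib.MP_50bb2e_nt.PP.Inj
import Pool.Agent.Lib.MP_50bb2e_nt.PP.Lmain
import Pool.Agent.Lib.MP_50bb2e_nt.PP.Loc
import Pool.Agent.Lib.MP_50bb2e_nt.PP.Lser
import Pool.Agent.Lib.MP_50bb2e_nt.PP.MixH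
import Pool.Agent.Lib.MP_50bb2e_nt.PP.Prim
import Pool.Agent.Lib.MP_50bb2e_nt.PP.Qs
import Pool.Agent.Lib.MP_50bb2e_nt.PP.Ray
import Pool.Agent.Lib.MP_50bb2e_nt.PP.Sel
import Pool.Agent.Lib.MP_50bb2e_nt.PP.Summ

/-!
MP_50bb2e_nt, board PP: the main theorem.
-/

namespace Pool.Agent.Lib.MP_50bb2e_nt.PP

theorem ray' : RayStatement := ray crt

theorem inj' : InjStatement := inj crt ray' appr

theorem prim' : PrimStatement := prim crt appr

theorem loc' : LocStatement := loc crt ray'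

theorem fin' : FinStatement := fin crt ray' inj' prim' loc'

theorem lmain' : LmainStatement := lmain lser uniq ray'

theorem mainA' : MainAStatement := mainA ray' inj' lmain'

theorem div' : DivStatement := div_proof sel qs_proof (ext_proof crt qs_proof)

theorem main : MainStatement :=
  main_of mainA' prim' fin' mixH (summ fin') abel div' crt ray'

end Pool.Agent.Lib.MP_50bb2e_nt.PP
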