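import Mathlib

/-!
MP_50bb2e_nt (PP): quadratic ray class characters of a number field with odd square-free
conductor, entire continuations of Dirichlet series over ideals, bounded partial central values.
Definitions used by the statement.
-/

open IsDedekindDomain NumberField Filter Topology

namespace Pool.Agent.Lib.MP_50bb2e_nt.PP

/-- finite places -/
abbrev Pr (F : Type) [Field F] [NumberField F] := HeightOneSpectrum (𝓞 F)

/-- The norm of a finite place. -/
noncomputable def nm {F : Type} [Field F] [NumberField F] (v : Pr F) : ℕ :=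
  Ideal.absNorm v.asIdeal

/-- No prime of `T` divides the ideal `a`. -/
def Cop {F : Type} [Field F] [NumberField F] (T : Finset (Pr F)) (a : Ideal (𝓞 F)) : Prop :=
  ∀ v ∈ T, ¬ a ≤ v.asIdeal

/-- A quadratic ray class character in the wide sense (that is: trivial at the infinite places)
whose conductor is the product of the primes of `T`. -/
@[ext] structure QChar (F : Type) [Field F] [NumberField F] where
  T : Finset (Pr F)
  chi : Ideal (𝓞 F) → ℤ
  bot : chi ⊥ = 0
  top : chi ⊤ = 1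
  mul : ∀ a b, chi (a * b) = chi a * chi b
  val : ∀ a, a ≠ ⊥ → Cop T a → chi a = 1 ∨ chi a = -1
  zero : ∀ a, ¬ Cop T a → chi a = 0
  /-- trivial on the principal ideals `(α)` with `α ≡ 1` modulo the conductor -/
  ray : ∀ α : 𝓞 F, α ≠ 0 → (∀ v ∈ T, α - 1 ∈ v.asIdeal) → chi (Ideal.span {α}) = 1
  /-- ramified at every prime of `T` -/
  ram : ∀ v ∈ T, ∃ α : 𝓞 F, α ∉ v.asIdeal ∧ (∀ u ∈ T, u ≠ v → α - 1 ∈ u.asIdeal) ∧
    chi (Ideal.span {α}) = -1

/-- The norm of the conductor. -/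
noncomputable def QChar.cond {F : Type} [Field F] [NumberField F] (χ : QChar F) : ℕ :=
  ∏ v ∈ χ.T, nm v

/-- `Z` is an entire function which is the sum of `e(a) N(a)^(-s)` for `Re s > 3/2`. -/
def Cont {F : Type} [Field F] [NumberField F] (e : Ideal (𝓞 F) → ℂ) (Z : ℂ → ℂ) : Prop :=
  Differentiable ℂ Z ∧ ∀ s : ℂ, 3 / 2 < s.re →
    Z s = ∑' a : Ideal (𝓞 F), e a * (Ideal.absNorm a : ℂ) ^ (-s)

/-- The twist by `χ` has an entire `L`-function which does not vanish at the centre `s = 1`. -/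
def NonVan {F : Type} [Field F] [NumberField F] (c : Ideal (𝓞 F) → ℂ) (χ : QChar F) : Prop :=
  ∃ Z : ℂ → ℂ, Cont (fun a => c a * (χ.chi a : ℂ)) Z ∧ Z 1 ≠ 0

/-- `E` is a union of ray classes (in the wide sense) modulo the product of the primes of `T`. -/
structure IsRayUnion {F : Type} [Field F] [NumberField F] (T : Finset (Pr F))
    (E : Set (Ideal (𝓞 F))) : Prop where
  cop : ∀ a ∈ E, a ≠ ⊥ ∧ Cop T a
  ray : ∀ a ∈ E, ∀ b : Ideal (𝓞 F), ∀ α β : 𝓞 F, α ≠ 0 → β ≠ 0 →
    (∀ v ∈ T, α ∉ v.asIdeal ∧ α - β ∈ v.asIdeal) →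
    Ideal.span {α} * a = Ideal.span {β} * b → b ∈ E

open Classical in
/-- The setting: `c(a)` are the coefficients of the `L`-function of a representation of `GL_2`
with central character `η`, with centre `s = 1`; `w` is a nonarchimedean absolute value of `ℂ`
with `w 2 < 1`; `P` is a set of primes. -/
structure Setting {F : Type} [Field F] [NumberField F] (c : Ideal (𝓞 F) → ℂ)
    (w : AbsoluteValue ℂ ℝ) (B : ℝ) (P : Set (Pr F)) (η : Pr F → ℂ) : Prop where
  na : ∀ x y : ℂ, w (x + y) ≤ max (w x) (w y)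
  two : w 2 < 1
  /-- absolute convergence for `Re s > 3/2` -/
  conv : ∀ σ : ℝ, 3 / 2 < σ →
    Summable (fun a : Ideal (𝓞 F) => ‖c a‖ * (Ideal.absNorm a : ℝ) ^ (-σ))
  odd : ∀ v ∈ P, Odd (nm v)
  unit : ∀ v ∈ P, w (c v.asIdeal) ≤ 1
  /-- `1 - c(v) + η(v)` is a unit for `w` (for `η = 1`: `c(v)` is a unit) -/
  good : ∀ v ∈ P, w (1 - c v.asIdeal + η v) = 1
  hecke : ∀ v ∈ P, ∀ a : Ideal (𝓞 F), ¬ a ≤ v.asIdeal →
    c (v.asIdeal * a) = c v.asIdeal * c a
  hecke' : ∀ v ∈ P, ∀ a : Ideal (𝓞 F),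
    c (v.asIdeal * (v.asIdeal * a)) =
      c v.asIdeal * c (v.asIdeal * a) - η v * (nm v : ℂ) * c a
  /-- the partial central values of ray classes are bounded by `B` -/
  int : ∀ T : Finset (Pr F), (T : Set (Pr F)) ⊆ P → ∀ E : Set (Ideal (𝓞 F)), IsRayUnion T E →
    ∃ Z : ℂ → ℂ, Cont (fun a => if a ∈ E then c a else 0) Z ∧ w (Z 1) ≤ B

/-- The family: conductor supported on `P`, trivial local component at every place of `S`. -/
def Fam {F : Type} [Field F] [NumberField F] (P S : Set (Pr F)) : Set (QChar F) :=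
  {χ | (χ.T : Set (Pr F)) ⊆ P ∧ ∀ v ∈ S, χ.chi v.asIdeal = 1}

/-- `V` is closed under the product of (primitive) characters. -/
def Closed {F : Type} [Field F] [NumberField F] (V : Set (QChar F)) : Prop :=
  ∀ χ ∈ V, ∀ ψ ∈ V, ∃ ρ ∈ V, ∀ a, χ.chi a ≠ 0 → ψ.chi a ≠ 0 → ρ.chi a = χ.chi a * ψ.chi a

end Pool.Agent.Lib.MP_50bb2e_nt.PP
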