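import Pool.Agent.Lib.MP_50bb2e_nt.PP.Iface

/-!
MP_50bb2e_nt, board PP: row MIX.
-/

namespace Pool.Agent.Lib.MP_50bb2e_nt.PP

open Classical in
theorem mixH : MixStatement := by
  intro κ ι Y T Q C A x hx h
  set μ : Finset ι → ℝ := fun R => (∏ i ∈ R, x i) * ∏ i ∈ A \ R, (1 - x i) with hμ
  have hμ0 : ∀ R ∈ A.powerset, 0 ≤ μ R := by
    intro R hR
    rw [Finset.mem_powerset] at hR
    apply mul_nonneg
    · exact Finset.prod_nonneg (fun i hi => (hx i (hR hi)).1)
    · apply Finset.prod_nonneg
      intro i hi
      have := (hx i (Finset.mem_sdiff.1 hi).1).2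
      linarith
  have hsum : ∀ S : Finset ι, S ⊆ A →
      ∑ R ∈ A.powerset, (if S ⊆ R then μ R else 0) = ∏ i ∈ S, x i := by
    intro S hS
    have h1 : ∏ i ∈ A \ S, (x i + (1 - x i)) = 1 :=
      Finset.prod_eq_one (fun i _ => by ring)
    rw [Finset.prod_add] at h1
    rw [← Finset.sum_filter]
    calc ∑ R ∈ A.powerset.filter (fun R => S ⊆ R), μ R
        = ∑ R' ∈ (A \ S).powerset, (∏ i ∈ S, x i) *
            ((∏ i ∈ R', x i) * ∏ i ∈ (A \ S) \ R', (1 - x i)) := by
          symm
          apply Finset.sum_bij (fun R' _ => S ∪ R')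
          · intro R' hR'
            rw [Finset.mem_powerset] at hR'
            rw [Finset.mem_filter, Finset.mem_powerset]
            exact ⟨Finset.union_subset hS (hR'.trans Finset.sdiff_subset),
              Finset.subset_union_left⟩
          · intro R1 hR1 R2 hR2 heq
            rw [Finset.mem_powerset] at hR1 hR2
            ext i
            have := congrArg (fun R => i ∈ R) heq
            simp only [Finset.mem_union, eq_iff_iff] at this
            constructor
            · intro hi
              have hnS := (Finset.mem_sdiff.1 (hR1 hi)).2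
              exact (this.1 (Or.inr hi)).resolve_left hnS
            · intro hi
              have hnS := (Finset.mem_sdiff.1 (hR2 hi)).2
              exact (this.2 (Or.inr hi)).resolve_left hnS
          · intro R hR
            rw [Finset.mem_filter, Finset.mem_powerset] at hR
            refine ⟨R \ S, ?_, ?_⟩
            · rw [Finset.mem_powerset]
              exact Finset.sdiff_subset_sdiff hR.1 (Finset.Subset.refl S)
            · exact Finset.union_sdiff_of_subset hR.2
          · intro R' hR'
            rw [Finset.mem_powerset] at hR'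
            have hd : Disjoint S R' := by
              rw [Finset.disjoint_right]
              intro i hi
              exact (Finset.mem_sdiff.1 (hR' hi)).2
            have hs : A \ (S ∪ R') = (A \ S) \ R' := by
              ext i
              simp only [Finset.mem_sdiff, Finset.mem_union]
              tauto
            simp only [hμ]
            rw [Finset.prod_union hd, hs, mul_assoc]
      _ = ∏ i ∈ S, x i := by
          rw [← Finset.mul_sum, h1, mul_one]
  have key : ∀ Q' : κ → Prop, ∑ y ∈ Y.filter (fun y => T y ⊆ A ∧ Q' y), ∏ i ∈ T y, x i =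
      ∑ R ∈ A.powerset, μ R * ((Y.filter (fun y => T y ⊆ R ∧ Q' y)).card : ℝ) := by
    intro Q'
    have h1 : ∀ R, ((Y.filter (fun y => T y ⊆ R ∧ Q' y)).card : ℝ) =
        ∑ y ∈ Y, if T y ⊆ R ∧ Q' y then (1 : ℝ) else 0 := by
      intro R
      rw [Finset.card_filter]
      push_cast
      rfl
    simp only [h1, Finset.mul_sum]
    rw [Finset.sum_comm, Finset.sum_filter]
    apply Finset.sum_congr rfl
    intro y _
    by_cases hQ : Q' y
    · by_cases hT : T y ⊆ A
      · rw [if_pos ⟨hT, hQ⟩, ← hsum (T y) hT]
        apply Finset.sum_congr rfl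
        intro R _
        by_cases hR : T y ⊆ R
        · simp [hR, hQ]
        · simp [hR]
      · rw [if_neg (fun h => hT h.1)]
        symm
        apply Finset.sum_eq_zero
        intro R hR
        rw [Finset.mem_powerset] at hR
        rw [if_neg, mul_zero]
        exact fun h => hT (h.1.trans hR)
    · rw [if_neg (fun h => hQ h.2)]
      symm
      apply Finset.sum_eq_zero
      intro R _
      rw [if_neg, mul_zero]
      exact fun h => hQ h.2
  have k1 := key (fun _ => True)
  simp only [and_true] at k1
  rw [k1, key Q, Finset.mul_sum]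
  apply Finset.sum_le_sum
  intro R hR
  have h2 := h R (Finset.mem_powerset.1 hR)
  have h3 : ((Y.filter (fun y => T y ⊆ R)).card : ℝ) ≤
      C * ((Y.filter (fun y => T y ⊆ R ∧ Q y)).card : ℝ) := by exact_mod_cast h2
  calc μ R * ((Y.filter (fun y => T y ⊆ R)).card : ℝ)
      ≤ μ R * (C * ((Y.filter (fun y => T y ⊆ R ∧ Q y)).card : ℝ)) :=
        mul_le_mul_of_nonneg_left h3 (hμ0 R hR)
    _ = C * (μ R * ((Y.filter (fun y => T y ⊆ R ∧ Q y)).card : ℝ)) := by ring

end Pool.Agent.Lib.MP_50bb2e_nt.PP
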