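import Pool.Agent.Lib.MP_50bb2e_nt.PP.Iface

/-!
MP_50bb2e_nt, board PP: rows RM and UNIQ.
-/

open Filter Topology

namespace Pool.Agent.Lib.MP_50bb2e_nt.PP

theorem uniq : UniqStatement := by
  intro Z Z' hZ hZ' h
  have h1 : AnalyticOnNhd ℂ Z Set.univ := fun z _ => hZ.analyticAt z
  have h2 : AnalyticOnNhd ℂ Z' Set.univ := fun z _ => hZ'.analyticAt z
  have h3 : Z =ᶠ[𝓝 (2 : ℂ)] Z' := by
    have h4 : {s : ℂ | 3 / 2 < s.re} ∈ 𝓝 (2 : ℂ) := by
      apply IsOpen.mem_nhds (isOpen_lt continuous_const Complex.continuous_re)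
      norm_num
    filter_upwards [h4] with s hs using h s hs
  exact h1.eq_of_eventuallyEq h2 h3

section RM

variable {G : Type} [Fintype G]

/-- the sum -/
private noncomputable def Sm (θ : G → ℂ) (x : G → ℤ) : ℂ := ∑ g, θ g * (x g : ℂ)

private theorem w_int {w : AbsoluteValue ℂ ℝ} {a : ℤ} (h : a = 1 ∨ a = -1) : w (a : ℂ) = 1 := by
  rcases h with h | h <;> simp [h]

omit [Fintype G] in
private theorem w_sum {w : AbsoluteValue ℂ ℝ} (hna : ∀ x y : ℂ, w (x + y) ≤ max (w x) (w y))
    {B : ℝ} (hB : 0 ≤ B) (s : Finset G) (f : G → ℂ) (hf : ∀ g ∈ s, w (f g) ≤ B) :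
    w (∑ g ∈ s, f g) ≤ B := by
  classical
  induction s using Finset.induction_on with
  | empty => simpa using hB
  | insert a s ha ih =>
    rw [Finset.sum_insert ha]
    exact (hna _ _).trans (max_le (hf _ (Finset.mem_insert_self _ _))
      (ih (fun g hg => hf g (Finset.mem_insert_of_mem hg))))

open Classical in
private theorem rm_aux (w : AbsoluteValue ℂ ℝ) (hna : ∀ x y : ℂ, w (x + y) ≤ max (w x) (w y))
    (B : ℝ) : ∀ (n : ℕ) (j : ℕ) (θ : G → ℂ), (∀ g, w (θ g) ≤ B) →
    ∀ V : Finset (G → ℤ), V.card ≤ n →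
    (∀ x ∈ V, ∀ g, x g = 1 ∨ x g = -1) → (∀ x ∈ V, ∀ y ∈ V, x * y ∈ V) →
    (∃ x ∈ V, (w 2) ^ (j + 1) * B < w (Sm θ x)) →
    V.card ≤ 2 ^ j * (V.filter (fun x => (w 2) ^ (j + 1) * B < w (Sm θ x))).card := by
  have hw2 : 0 < w 2 := by
    rw [AbsoluteValue.pos_iff]; norm_num
  intro n
  induction n with
  | zero =>
    intro j θ hθ V hV _ _ ⟨x, hx, _⟩
    have : V = ∅ := by simpa using hV
    simp [this] at hx
  | succ n ih =>
    intro j θ hθ V hV hpm hmul hbig
    by_cases htriv : ∀ x ∈ V, x = 1
    · -- the group is trivial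
      obtain ⟨x, hx, hxb⟩ := hbig
      have h1 : V.card ≤ 1 := Finset.card_le_one.2 (fun a ha b hb => by
        rw [htriv a ha, htriv b hb])
      have h2 : 1 ≤ (V.filter (fun x => (w 2) ^ (j + 1) * B < w (Sm θ x))).card :=
        Finset.card_pos.2 ⟨x, by simp [hx, hxb]⟩
      have h3 : 1 ≤ 2 ^ j := Nat.one_le_two_pow
      nlinarith
    push Not at htriv
    obtain ⟨x1, hx1, hx1ne⟩ := htriv
    have hg0 : ∃ g0, x1 g0 = -1 := by
      by_contra hcon
      push Not at hcon
      apply hx1ne
      funext g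
      exact (hpm x1 hx1 g).resolve_right (hcon g)
    obtain ⟨g0, hg0⟩ := hg0
    have hB : 0 ≤ B := (w.nonneg _).trans (hθ g0)
    have hsq : ∀ x ∈ V, x * x = 1 := by
      intro x hx
      funext g
      rcases hpm x hx g with h | h <;> simp [h]
    have hone : (1 : G → ℤ) ∈ V := by
      have := hmul x1 hx1 x1 hx1
      rwa [hsq x1 hx1] at this
    set V0 := V.filter (fun x => x g0 = 1) with hV0
    have hV0sub : V0 ⊆ V := Finset.filter_subset _ _
    have hx1V0 : x1 ∉ V0 := by
      simp [hV0, hg0]
    have hcard0 : V0.card ≤ n := by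
      have : V0.card < V.card := Finset.card_lt_card ⟨hV0sub, fun h => hx1V0 (h hx1)⟩
      omega
    have hmul0 : ∀ x ∈ V0, ∀ y ∈ V0, x * y ∈ V0 := by
      intro x hx y hy
      rw [hV0, Finset.mem_filter] at hx hy ⊢
      exact ⟨hmul x hx.1 y hy.1, by simp [hx.2, hy.2]⟩
    have hpm0 : ∀ x ∈ V0, ∀ g, x g = 1 ∨ x g = -1 := fun x hx => hpm x (hV0sub hx)
    -- cosets
    have hinj : ∀ y ∈ V, ∀ a b : G → ℤ, y * a = y * b → a = b := by
      intro y hy a b h
      have : y * (y * a) = y * (y * b) := by rw [h]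
      rwa [← mul_assoc, ← mul_assoc, hsq y hy, one_mul, one_mul] at this
    have hx1x1 : x1 * x1 = 1 := hsq x1 hx1
    have hcov : V = V0 ∪ V0.image (fun x => x1 * x) := by
      ext x
      simp only [Finset.mem_union, Finset.mem_image]
      constructor
      · intro hx
        rcases hpm x hx g0 with h | h
        · left; simp [hV0, hx, h]
        · right
          refine ⟨x1 * x, ?_, ?_⟩
          · rw [hV0, Finset.mem_filter]
            exact ⟨hmul x1 hx1 x hx, by simp [h, hg0]⟩
          · rw [← mul_assoc, hx1x1, one_mul]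
      · rintro (h | ⟨a, ha, rfl⟩)
        · exact hV0sub h
        · exact hmul x1 hx1 a (hV0sub ha)
    have hdisj : Disjoint V0 (V0.image (fun x => x1 * x)) := by
      rw [Finset.disjoint_left]
      intro x hx hx'
      obtain ⟨a, ha, rfl⟩ := Finset.mem_image.1 hx'
      rw [hV0, Finset.mem_filter] at hx ha
      have h1 := hx.2
      simp only [Pi.mul_apply, hg0, ha.2] at h1
      norm_num at h1
    have hcardI : (V0.image (fun x => x1 * x)).card = V0.card :=
      Finset.card_image_of_injOn (fun a _ b _ h => hinj x1 hx1 a b h)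
    have hcardV : V.card = 2 * V0.card := by
      rw [hcov, Finset.card_union_of_disjoint hdisj, hcardI]; ring
    have hSmul : ∀ (y x : G → ℤ), Sm (fun g => θ g * (y g : ℂ)) x = Sm θ (y * x) := by
      intro y x
      simp only [Sm, Pi.mul_apply, Int.cast_mul]
      exact Finset.sum_congr rfl (fun g _ => by ring)
    set Bg := V.filter (fun x => (w 2) ^ (j + 1) * B < w (Sm θ x)) with hBg
    -- case B
    have caseB : ∀ y ∈ V, (∀ x ∈ V0, w (Sm θ (y * x1 * x)) ≤ (w 2) ^ (j + 1) * B) →
        (∃ x ∈ V0, (w 2) ^ (j + 1) * B < w (Sm θ (y * x))) → V.card ≤ 2 ^ j * Bg.card := by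
      intro y hy hsmall hlarge
      set θ' : G → ℂ := fun g => if x1 g = -1 then θ g * (y g : ℂ) else 0 with hθ'
      have hθ'B : ∀ g, w (θ' g) ≤ B := by
        intro g
        simp only [hθ']
        split_ifs
        · rw [map_mul, w_int (hpm y hy g), mul_one]; exact hθ g
        · simpa using hB
      have hdiff : ∀ x, Sm θ (y * x) - Sm θ (y * x1 * x) = 2 * Sm θ' x := by
        intro x
        simp only [Sm, Pi.mul_apply, Int.cast_mul, Finset.mul_sum, ← Finset.sum_sub_distrib]
        apply Finset.sum_congr rfl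
        intro g _
        simp only [hθ']
        rcases hpm x1 hx1 g with h | h
        · rw [h]; norm_num
        · rw [h]; simp; ring
      have hhB : ∀ x ∈ V0, w (Sm θ' x) ≤ B := by
        intro x hx
        apply w_sum hna hB
        intro g _
        rw [map_mul, w_int (hpm0 x hx g), mul_one]; exact hθ'B g
      have hup : ∀ x ∈ V0, (w 2) ^ (j + 1) * B < w (Sm θ (y * x)) →
          (w 2) ^ j * B < w (Sm θ' x) := by
        intro x hx hb
        have h1 : Sm θ (y * x) = 2 * Sm θ' x + Sm θ (y * x1 * x) := by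
          rw [← hdiff x]; ring
        have h2 := hna (2 * Sm θ' x) (Sm θ (y * x1 * x))
        rw [← h1] at h2
        have h3 := hsmall x hx
        have h4 : w (Sm θ (y * x)) ≤ w (2 * Sm θ' x) := by
          rcases le_max_iff.1 h2 with h | h
          · exact h
          · linarith
        rw [map_mul] at h4
        have h5 : (w 2) ^ (j + 1) * B < w 2 * w (Sm θ' x) := lt_of_lt_of_le hb h4
        rw [pow_succ'] at h5
        have h6 : w 2 * ((w 2) ^ j * B) < w 2 * w (Sm θ' x) := by linarith
        exact lt_of_mul_lt_mul_left h6 hw2.le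
      have hdown : ∀ x ∈ V0, (w 2) ^ j * B < w (Sm θ' x) →
          (w 2) ^ (j + 1) * B < w (Sm θ (y * x)) := by
        intro x hx hb
        have h1 : 2 * Sm θ' x = Sm θ (y * x) + (- Sm θ (y * x1 * x)) := by
          rw [← hdiff x]; ring
        have h2 := hna (Sm θ (y * x)) (- Sm θ (y * x1 * x))
        rw [← h1, map_neg_eq_map, map_mul] at h2
        have h3 := hsmall x hx
        have h5 : (w 2) ^ (j + 1) * B < w 2 * w (Sm θ' x) := by
          rw [pow_succ']
          have := mul_lt_mul_of_pos_left hb hw2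
          linarith
        rcases le_max_iff.1 h2 with h | h
        · linarith
        · linarith
      obtain ⟨x0, hx0, hx0b⟩ := hlarge
      rcases j with _ | j
      · exfalso
        have h1 := hup x0 hx0 hx0b
        have h2 := hhB x0 hx0
        simp at h1
        linarith
      · have h1 := ih j θ' hθ'B V0 hcard0 hpm0 hmul0 ⟨x0, hx0, hup x0 hx0 hx0b⟩
        have h2 : (V0.filter (fun x => (w 2) ^ (j + 1) * B < w (Sm θ' x))).card ≤ Bg.card := by
          apply Finset.card_le_card_of_injOn (fun x => y * x)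
          · intro x hx
            have hx' := Finset.mem_filter.1 (Finset.mem_coe.1 hx)
            apply Finset.mem_coe.2
            rw [hBg, Finset.mem_filter]
            exact ⟨hmul y hy x (hV0sub hx'.1), hdown x hx'.1 hx'.2⟩
          · intro a _ b _ h
            exact hinj y hy a b h
        rw [hcardV, pow_succ]
        calc 2 * V0.card ≤ 2 * (2 ^ j * _) := Nat.mul_le_mul_left _ h1
          _ ≤ 2 * (2 ^ j * Bg.card) := Nat.mul_le_mul_left _ (Nat.mul_le_mul_left _ h2)
          _ = 2 ^ j * 2 * Bg.card := by ring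
    by_cases hA0 : ∃ x ∈ V0, (w 2) ^ (j + 1) * B < w (Sm θ x)
    · by_cases hA1 : ∃ x ∈ V0, (w 2) ^ (j + 1) * B < w (Sm θ (x1 * x))
      · -- case A
        have h1 := ih j θ hθ V0 hcard0 hpm0 hmul0 hA0
        have hθ1 : ∀ g, w (θ g * (x1 g : ℂ)) ≤ B := by
          intro g
          rw [map_mul, w_int (hpm x1 hx1 g), mul_one]; exact hθ g
        have h2 := ih j (fun g => θ g * (x1 g : ℂ)) hθ1 V0 hcard0 hpm0 hmul0 (by
          obtain ⟨x, hx, hb⟩ := hA1
          exact ⟨x, hx, by rw [hSmul]; exact hb⟩)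
        simp only [hSmul] at h2
        have h3 : (V0.filter (fun x => (w 2) ^ (j + 1) * B < w (Sm θ x))).card +
            (V0.filter (fun x => (w 2) ^ (j + 1) * B < w (Sm θ (x1 * x)))).card ≤ Bg.card := by
          have e1 : ((V0.filter (fun x => (w 2) ^ (j + 1) * B < w (Sm θ (x1 * x)))).image
              (fun x => x1 * x)).card =
              (V0.filter (fun x => (w 2) ^ (j + 1) * B < w (Sm θ (x1 * x)))).card :=
            Finset.card_image_of_injOn (fun a _ b _ h => hinj x1 hx1 a b h)
          rw [← e1, ← Finset.card_union_of_disjoint]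
          · apply Finset.card_le_card
            intro x hx
            rw [hBg, Finset.mem_filter]
            rcases Finset.mem_union.1 hx with h | h
            · have := Finset.mem_filter.1 h
              exact ⟨hV0sub this.1, this.2⟩
            · obtain ⟨a, ha, rfl⟩ := Finset.mem_image.1 h
              have := Finset.mem_filter.1 ha
              exact ⟨hmul x1 hx1 a (hV0sub this.1), this.2⟩
          · exact Finset.disjoint_of_subset_left (Finset.filter_subset _ _)
              (Finset.disjoint_of_subset_right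
                (Finset.image_subset_image (Finset.filter_subset _ _)) hdisj)
        rw [hcardV]
        calc 2 * V0.card = V0.card + V0.card := by ring
          _ ≤ 2 ^ j * _ + 2 ^ j * _ := Nat.add_le_add h1 h2
          _ = 2 ^ j * (_ + _) := by ring
          _ ≤ 2 ^ j * Bg.card := Nat.mul_le_mul_left _ h3
      · push Not at hA1
        apply caseB 1 hone
        · intro x hx
          rw [one_mul]; exact hA1 x hx
        · obtain ⟨x, hx, hb⟩ := hA0
          exact ⟨x, hx, by rwa [one_mul]⟩
    · push Not at hA0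
      apply caseB x1 hx1
      · intro x hx
        rw [hx1x1, one_mul]; exact hA0 x hx
      · obtain ⟨x, hx, hb⟩ := hbig
        rw [hcov] at hx
        rcases Finset.mem_union.1 hx with h | h
        · exact absurd hb (not_lt.2 (hA0 x h))
        · obtain ⟨a, ha, rfl⟩ := Finset.mem_image.1 h
          exact ⟨a, ha, hb⟩

end RM

theorem rm : RMStatement := by
  intro G _ w hna _ B j θ hθ V hpm hmul hbig
  exact rm_aux w hna B V.card j θ hθ V le_rfl hpm hmul hbig

end Pool.Agent.Lib.MP_50bb2e_nt.PP
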