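import Pool.Agent.Lib.MP_50bb2e_nt.PP.MainA

/-!
MP_50bb2e_nt, board PP: characters of prime conductor, the simplex design, a lower bound for
the number of non-vanishing twists up to `X` for every `X`.
-/

open IsDedekindDomain NumberField Filter Topology

namespace Pool.Agent.Lib.MP_50bb2e_nt.PP

namespace Simplex

variable {F : Type} [Field F] [NumberField F]

theorem chi_pm (χ : QChar F) {a : Ideal (𝓞 F)} (h : χ.chi a ≠ 0) : χ.chi a = 1 ∨ χ.chi a = -1 := by
  by_cases ha : a = ⊥
  · subst ha; exact absurd χ.bot h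
  by_cases hc : Cop χ.T a
  · exact χ.val a ha hc
  · exact absurd (χ.zero a hc) h

open Classical in
/-- the product of characters of prime conductor -/
theorem exists_prod (hcrt : CrtStatement) (hray : RayStatement) (ch : Pr F → QChar F)
    (R : Finset (Pr F)) (hR : ∀ v ∈ R, (ch v).T = {v}) :
    ∃ ρ : QChar F, ρ.T = R ∧ ∀ a, a ≠ ⊥ → ρ.chi a = ∏ v ∈ R, (ch v).chi a := by
  have hval : ∀ a : Ideal (𝓞 F), a ≠ ⊥ → Cop R a → ∀ v ∈ R, (ch v).chi a = 1 ∨ (ch v).chi a = -1 := by
    intro a ha hc v hv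
    apply (ch v).val a ha
    intro u hu
    rw [hR v hv, Finset.mem_singleton] at hu
    subst hu
    exact hc u hv
  refine ⟨{ T := R
            chi := fun a => if a = ⊥ then 0 else ∏ v ∈ R, (ch v).chi a
            bot := by simp
            top := ?_
            mul := ?_
            val := ?_
            zero := ?_
            ray := ?_
            ram := ?_ }, rfl, ?_⟩
  · rw [if_neg top_ne_bot]
    exact Finset.prod_eq_one (fun v _ => (ch v).top)
  · intro a b
    by_cases ha : a = ⊥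
    · simp [ha]
    by_cases hb : b = ⊥
    · simp [hb]
    rw [if_neg ha, if_neg hb, if_neg, ← Finset.prod_mul_distrib]
    · exact Finset.prod_congr rfl (fun v _ => (ch v).mul a b)
    · exact mul_ne_zero (M₀ := Ideal (𝓞 F)) ha hb
  · intro a ha hc
    rw [if_neg ha]
    have h1 := hval a ha hc
    induction R using Finset.induction_on with
    | empty => simp
    | insert v s hv ih =>
      rw [Finset.prod_insert hv]
      have h2 := ih (fun u hu => hR u (Finset.mem_insert_of_mem hu))
        (fun a ha hc => fun u hu => by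
          apply (ch u).val a ha
          intro u' hu'
          rw [hR u (Finset.mem_insert_of_mem hu), Finset.mem_singleton] at hu'
          subst hu'
          exact hc _ hu) (fun u hu => hc u (Finset.mem_insert_of_mem hu))
        (fun u hu => h1 u (Finset.mem_insert_of_mem hu))
      rcases h1 v (Finset.mem_insert_self v s) with h | h <;> rcases h2 with h' | h' <;>
        simp [h, h']
  · intro a hc
    by_cases ha : a = ⊥
    · rw [if_pos ha]
    rw [if_neg ha]
    unfold Cop at hc
    push Not at hc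
    obtain ⟨v, hv, hav⟩ := hc
    apply Finset.prod_eq_zero hv
    apply (ch v).zero
    intro h
    exact h v (by rw [hR v hv]; exact Finset.mem_singleton_self v) hav
  · intro α hα h
    have hα' : Ideal.span {α} ≠ (⊥ : Ideal (𝓞 F)) := by simpa using hα
    rw [if_neg hα']
    apply Finset.prod_eq_one
    intro v hv
    apply (ch v).ray α hα
    intro u hu
    rw [hR v hv, Finset.mem_singleton] at hu
    subst hu
    exact h u hv
  · intro v hv
    obtain ⟨α, hα, -, hα1⟩ := (ch v).ram v (by rw [hR v hv]; exact Finset.mem_singleton_self v)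
    obtain ⟨β, hβ0, hβ⟩ := hcrt F R (fun u => if u = v then α else 1)
    have hβv : β - α ∈ v.asIdeal := by
      have := hβ v hv
      rwa [if_pos rfl] at this
    have hβnv : β ∉ v.asIdeal := by
      intro h
      apply hα
      have := v.asIdeal.sub_mem h hβv
      simpa using this
    have hα0 : α ≠ 0 := by
      rintro rfl
      exact hα (Ideal.zero_mem _)
    refine ⟨β, hβnv, ?_, ?_⟩
    · intro u hu huv
      have := hβ u hu
      rwa [if_neg huv] at this
    · have hβ' : Ideal.span {β} ≠ (⊥ : Ideal (𝓞 F)) := by simpa using hβ0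
      rw [if_neg hβ', ← Finset.mul_prod_erase R _ hv]
      have h1 : (ch v).chi (Ideal.span {β}) = -1 := by
        rw [hray F (ch v) β α hβ0 hα0 (by
          intro u hu
          rw [hR v hv, Finset.mem_singleton] at hu
          subst hu
          exact ⟨hβnv, hβv⟩)]
        exact hα1
      have h2 : ∏ u ∈ R.erase v, (ch u).chi (Ideal.span {β}) = 1 := by
        apply Finset.prod_eq_one
        intro u hu
        rw [Finset.mem_erase] at hu
        apply (ch u).ray β hβ0
        intro u' hu'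
        rw [hR u hu.2, Finset.mem_singleton] at hu'
        subst hu'
        have := hβ u' hu.2
        rwa [if_neg hu.1] at this
      rw [h1, h2, mul_one]
  · intro a ha
    exact if_neg ha

/-! ### the simplex code -/

/-- the pairing -/
def pr {t : ℕ} (l x : Fin t → ZMod 2) : ZMod 2 := ∑ i, l i * x i

theorem pr_add {t : ℕ} (l x y : Fin t → ZMod 2) : pr l (x + y) = pr l x + pr l y := by
  simp [pr, mul_add, Finset.sum_add_distrib]

theorem pr_add_left {t : ℕ} (l m x : Fin t → ZMod 2) : pr (l + m) x = pr l x + pr m x := by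
  simp [pr, add_mul, Finset.sum_add_distrib]

theorem pr_single {t : ℕ} (i : Fin t) (x : Fin t → ZMod 2) : pr (Pi.single i 1) x = x i := by
  simp [pr, Pi.single_apply]

theorem zmod2 (z : ZMod 2) : z = 0 ∨ z = 1 := by
  revert z
  decide

theorem card_H {t : ℕ} (x : Fin (t + 1) → ZMod 2) (hx : x ≠ 0) :
    Fintype.card {l : Fin (t + 1) → ZMod 2 // pr l x = 1} = 2 ^ t := by
  classical
  obtain ⟨i, hi⟩ : ∃ i, x i ≠ 0 := by
    by_contra h
    push Not at h
    exact hx (funext h)
  have hi1 : x i = 1 := (zmod2 (x i)).resolve_left hi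
  have hone : (1 : ZMod 2) + 1 = 0 := by decide
  have e : {l : Fin (t + 1) → ZMod 2 // pr l x = 1} ≃
      {l : Fin (t + 1) → ZMod 2 // ¬ pr l x = 1} := by
    refine ⟨fun l => ⟨l.1 + Pi.single i 1, ?_⟩, fun l => ⟨l.1 + Pi.single i 1, ?_⟩, ?_, ?_⟩
    · rw [pr_add_left, pr_single, hi1, l.2, hone]
      decide
    · rw [pr_add_left, pr_single, hi1, (zmod2 (pr l.1 x)).resolve_right l.2, zero_add]
    · intro l
      apply Subtype.ext
      funext k
      simp only [Pi.add_apply, add_assoc]
      have : ∀ z : ZMod 2, z + z = 0 := by decide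
      rw [this, add_zero]
    · intro l
      apply Subtype.ext
      funext k
      simp only [Pi.add_apply, add_assoc]
      have : ∀ z : ZMod 2, z + z = 0 := by decide
      rw [this, add_zero]
  have h1 := Fintype.card_congr e
  have h2 := Fintype.card_subtype_compl (fun l : Fin (t + 1) → ZMod 2 => pr l x = 1)
  have h3 : Fintype.card (Fin (t + 1) → ZMod 2) = 2 ^ (t + 1) := by
    simp [ZMod.card]
  have h4 : Fintype.card {l : Fin (t + 1) → ZMod 2 // pr l x = 1} ≤ 2 ^ (t + 1) := by
    rw [← h3]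
    exact Fintype.card_subtype_le _
  rw [h3] at h2
  rw [← h1] at h2
  rw [pow_succ] at *
  omega

open Classical in
/-- one of the non-trivial members of the simplex group does not vanish -/
theorem find (hA : MainAStatement) (hcrt : CrtStatement) (hray : RayStatement)
    (ι : Type) [Fintype ι] [Nonempty ι]
    (c : ι → Ideal (𝓞 F) → ℂ) (w : AbsoluteValue ℂ ℝ) (B : ι → ℝ)
    (P : Set (Pr F)) (η : ι → Pr F → ℂ) (j : ℕ) (L : ι → ℂ → ℂ)
    (hS : ∀ i, Setting (c i) w (B i) P (η i)) (hL : ∀ i, Cont (c i) (L i))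
    (hbig : (w 2) ^ (j + 1) * ∏ i, B i < ∏ i, w (L i 1))
    (S : Set (Pr F)) (ch : Pr F → QChar F) (e : (Fin (j + 1) → ZMod 2) → Pr F)
    (he : Function.Injective e) (hch : ∀ l, ch (e l) ∈ Fam P S ∧ (ch (e l)).T = {e l}) :
    ∃ x : Fin (j + 1) → ZMod 2, x ≠ 0 ∧ ∃ ρ ∈ Fam P S,
      ρ.T = (Finset.univ.filter (fun l => pr l x = 1)).image e ∧ ∀ i, NonVan (c i) ρ := by
  set R : (Fin (j + 1) → ZMod 2) → Finset (Pr F) :=
    fun x => (Finset.univ.filter (fun l => pr l x = 1)).image e with hRdef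
  have hR : ∀ x, ∀ v ∈ R x, (ch v).T = {v} := by
    intro x v hv
    obtain ⟨l, -, rfl⟩ := Finset.mem_image.1 hv
    exact (hch l).2
  choose ρ hρT hρ using fun x => exists_prod hcrt hray ch (R x) (hR x)
  have hRP : ∀ x, (R x : Set (Pr F)) ⊆ P := by
    intro x v hv
    obtain ⟨l, -, rfl⟩ := Finset.mem_image.1 (Finset.mem_coe.1 hv)
    exact (hch l).1.1 (by rw [(hch l).2]; simp)
  have hρprod : ∀ x, ∀ a, a ≠ ⊥ → (ρ x).chi a =
      ∏ l : Fin (j + 1) → ZMod 2, if pr l x = 1 then (ch (e l)).chi a else 1 := by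
    intro x a ha
    rw [hρ x a ha, hRdef, Finset.prod_image (fun l _ m _ h => he h), Finset.prod_filter]
  have hinj : Function.Injective ρ := by
    intro x y hxy
    have h1 : R x = R y := by rw [← hρT x, ← hρT y, hxy]
    funext i
    have h2 : ∀ z, e (Pi.single i 1) ∈ R z ↔ z i = 1 := by
      intro z
      rw [hRdef]
      simp only [Finset.mem_image, Finset.mem_filter, Finset.mem_univ, true_and]
      constructor
      · rintro ⟨l, hl, hle⟩
        rw [he hle, pr_single] at hl
        exact hl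
      · intro h
        exact ⟨Pi.single i 1, by rw [pr_single]; exact h, rfl⟩
    have h3 : x i = 1 ↔ y i = 1 := by rw [← h2, ← h2, h1]
    rcases zmod2 (x i) with h | h <;> rcases zmod2 (y i) with h' | h'
    · rw [h, h']
    · rw [h'] at h3; rw [h] at h3; exact absurd (h3.2 rfl) (by decide)
    · rw [h'] at h3; rw [h] at h3; exact absurd (h3.1 rfl) (by decide)
    · rw [h, h']
  set V : Finset (QChar F) := Finset.univ.image ρ with hV
  have hmemFam : ∀ x, ρ x ∈ Fam P S := by
    intro x
    refine ⟨by rw [hρT x]; exact hRP x, ?_⟩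
    intro v hv
    rw [hρprod x v.asIdeal v.ne_bot]
    apply Finset.prod_eq_one
    intro l _
    split_ifs
    · exact (hch l).1.2 v hv
    · rfl
  have hcard : V.card = 2 ^ (j + 1) := by
    rw [hV, Finset.card_image_of_injective _ hinj]
    simp [ZMod.card]
  have key := hA F ι c w B P η j L hS hL hbig V ⟨ρ 0, Finset.mem_image.2 ⟨0, Finset.mem_univ _, rfl⟩⟩
    (by
      intro χ hχ
      obtain ⟨x, -, rfl⟩ := Finset.mem_image.1 hχ
      exact (hmemFam x).1) (by
      intro χ hχ ψ hψ
      obtain ⟨x, -, rfl⟩ := Finset.mem_image.1 (Finset.mem_coe.1 hχ)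
      obtain ⟨y, -, rfl⟩ := Finset.mem_image.1 (Finset.mem_coe.1 hψ)
      refine ⟨ρ (x + y), Finset.mem_coe.2 (Finset.mem_image.2 ⟨_, Finset.mem_univ _, rfl⟩), ?_⟩
      intro a hax hay
      have ha : a ≠ ⊥ := by
        rintro rfl
        exact hax (ρ x).bot
      rw [hρprod x a ha] at hax ⊢
      rw [hρprod y a ha] at hay ⊢
      rw [hρprod _ a ha, ← Finset.prod_mul_distrib]
      apply Finset.prod_congr rfl
      intro l _
      rw [Finset.prod_ne_zero_iff] at hax hay
      have h1 := hax l (Finset.mem_univ l)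
      have h2 := hay l (Finset.mem_univ l)
      rw [pr_add]
      rcases zmod2 (pr l x) with h | h <;> rcases zmod2 (pr l y) with h' | h'
      · simp [h, h']
      · simp [h, h']
      · simp [h, h']
      · rw [h] at h1
        rw [if_pos rfl] at h1
        rw [h, h', if_pos rfl, if_neg (by decide)]
        rcases chi_pm _ h1 with h3 | h3 <;> rw [h3] <;> norm_num)
  rw [hcard] at key
  by_contra hcon
  push Not at hcon
  have h1 : (V.filter (fun χ => ∀ i, NonVan (c i) χ)).card ≤ 1 := by
    rw [Finset.card_le_one]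
    have h2 : ∀ χ ∈ V.filter (fun χ => ∀ i, NonVan (c i) χ), χ = ρ 0 := by
      intro χ hχ
      simp only [Finset.mem_filter] at hχ
      obtain ⟨hχV, hχn⟩ := hχ
      obtain ⟨x, -, rfl⟩ := Finset.mem_image.1 hχV
      by_cases hx : x = 0
      · rw [hx]
      · exfalso
        obtain ⟨i, hi⟩ := hcon x hx (ρ x) (hmemFam x) (hρT x)
        exact hi (hχn i)
    intro a ha b hb
    rw [h2 a ha, h2 b hb]
  have h3 : 2 ^ (j + 1) ≤ 2 ^ j * 1 := key.trans (Nat.mul_le_mul_left _ h1)
  rw [pow_succ] at h3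
  have h4 : 0 < 2 ^ j := by positivity
  omega

open Classical in
/-- lower bound for every `Z` -/
theorem lower (hA : MainAStatement) (hcrt : CrtStatement) (hray : RayStatement)
    (hsumm : SummStatement)
    (ι : Type) [Fintype ι] [Nonempty ι]
    (c : ι → Ideal (𝓞 F) → ℂ) (w : AbsoluteValue ℂ ℝ) (B : ι → ℝ)
    (P : Set (Pr F)) (η : ι → Pr F → ℂ) (j : ℕ) (L : ι → ℂ → ℂ)
    (hS : ∀ i, Setting (c i) w (B i) P (η i)) (hL : ∀ i, Cont (c i) (L i))
    (hbig : (w 2) ^ (j + 1) * ∏ i, B i < ∏ i, w (L i 1))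
    (S : Set (Pr F)) (Z : ℕ) :
    (Set.ncard {v : Pr F | nm v ≤ Z ∧ ∃ χ ∈ Fam P S, χ.T = {v}} / 2 ^ (j + 1)) ^ (2 ^ j) ≤
      2 ^ (j + 1) * Set.ncard {χ : QChar F | χ ∈ Fam P S ∧ (∀ i, NonVan (c i) χ) ∧
        χ.cond ≤ Z ^ (2 ^ j)} := by
  set m := Set.ncard {v : Pr F | nm v ≤ Z ∧ ∃ χ ∈ Fam P S, χ.T = {v}} / 2 ^ (j + 1) with hm
  rcases Nat.eq_zero_or_pos m with hm0 | hm0
  · rw [hm0, zero_pow (by positivity)]
    exact Nat.zero_le _
  -- the set of primes is finite
  have hUfin : {v : Pr F | nm v ≤ Z ∧ ∃ χ ∈ Fam P S, χ.T = {v}}.Finite := by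
    by_contra h
    rw [hm, Set.Infinite.ncard h, Nat.zero_div] at hm0
    exact absurd hm0 (lt_irrefl _)
  set U : Finset (Pr F) := hUfin.toFinset with hU
  have hUc : U.card = Set.ncard {v : Pr F | nm v ≤ Z ∧ ∃ χ ∈ Fam P S, χ.T = {v}} :=
    (Set.ncard_eq_toFinset_card _ hUfin).symm
  have hmU : Fintype.card ((Fin (j + 1) → ZMod 2) × Fin m) ≤ Fintype.card ↥U := by
    rw [Fintype.card_coe, hUc, Fintype.card_prod, Fintype.card_fin]
    have : Fintype.card (Fin (j + 1) → ZMod 2) = 2 ^ (j + 1) := by simp [ZMod.card]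
    rw [this, hm, mul_comm]
    exact Nat.div_mul_le_self _ _
  obtain ⟨emb⟩ := Function.Embedding.nonempty_of_card_le hmU
  have hembU : ∀ p, nm (emb p).1 ≤ Z ∧ ∃ χ ∈ Fam P S, χ.T = {(emb p).1} := by
    intro p
    exact (Set.Finite.mem_toFinset hUfin).1 (emb p).2
  have hchex : ∃ ch : Pr F → QChar F, ∀ p, ch (emb p).1 ∈ Fam P S ∧
      (ch (emb p).1).T = {(emb p).1} := by
    refine ⟨fun v => if h : ∃ χ ∈ Fam P S, χ.T = {v} then h.choose else trivQ F, ?_⟩
    intro p
    have h := (hembU p).2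
    beta_reduce
    rw [dif_pos h]
    exact h.choose_spec
  obtain ⟨ch, hch⟩ := hchex
  set e : (Fin (j + 1) → ZMod 2) → Fin m → Pr F := fun l k => (emb (l, k)).1 with he
  have heinj : ∀ l k l' k', e l k = e l' k' → l = l' ∧ k = k' := by
    intro l k l' k' h
    have := emb.injective (Subtype.ext h)
    rw [Prod.mk.injEq] at this
    exact this
  -- for every choice function
  have hfind : ∀ f : (Fin (j + 1) → ZMod 2) → Fin m, ∃ x : Fin (j + 1) → ZMod 2, x ≠ 0 ∧
      ∃ ρ ∈ Fam P S, ρ.T = (Finset.univ.filter (fun l => pr l x = 1)).image (fun l => e l (f l)) ∧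
        ∀ i, NonVan (c i) ρ := by
    intro f
    exact find hA hcrt hray ι c w B P η j L hS hL hbig S ch (fun l => e l (f l))
      (fun l l' h => (heinj _ _ _ _ h).1) (fun l => hch (l, f l))
  -- the target
  have hTfin : {χ : QChar F | χ ∈ Fam P S ∧ (∀ i, NonVan (c i) χ) ∧ χ.cond ≤ Z ^ (2 ^ j)}.Finite :=
    ((hsumm F).1 (Z ^ (2 ^ j))).subset (fun χ hχ => hχ.2.2)
  set G : (x : Fin (j + 1) → ZMod 2) → Finset ({l : Fin (j + 1) → ZMod 2 // pr l x = 1} → Fin m) :=
    fun x => Finset.univ.filter (fun g => ∃ ρ ∈ Fam P S,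
      ρ.T = Finset.univ.image (fun l : {l : Fin (j + 1) → ZMod 2 // pr l x = 1} => e l.1 (g l)) ∧
        ∀ i, NonVan (c i) ρ) with hG
  have hGle : ∀ x, x ≠ 0 → (G x).card ≤ Set.ncard {χ : QChar F | χ ∈ Fam P S ∧
      (∀ i, NonVan (c i) χ) ∧ χ.cond ≤ Z ^ (2 ^ j)} := by
    intro x hx
    have hex : ∀ g ∈ G x, ∃ ρ ∈ Fam P S,
      ρ.T = Finset.univ.image (fun l : {l : Fin (j + 1) → ZMod 2 // pr l x = 1} => e l.1 (g l)) ∧
        ∀ i, NonVan (c i) ρ := by
      intro g hg
      exact (Finset.mem_filter.1 hg).2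
    have hne : Nonempty (QChar F) := ⟨trivQ F⟩
    choose! ρ hρF hρT hρN using hex
    rw [Set.ncard_eq_toFinset_card _ hTfin]
    apply Finset.card_le_card_of_injOn ρ
    · intro g hg
      rw [Finset.mem_coe] at hg
      rw [Finset.mem_coe, Set.Finite.mem_toFinset]
      refine ⟨hρF g hg, hρN g hg, ?_⟩
      unfold QChar.cond
      rw [hρT g hg]
      refine (Finset.prod_le_pow_card _ _ Z ?_).trans ?_
      · intro v hv
        obtain ⟨l, -, rfl⟩ := Finset.mem_image.1 hv
        exact (hembU _).1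
      · apply Nat.pow_le_pow_right
        · refine le_trans ?_ (hembU (0, ⟨0, hm0⟩)).1
          unfold nm
          rw [Nat.one_le_iff_ne_zero, Ne, Ideal.absNorm_eq_zero_iff]
          exact HeightOneSpectrum.ne_bot _
        · refine Finset.card_image_le.trans ?_
          rw [Finset.card_univ, card_H x hx]
    · intro g hg g' hg' h
      rw [Finset.mem_coe] at hg hg'
      have h1 : (Finset.univ.image (fun l : {l : Fin (j + 1) → ZMod 2 // pr l x = 1} =>
          e l.1 (g l))) = Finset.univ.image (fun l : {l : Fin (j + 1) → ZMod 2 // pr l x = 1} =>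
          e l.1 (g' l)) := by rw [← hρT g hg, ← hρT g' hg', h]
      funext l
      have h2 : e l.1 (g l) ∈ Finset.univ.image (fun l : {l : Fin (j + 1) → ZMod 2 // pr l x = 1} =>
          e l.1 (g l)) := Finset.mem_image.2 ⟨l, Finset.mem_univ _, rfl⟩
      rw [h1] at h2
      obtain ⟨l', -, h3⟩ := Finset.mem_image.1 h2
      obtain ⟨h4, h5⟩ := heinj _ _ _ _ h3
      have h6 : l' = l := Subtype.ext h4
      subst h6
      exact h5.symm
  -- counting
  have hcount : m ^ (2 ^ (j + 1)) ≤ ∑ x ∈ (Finset.univ.filter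
      (fun x : Fin (j + 1) → ZMod 2 => x ≠ 0)), (G x).card * m ^ (2 ^ j) := by
    have e1 : m ^ (2 ^ (j + 1)) = (Finset.univ : Finset ((Fin (j + 1) → ZMod 2) → Fin m)).card := by
      rw [Finset.card_univ, Fintype.card_fun, Fintype.card_fin]
      simp [ZMod.card]
    rw [e1]
    have e2 : (Finset.univ : Finset ((Fin (j + 1) → ZMod 2) → Fin m)) ⊆
        (Finset.univ.filter (fun x : Fin (j + 1) → ZMod 2 => x ≠ 0)).biUnion (fun x =>
          Finset.univ.filter (fun f : (Fin (j + 1) → ZMod 2) → Fin m =>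
            (fun l : {l : Fin (j + 1) → ZMod 2 // pr l x = 1} => f l.1) ∈ G x)) := by
      intro f _
      obtain ⟨x, hx, ρ, hρ, hρT, hρN⟩ := hfind f
      rw [Finset.mem_biUnion]
      refine ⟨x, Finset.mem_filter.2 ⟨Finset.mem_univ _, hx⟩, Finset.mem_filter.2
        ⟨Finset.mem_univ _, Finset.mem_filter.2 ⟨Finset.mem_univ _, ρ, hρ, ?_, hρN⟩⟩⟩
      rw [hρT]
      ext v
      simp only [Finset.mem_image, Finset.mem_filter, Finset.mem_univ, true_and, Subtype.exists]
      constructor
      · rintro ⟨l, hl, rfl⟩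
        exact ⟨l, hl, rfl⟩
      · rintro ⟨l, hl, rfl⟩
        exact ⟨l, hl, rfl⟩
    refine (Finset.card_le_card e2).trans (Finset.card_biUnion_le.trans ?_)
    apply Finset.sum_le_sum
    intro x hx
    have hx0 : x ≠ 0 := (Finset.mem_filter.1 hx).2
    have hc1 := card_H x hx0
    have hc2 : Fintype.card {l : Fin (j + 1) → ZMod 2 // ¬ pr l x = 1} = 2 ^ j := by
      rw [Fintype.card_subtype_compl, hc1]
      have : Fintype.card (Fin (j + 1) → ZMod 2) = 2 ^ (j + 1) := by simp [ZMod.card]
      rw [this, pow_succ]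
      omega
    have e3 : (G x).card * m ^ (2 ^ j) = ((G x) ×ˢ (Finset.univ :
        Finset ({l : Fin (j + 1) → ZMod 2 // ¬ pr l x = 1} → Fin m))).card := by
      rw [Finset.card_product, Finset.card_univ, Fintype.card_fun, Fintype.card_fin, hc2]
    rw [e3]
    apply Finset.card_le_card_of_injOn
      (Equiv.piEquivPiSubtypeProd (fun l => pr l x = 1) (fun _ => Fin m))
    · intro f hf
      rw [Finset.mem_coe, Finset.mem_filter] at hf
      rw [Finset.mem_coe, Finset.mem_product]
      exact ⟨hf.2, Finset.mem_univ _⟩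
    · exact (Equiv.injective _).injOn
  have hfinal : m ^ (2 ^ (j + 1)) ≤ (2 ^ (j + 1) * Set.ncard {χ : QChar F | χ ∈ Fam P S ∧
      (∀ i, NonVan (c i) χ) ∧ χ.cond ≤ Z ^ (2 ^ j)}) * m ^ (2 ^ j) := by
    refine hcount.trans ?_
    calc ∑ x ∈ (Finset.univ.filter (fun x : Fin (j + 1) → ZMod 2 => x ≠ 0)),
          (G x).card * m ^ (2 ^ j)
        ≤ ∑ x ∈ (Finset.univ.filter (fun x : Fin (j + 1) → ZMod 2 => x ≠ 0)),
          Set.ncard {χ : QChar F | χ ∈ Fam P S ∧
            (∀ i, NonVan (c i) χ) ∧ χ.cond ≤ Z ^ (2 ^ j)} * m ^ (2 ^ j) := by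
          apply Finset.sum_le_sum
          intro x hx
          exact Nat.mul_le_mul_right _ (hGle x (Finset.mem_filter.1 hx).2)
      _ ≤ _ := by
          rw [Finset.sum_const, smul_eq_mul, ← mul_assoc]
          apply Nat.mul_le_mul_right
          apply Nat.mul_le_mul_right
          refine (Finset.card_le_univ _).trans ?_
          simp [ZMod.card]
  have hpow : m ^ (2 ^ (j + 1)) = m ^ (2 ^ j) * m ^ (2 ^ j) := by
    rw [← pow_add]
    congr 1
    rw [pow_succ]; ring
  rw [hpow] at hfinal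
  exact Nat.le_of_mul_le_mul_right hfinal (pow_pos hm0 _)

end Simplex

end Pool.Agent.Lib.MP_50bb2e_nt.PP
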